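import Pool.Agent.LLO.Defs

set_option autoImplicit false

/-! Module Abl: Abel summation.  `geo`: `|∑_{m<M} e(mβ)| = |1 - e(Mβ)|/|1 - e(β)| ≤ 2/|1 - e(β)|` and `|1 - e(β)| = 2|sin πβ| ≥ 4 ‖β‖`
(`‖β‖ = |β - b|` for the nearest integer `b`, `|β - b| ≤ 1/2`; `Real.mul_le_sin`: `2x/π ≤ sin x` on `[0, π/2]`).
`abl`: with `E_m = ∑_{i<m} e(iβ)`: `∑_{m<M} e(mβ) G(m) = E_M G(M) - ∑_{m<M} E_{m+1} (G(m+1) - G(m))` (induction on `M`). -/

open Finset

namespace Pool.Agent.LLO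

private theorem Abl_low (β δ : ℝ) (h : ∀ b : ℤ, δ ≤ |β - b|) : 4 * δ ≤ ‖e β - 1‖ := by
  have h1 : e β = Complex.exp (Complex.I * ((2 * Real.pi * β : ℝ) : ℂ)) := by
    unfold e
    congr 1
    push_cast
    ring
  rw [h1, Complex.norm_exp_I_mul_ofReal_sub_one]
  have h2 : 2 * Real.pi * β / 2 = Real.pi * β := by ring
  rw [h2, Real.norm_eq_abs, abs_mul, abs_of_pos (by norm_num : (0 : ℝ) < 2)]
  have h3 : |Real.sin (Real.pi * β)| = |Real.sin (Real.pi * (β - round β))| := by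
    have h4 : Real.pi * (β - round β) = Real.pi * β - (round β : ℤ) * Real.pi := by ring
    rw [h4, Real.sin_sub_int_mul_pi, abs_mul, abs_neg_one_zpow, one_mul]
  have h5 : |β - round β| ≤ 1 / 2 := abs_sub_round β
  have h6 : |Real.pi * (β - round β)| ≤ Real.pi / 2 := by
    rw [abs_mul, abs_of_pos Real.pi_pos]
    have := mul_le_mul_of_nonneg_left h5 Real.pi_pos.le
    linarith
  have h7 := Real.mul_abs_le_abs_sin h6
  rw [abs_mul, abs_of_pos Real.pi_pos] at h7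
  have h8 : 2 / Real.pi * (Real.pi * |β - round β|) = 2 * |β - round β| := by
    field_simp
  rw [h8] at h7
  rw [h3]
  have h9 := h (round β)
  linarith

theorem geo (β δ : ℝ) (hδ : 0 < δ) (h : ∀ b : ℤ, δ ≤ |β - b|) (M : ℕ) :
    ‖∑ m ∈ range M, e (m * β)‖ ≤ 1 / (2 * δ) := by
  have h1 : ∀ m : ℕ, e (m * β) = e β ^ m := by
    intro m
    induction m with
    | zero => simp [e_zero]
    | succ m ih =>
      rw [pow_succ, ← ih, ← e_add]
      congr 1
      push_cast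
      ring
  have h2 : (∑ m ∈ range M, e (m * β)) * (e β - 1) = e β ^ M - 1 := by
    rw [Finset.sum_congr rfl fun m _ => h1 m]
    exact geom_sum_mul (e β) M
  have h3 : ‖e β ^ M - 1‖ ≤ 2 := by
    refine (norm_sub_le _ _).trans ?_
    rw [norm_pow, e_norm, one_pow, norm_one]
    norm_num
  have h4 := Abl_low β δ h
  have h5 : ‖∑ m ∈ range M, e (m * β)‖ * ‖e β - 1‖ ≤ 2 := by
    rw [← norm_mul, h2]
    exact h3
  have h6 : ‖∑ m ∈ range M, e (m * β)‖ * (4 * δ) ≤ 2 :=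
    (mul_le_mul_of_nonneg_left h4 (norm_nonneg _)).trans h5
  rw [le_div_iff₀ (by positivity)]
  linarith

theorem abl (β δ : ℝ) (hδ : 0 < δ) (h : ∀ b : ℤ, δ ≤ |β - b|) (G : ℕ → ℂ) (M : ℕ) (B W : ℝ)
    (hB : ∀ m, ‖G m‖ ≤ B) (hW : ∀ m, ‖G (m + 1) - G m‖ ≤ W) :
    ‖∑ m ∈ range M, e (m * β) * G m‖ ≤ 1 / (2 * δ) * (B + M * W) := by
  have h1 : ∑ m ∈ range M, e (m * β) * G m =
      (∑ i ∈ range M, e (i * β)) * G M -
        ∑ m ∈ range M, (∑ i ∈ range (m + 1), e (i * β)) * (G (m + 1) - G m) := by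
    induction M with
    | zero => simp
    | succ M ih =>
      rw [Finset.sum_range_succ, ih, Finset.sum_range_succ (fun m => (∑ i ∈ range (m + 1),
        e (i * β)) * (G (m + 1) - G m)) M, Finset.sum_range_succ (fun i => e ((i : ℕ) * β)) M]
      ring
  have h2 : 0 ≤ 1 / (2 * δ) := by positivity
  rw [h1]
  refine (norm_sub_le _ _).trans ?_
  have h3 : ‖(∑ i ∈ range M, e (i * β)) * G M‖ ≤ 1 / (2 * δ) * B := by
    rw [norm_mul]
    exact mul_le_mul (geo β δ hδ h M) (hB M) (norm_nonneg _) h2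
  have h4 : ‖∑ m ∈ range M, (∑ i ∈ range (m + 1), e (i * β)) * (G (m + 1) - G m)‖ ≤
      ∑ _m ∈ range M, 1 / (2 * δ) * W := by
    refine norm_sum_le_of_le _ fun m _ => ?_
    rw [norm_mul]
    exact mul_le_mul (geo β δ hδ h (m + 1)) (hW m) (norm_nonneg _) h2
  rw [Finset.sum_const, card_range, nsmul_eq_mul] at h4
  calc _ ≤ 1 / (2 * δ) * B + M * (1 / (2 * δ) * W) := add_le_add h3 h4
    _ = _ := by ring

end Pool.Agent.LLO
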