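import Pool.Agent.LLO.Sys

set_option autoImplicit false

/-! Module Crt: the residues modulo different primes are almost independent.  `M = ∏_{p∈U} p`.  `rst U (yo X a) = rst U (yo X a')` iff
`a ≡ a' (mod M)` (Chinese remainder theorem: `Nat.ModEq` modulo each `p ∈ U`, the primes are coprime), so every fibre in `range X` has `≤ X/M + 1` elements
(`a' ∈ range X`, `a' ≡ a (mod M)`).  `ent s Y = (1/|s|)∑_a log(|s|/n_a) ≥ log(X/(X/M+1)) = log M - log(1 + M/X) ≥ ∑ log p - M/X`.
`dfc_nonneg`: `FCH.ent_pair_le` and `ent Y ≤ log M` (`FCH.ent_le_log`: the image has `≤ M` elements: it is determined by `(X+a) % M`). -/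

open Finset

namespace Pool.Agent.LLO

open Pool.Agent.FCH (ent rst wrd)

private theorem Crt_rst (X : ℕ) (U : Finset ℕ) (hU : ∀ p ∈ U, p.Prime) (a a' : ℕ) :
    rst U (yo X a) = rst U (yo X a') ↔ a ≡ a' [MOD ∏ p ∈ U, p] := by
  have h1 : rst U (yo X a) = rst U (yo X a') ↔ ∀ p ∈ U, (X + a) % p = (X + a') % p := by
    constructor
    · intro h p hp
      have h2 := congrFun h p
      unfold Pool.Agent.FCH.rst yo at h2
      rwa [if_pos hp, if_pos hp] at h2
    · intro h
      funext p
      unfold Pool.Agent.FCH.rst yo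
      by_cases hp : p ∈ U
      · rw [if_pos hp, if_pos hp, h p hp]
      · rw [if_neg hp, if_neg hp]
  rw [h1]
  constructor
  · intro h
    rw [Nat.modEq_iff_dvd, Nat.cast_prod]
    refine Finset.prod_dvd_of_coprime ?_ ?_
    · intro p hp q hq hpq
      exact Nat.isCoprime_iff_coprime.2 ((Nat.coprime_primes (hU p hp) (hU q hq)).2 hpq)
    · intro p hp
      have h2 : X + a ≡ X + a' [MOD p] := h p hp
      exact (Nat.modEq_iff_dvd).1 (Nat.ModEq.add_left_cancel' X h2)
  · intro h p hp
    exact Nat.ModEq.add_left X (h.of_dvd (Finset.dvd_prod_of_mem _ hp))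

private theorem Crt_log (U : Finset ℕ) (hU : ∀ p ∈ U, p.Prime) :
    ∑ p ∈ U, Real.log p = Real.log (∏ p ∈ U, (p : ℝ)) := by
  rw [Real.log_prod]
  intro p hp
  have := (hU p hp).pos
  positivity

theorem crt (X : ℕ) (hX : 1 ≤ X) (U : Finset ℕ) (hU : ∀ p ∈ U, p.Prime) :
    ∑ p ∈ U, Real.log p - ent (range X) (fun a => rst U (yo X a)) ≤ (∏ p ∈ U, (p : ℝ)) / X := by
  classical
  rw [Crt_log U hU]
  have hM0 : 0 < ∏ p ∈ U, p := Finset.prod_pos fun p hp => (hU p hp).pos
  have hMc : (∏ p ∈ U, (p : ℝ)) = ((∏ p ∈ U, p : ℕ) : ℝ) := by push_cast; rfl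
  rw [hMc]
  have key := Crt_rst X U hU
  generalize (∏ p ∈ U, p : ℕ) = M at hM0 key
  have hM : (0 : ℝ) < M := by exact_mod_cast hM0
  have hXr : (0 : ℝ) < X := by exact_mod_cast hX
  have hterm : ∀ a ∈ range X, Real.log M - M / X ≤ Real.log (((range X).card : ℝ) /
      (((range X).filter (fun a' => rst U (yo X a') = rst U (yo X a))).card : ℝ)) := by
    intro a ha
    have h1 : (((range X).filter (fun a' => rst U (yo X a') = rst U (yo X a))).card : ℝ) ≤
        X / M + 1 := by
      have h2 : (range X).filter (fun a' => rst U (yo X a') = rst U (yo X a)) =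
          (range X).filter (fun a' => a' ≡ a [MOD M]) := by
        refine Finset.filter_congr fun a' _ => ?_
        rw [key]
      rw [h2, ← Nat.count_eq_card_filter_range, Nat.count_modEq_card _ hM0]
      have h3 : ((X / M : ℕ) : ℝ) ≤ (X : ℝ) / M := Nat.cast_div_le
      split_ifs
      · push_cast; linarith
      · push_cast; linarith
    have h4 : 0 < (((range X).filter (fun a' => rst U (yo X a') = rst U (yo X a))).card : ℝ) := by
      have : a ∈ (range X).filter (fun a' => rst U (yo X a') = rst U (yo X a)) :=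
        Finset.mem_filter.2 ⟨ha, rfl⟩
      exact_mod_cast Finset.card_pos.2 ⟨a, this⟩
    rw [Finset.card_range]
    have h5 : (X : ℝ) / (X / M + 1) ≤ (X : ℝ) /
        (((range X).filter (fun a' => rst U (yo X a') = rst U (yo X a))).card : ℝ) :=
      div_le_div_of_nonneg_left hXr.le h4 h1
    have h6 : (X : ℝ) / (X / M + 1) = M / (1 + M / X) := by
      field_simp
    have h7 : Real.log (M / (1 + M / X)) = Real.log M - Real.log (1 + M / X) :=
      Real.log_div hM.ne' (by positivity)
    have h8 : Real.log (1 + M / X) ≤ M / X := by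
      have := Real.log_le_sub_one_of_pos (show (0 : ℝ) < 1 + M / X by positivity)
      linarith
    have h9 : Real.log (M / (1 + M / X)) ≤ Real.log ((X : ℝ) /
        (((range X).filter (fun a' => rst U (yo X a') = rst U (yo X a))).card : ℝ)) := by
      rw [← h6]
      exact Real.log_le_log (by positivity) h5
    linarith
  have hent : Real.log M - M / X ≤ ent (range X) (fun a => rst U (yo X a)) := by
    unfold Pool.Agent.FCH.ent
    rw [le_div_iff₀ (by rw [Finset.card_range]; exact hXr)]
    have h1 := Finset.card_nsmul_le_sum (range X) _ _ hterm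
    rw [nsmul_eq_mul] at h1
    rw [mul_comm]
    refine h1.trans (le_of_eq ?_)
    refine Finset.sum_congr rfl fun a _ => ?_
    congr!
  linarith

theorem ent_yo_le (X : ℕ) (U : Finset ℕ) (hU : ∀ p ∈ U, p.Prime) :
    ent (range X) (fun a => rst U (yo X a)) ≤ ∑ p ∈ U, Real.log p := by
  classical
  rw [Crt_log U hU]
  have hM0 : 0 < ∏ p ∈ U, p := Finset.prod_pos fun p hp => (hU p hp).pos
  have hMc : (∏ p ∈ U, (p : ℝ)) = ((∏ p ∈ U, p : ℕ) : ℝ) := by push_cast; rfl
  rw [hMc]
  have key := Crt_rst X U hU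
  have h1 : ent (range X) (fun a => rst U (yo X a)) ≤ ent (range X) (fun a => a % ∏ p ∈ U, p) := by
    refine Pool.Agent.FCH.ent_mono _ _ _ fun a _ a' _ h => ?_
    exact (key a a').2 h
  refine h1.trans (Pool.Agent.FCH.ent_le_log _ _ _ hM0 ?_)
  refine (Finset.card_le_card (t := range (∏ p ∈ U, p)) ?_).trans (Finset.card_range _).le
  intro y hy
  rw [@Finset.mem_image] at hy
  obtain ⟨a, -, rfl⟩ := hy
  exact Finset.mem_range.2 (Nat.mod_lt _ hM0)

theorem dfc_nonneg (X A P H : ℕ) : 0 ≤ dfc X A P H := by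
  unfold dfc
  have h1 := Pool.Agent.FCH.ent_pair_le (range X) (wrd (sh X) (sy X) H)
    (fun a => rst (pr A P) (yo X a))
  have h2 := ent_yo_le X (pr A P) (fun p hp => (mem_pr.1 hp).2)
  linarith

end Pool.Agent.LLO
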