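import Pool.Agent.LLO.Defs

set_option autoImplicit false

/-! Module Dil: dilation.  `T_X = ∑_{n∈[X,2X), p∣n} p λ(n)λ(n+pk) = p ∑_{m: pm∈[X,2X)} λ(m)λ(m+k)` (`λ(pm)λ(pm+pk) = λ(m)λ(m+k)`).  For `X = pM+r`, `r < p`, `M ≥ 1`,
the `m` run over `[⌈X/p⌉, ⌈2X/p⌉)`, which differs from `[M,2M)` by at most `3` elements, so `p|cs M k| ≤ |T_X| + 3p`.
Sum over the `X = pM + r ≤ Z` with weights `1/X²` (`1/(p(M+1))² ≤ 1/X² ≤ 1/(pM)²`), `1 ≤ M`, `p(M+1) ≤ Z+1`:
`∑_M |cs M k|/(M+1)² ≤ ∑_{X≤Z} |T_X|/X² + 3∑1/M² ≤ ∑_X |T_X|/X² + 5`, and `(M/(M+1))² ≥ 1/4`.  The remaining `M ∈ [Q, Z]`, `Q = ⌊(Z+1)/p⌋`: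
`∑ |cs M k|/M² ≤ ∑ 1/M ≤ 2p` (if `Q ≥ 1`: `Q ≥ (Z+1)/(2p)`, each term `≤ 1/Q`, at most `Z` terms; if `Q = 0`: `Z < p`). -/

open Finset

namespace Pool.Agent.LLO

private noncomputable def Tp (k p X : ℕ) : ℝ :=
  ∑ n ∈ Ico X (2 * X), lam n * lam (n + p * k) * (if p ∣ n then (p : ℝ) else 0)

private theorem Dil_bd (g : ℕ → ℝ) (hg : ∀ n, |g n| ≤ 1) (a b : ℕ) : |∑ n ∈ Ico a b, g n| ≤ (b - a : ℕ) := by
  refine (abs_sum_le_sum_abs _ _).trans ?_
  refine (sum_le_sum fun i _ => hg i).trans ?_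
  simp

private theorem Dil_cmp (g : ℕ → ℝ) (hg : ∀ n, |g n| ≤ 1) (M a b : ℕ) (hM : 1 ≤ M) (h1 : M ≤ a) (h2 : a ≤ M + 1)
    (h3 : 2 * M ≤ b) (h4 : b ≤ 2 * M + 2) : |∑ n ∈ Ico M (2 * M), g n| ≤ |∑ n ∈ Ico a b, g n| + 3 := by
  have e1 := sum_Ico_consecutive g h1 (show a ≤ b by omega)
  have e2 := sum_Ico_consecutive g (show M ≤ 2 * M by omega) h3
  have e3 : ∑ n ∈ Ico M (2 * M), g n = ∑ n ∈ Ico a b, g n + (∑ n ∈ Ico M a, g n - ∑ n ∈ Ico (2 * M) b, g n) := by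
    linarith
  have b1 := Dil_bd g hg M a
  have b2 := Dil_bd g hg (2 * M) b
  have c1 : ((a - M : ℕ) : ℝ) ≤ 1 := by exact_mod_cast (show a - M ≤ 1 by omega)
  have c2 : ((b - 2 * M : ℕ) : ℝ) ≤ 2 := by exact_mod_cast (show b - 2 * M ≤ 2 by omega)
  rw [e3]
  refine (abs_add_le _ _).trans ?_
  have := abs_sub (∑ n ∈ Ico M a, g n) (∑ n ∈ Ico (2 * M) b, g n)
  linarith

private theorem Dil_T (k p : ℕ) (hp : p.Prime) (M r : ℕ) (hM : 1 ≤ M) (hr : r < p) :
    (p : ℝ) * |cs M k| ≤ |Tp k p (p * M + r)| + 3 * p := by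
  have hp0 : 0 < p := hp.pos
  set X := p * M + r with hX
  have hpM : p ≤ p * M := Nat.le_mul_of_pos_right p (by omega)
  have key : Tp k p X = p * ∑ m ∈ Ico ((X + p - 1) / p) ((2 * X + p - 1) / p), lam m * lam (m + k) := by
    unfold Tp
    have : ∀ n ∈ Ico X (2 * X), lam n * lam (n + p * k) * (if p ∣ n then (p : ℝ) else 0) =
        if p ∣ n then lam n * lam (n + p * k) * p else 0 := by
      intro n _
      split_ifs <;> simp
    rw [sum_congr rfl this, ← sum_filter, mul_sum]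
    refine sum_nbij' (fun n => n / p) (fun m => p * m) ?_ ?_ ?_ ?_ ?_
    · intro n hn
      rw [mem_filter, mem_Ico] at hn
      obtain ⟨⟨h1, h2⟩, m, rfl⟩ := hn
      rw [Nat.mul_div_cancel_left _ hp0, mem_Ico, Nat.div_le_iff_le_mul hp0, Nat.lt_div_iff_mul_lt hp0]
      constructor
      · rw [mul_comm m p]; omega
      · have : p * m < 2 * X := h2
        rw [mul_comm m p] 
        omega
    · intro m hm
      rw [mem_Ico, Nat.div_le_iff_le_mul hp0, Nat.lt_div_iff_mul_lt hp0, mul_comm m p] at hm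
      rw [mem_filter, mem_Ico]
      refine ⟨⟨by omega, by omega⟩, dvd_mul_right _ _⟩
    · intro n hn
      rw [mem_filter] at hn
      exact Nat.mul_div_cancel' hn.2
    · intro m _
      exact Nat.mul_div_cancel_left _ hp0
    · intro n hn
      rw [mem_filter, mem_Ico] at hn
      obtain ⟨⟨h1, h2⟩, m, rfl⟩ := hn
      have hm : 0 < m := by
        rcases Nat.eq_zero_or_pos m with h | h
        · subst h; omega
        · exact h
      simp only [Nat.mul_div_cancel_left _ hp0]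
      rw [← mul_add, lam_prime_mul hp hm, lam_prime_mul hp (by omega)]
      ring
  have hc := Dil_cmp (fun m => lam m * lam (m + k)) (fun m => by rw [abs_mul, lam_abs, lam_abs]; norm_num) M
    ((X + p - 1) / p) ((2 * X + p - 1) / p) hM
    (by rw [Nat.le_div_iff_mul_le hp0, mul_comm M p]; omega)
    (by rw [Nat.div_le_iff_le_mul hp0, add_mul, mul_comm M p]; omega)
    (by rw [Nat.le_div_iff_mul_le hp0]; have : 2 * M * p = 2 * (p * M) := by ring
        omega)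
    (by rw [Nat.div_le_iff_le_mul hp0]; have : (2 * M + 2) * p = 2 * (p * M) + 2 * p := by ring
        omega)
  have hpr : (0 : ℝ) ≤ p := Nat.cast_nonneg p
  rw [key, abs_mul, abs_of_nonneg hpr]
  unfold cs
  have := mul_le_mul_of_nonneg_left hc hpr
  linarith

private theorem Dil_one (k p : ℕ) (hp : p.Prime) (M : ℕ) (hM : 1 ≤ M) :
    |cs M k| / (M : ℝ) ^ 2 ≤ 4 * ∑ r ∈ range p, |Tp k p (p * M + r)| / ((p * M + r : ℕ) : ℝ) ^ 2 + 12 / ((M : ℝ) * (M + 1)) := by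
  have hp0 : (0 : ℝ) < p := by exact_mod_cast hp.pos
  have hM0 : (1 : ℝ) ≤ M := by exact_mod_cast hM
  have h1 : ∀ r ∈ range p, |cs M k| / (p * ((M : ℝ) + 1) ^ 2) ≤
      |Tp k p (p * M + r)| / ((p * M + r : ℕ) : ℝ) ^ 2 + 3 / (p * ((M : ℝ) + 1) ^ 2) := by
    intro r hr
    rw [mem_range] at hr
    have h := Dil_T k p hp M r hM hr
    have hr' : (r : ℝ) ≤ p := by exact_mod_cast hr.le
    have hXpos : (0 : ℝ) < ((p * M + r : ℕ) : ℝ) := by
      push_cast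
      positivity
    have hX : ((p * M + r : ℕ) : ℝ) ≤ p * (M + 1) := by
      push_cast
      linarith
    have h2 : |Tp k p (p * M + r)| / (p * ((M : ℝ) + 1)) ^ 2 ≤ |Tp k p (p * M + r)| / ((p * M + r : ℕ) : ℝ) ^ 2 := by
      apply div_le_div_of_nonneg_left (abs_nonneg _) (by positivity)
      exact pow_le_pow_left₀ hXpos.le hX 2
    have h3 : |cs M k| / (p * ((M : ℝ) + 1) ^ 2) = p * |cs M k| / (p * ((M : ℝ) + 1)) ^ 2 := by
      field_simp
    have h4 : 3 / (p * ((M : ℝ) + 1) ^ 2) = 3 * p / (p * ((M : ℝ) + 1)) ^ 2 := by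
      field_simp
    rw [h3, h4]
    calc p * |cs M k| / (p * ((M : ℝ) + 1)) ^ 2 ≤ (|Tp k p (p * M + r)| + 3 * p) / (p * ((M : ℝ) + 1)) ^ 2 := by
          gcongr
      _ = |Tp k p (p * M + r)| / (p * ((M : ℝ) + 1)) ^ 2 + 3 * p / (p * ((M : ℝ) + 1)) ^ 2 := add_div _ _ _
      _ ≤ _ := by linarith
  have h2 := sum_le_sum h1
  rw [sum_const, card_range, nsmul_eq_mul, sum_add_distrib, sum_const, card_range, nsmul_eq_mul] at h2
  have e1 : (p : ℝ) * (|cs M k| / (p * ((M : ℝ) + 1) ^ 2)) = |cs M k| / ((M : ℝ) + 1) ^ 2 := by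
    field_simp
  have e2 : (p : ℝ) * (3 / (p * ((M : ℝ) + 1) ^ 2)) = 3 / ((M : ℝ) + 1) ^ 2 := by
    field_simp
  rw [e1, e2] at h2
  have h5 : |cs M k| / (M : ℝ) ^ 2 ≤ 4 * (|cs M k| / ((M : ℝ) + 1) ^ 2) := by
    rw [mul_div_assoc', div_le_div_iff₀ (by positivity) (by positivity)]
    have : ((M : ℝ) + 1) ^ 2 ≤ 4 * (M : ℝ) ^ 2 := by nlinarith
    nlinarith [abs_nonneg (cs M k)]
  have h6 : 3 / ((M : ℝ) + 1) ^ 2 ≤ 3 / ((M : ℝ) * (M + 1)) := by
    apply div_le_div_of_nonneg_left (by norm_num) (by positivity)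
    nlinarith
  have h7 : 12 / ((M : ℝ) * (M + 1)) = 4 * (3 / ((M : ℝ) * (M + 1))) := by ring
  rw [h7]
  linarith

private theorem Dil_tel (n : ℕ) : ∑ m ∈ Icc 1 n, 12 / ((m : ℝ) * (m + 1)) = 12 - 12 / ((n : ℝ) + 1) := by
  induction n with
  | zero => simp
  | succ n ih =>
    rw [sum_Icc_succ_top (by omega), ih]
    push_cast
    field_simp
    ring

private theorem cs_abs (M k : ℕ) : |cs M k| ≤ M := by
  have := Dil_bd (fun m => lam m * lam (m + k)) (fun m => by rw [abs_mul, lam_abs, lam_abs]; norm_num) M (2 * M)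
  have e : 2 * M - M = M := by omega
  rw [e] at this
  exact this

theorem dil (k p : ℕ) (hp : p.Prime) (Z : ℕ) :
    ∑ m ∈ Icc 1 Z, |cs m k| / (m : ℝ) ^ 2 ≤
      4 * ∑ X ∈ Icc 1 Z, |∑ n ∈ Ico X (2 * X), lam n * lam (n + p * k) * (if p ∣ n then (p : ℝ) else 0)| / (X : ℝ) ^ 2 +
        (24 + 2 * p) := by
  have hp0 : 0 < p := hp.pos
  set Q := (Z + 1) / p with hQ
  have hQ1 : p * Q ≤ Z + 1 := Nat.mul_div_le _ _
  have hQ2 : Z + 1 < p * (Q + 1) := by
    exact Nat.lt_mul_div_succ (Z + 1) hp0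
  have hsplit : Icc 1 Z = Icc 1 (Q - 1) ∪ (Icc 1 Z).filter (fun m => Q ≤ m) := by
    ext m
    simp only [mem_union, mem_Icc, mem_filter]
    have hQZ : Q ≤ Z + 1 := Nat.div_le_self _ _
    omega
  have hT : ∀ X, Tp k p X = ∑ n ∈ Ico X (2 * X), lam n * lam (n + p * k) * (if p ∣ n then (p : ℝ) else 0) := fun _ => rfl
  simp only [← hT]
  have hdisj : Disjoint (Icc 1 (Q - 1)) ((Icc 1 Z).filter (fun m => Q ≤ m)) := by
    rw [disjoint_left]
    intro m h1 h2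
    rw [mem_Icc] at h1
    rw [mem_filter] at h2
    omega
  have hA : ∑ m ∈ Icc 1 (Q - 1), |cs m k| / (m : ℝ) ^ 2 ≤ 4 * ∑ X ∈ Icc 1 Z, |Tp k p X| / (X : ℝ) ^ 2 + 12 := by
    calc ∑ m ∈ Icc 1 (Q - 1), |cs m k| / (m : ℝ) ^ 2
        ≤ ∑ m ∈ Icc 1 (Q - 1), (4 * ∑ r ∈ range p, |Tp k p (p * m + r)| / ((p * m + r : ℕ) : ℝ) ^ 2 +
            12 / ((m : ℝ) * (m + 1))) := by
          refine sum_le_sum fun m hm => ?_
          rw [mem_Icc] at hm
          exact Dil_one k p hp m hm.1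
      _ = 4 * ∑ m ∈ Icc 1 (Q - 1), ∑ r ∈ range p, |Tp k p (p * m + r)| / ((p * m + r : ℕ) : ℝ) ^ 2 +
            (12 - 12 / (((Q - 1 : ℕ) : ℝ) + 1)) := by
          rw [sum_add_distrib, Dil_tel, mul_sum]
      _ ≤ 4 * ∑ X ∈ Icc 1 Z, |Tp k p X| / (X : ℝ) ^ 2 + 12 := by
          have h1 : ∑ m ∈ Icc 1 (Q - 1), ∑ r ∈ range p, |Tp k p (p * m + r)| / ((p * m + r : ℕ) : ℝ) ^ 2 ≤
              ∑ X ∈ Icc 1 Z, |Tp k p X| / (X : ℝ) ^ 2 := by
            rw [← sum_product']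
            have : ∑ x ∈ Icc 1 (Q - 1) ×ˢ range p, |Tp k p (p * x.1 + x.2)| / ((p * x.1 + x.2 : ℕ) : ℝ) ^ 2 =
                ∑ X ∈ (Icc 1 (Q - 1) ×ˢ range p).image (fun x => p * x.1 + x.2), |Tp k p X| / (X : ℝ) ^ 2 := by
              rw [sum_image]
              intro x hx y hy hxy
              have hx' := mem_product.1 (mem_coe.1 hx)
              have hy' := mem_product.1 (mem_coe.1 hy)
              have hx2 := mem_range.1 hx'.2
              have hy2 := mem_range.1 hy'.2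
              have h3 : p * x.1 + x.2 = p * y.1 + y.2 := hxy
              have h4 : x.2 = y.2 := by
                have := congrArg (· % p) h3
                simpa [Nat.mul_add_mod, Nat.mod_eq_of_lt hx2, Nat.mod_eq_of_lt hy2] using this
              have h5 : x.1 = y.1 := by
                rw [h4] at h3
                exact Nat.eq_of_mul_eq_mul_left hp0 (Nat.add_right_cancel h3)
              exact Prod.ext h5 h4
            rw [this]
            refine sum_le_sum_of_subset_of_nonneg ?_ (fun _ _ _ => by positivity)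
            intro X hX
            rw [mem_image] at hX
            obtain ⟨x, hx, rfl⟩ := hX
            rw [mem_product, mem_Icc, mem_range] at hx
            rw [mem_Icc]
            have h6 : p * x.1 + p ≤ p * Q := by
              rw [← Nat.mul_succ]
              exact Nat.mul_le_mul_left p (by omega)
            have h7 : p * 1 ≤ p * x.1 := Nat.mul_le_mul_left p hx.1.1
            omega
          have h2 : (0 : ℝ) ≤ 12 / (((Q - 1 : ℕ) : ℝ) + 1) := by positivity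
          linarith
  have hB : ∑ m ∈ (Icc 1 Z).filter (fun m => Q ≤ m), |cs m k| / (m : ℝ) ^ 2 ≤ 2 * p := by
    have h1 : ∀ m ∈ (Icc 1 Z).filter (fun m => Q ≤ m), |cs m k| / (m : ℝ) ^ 2 ≤ 1 / ((max Q 1 : ℕ) : ℝ) := by
      intro m hm
      rw [mem_filter, mem_Icc] at hm
      have hm0 : (1 : ℝ) ≤ m := by exact_mod_cast hm.1.1
      have hm1 : ((max Q 1 : ℕ) : ℝ) ≤ m := by exact_mod_cast max_le hm.2 hm.1.1
      have hmax : (0 : ℝ) < ((max Q 1 : ℕ) : ℝ) := by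
        exact_mod_cast lt_of_lt_of_le Nat.zero_lt_one (le_max_right Q 1)
      calc |cs m k| / (m : ℝ) ^ 2 ≤ (m : ℝ) / (m : ℝ) ^ 2 := by gcongr; exact cs_abs m k
        _ = 1 / (m : ℝ) := by field_simp
        _ ≤ _ := one_div_le_one_div_of_le hmax hm1
    have h2 := sum_le_sum h1
    rw [sum_const, nsmul_eq_mul] at h2
    refine h2.trans ?_
    have hcard : ((Icc 1 Z).filter (fun m => Q ≤ m)).card ≤ 2 * p * max Q 1 := by
      refine (card_filter_le _ _).trans ?_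
      rw [Nat.card_Icc]
      rcases Nat.eq_zero_or_pos Q with h | h
      · rw [h] at hQ2 ⊢
        simp at hQ2 ⊢
        omega
      · rw [max_eq_left h]
        have : p * (Q + 1) ≤ 2 * p * Q := by nlinarith
        omega
    have hmax : (0 : ℝ) < ((max Q 1 : ℕ) : ℝ) := by
      exact_mod_cast lt_of_lt_of_le Nat.zero_lt_one (le_max_right Q 1)
    rw [mul_one_div, div_le_iff₀ hmax]
    exact_mod_cast hcard
  calc ∑ m ∈ Icc 1 Z, |cs m k| / (m : ℝ) ^ 2
      = ∑ m ∈ Icc 1 (Q - 1), |cs m k| / (m : ℝ) ^ 2 + ∑ m ∈ (Icc 1 Z).filter (fun m => Q ≤ m), |cs m k| / (m : ℝ) ^ 2 := by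
        rw [← sum_union hdisj, ← hsplit]
    _ ≤ _ := by linarith

end Pool.Agent.LLO
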