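import Pool.Agent.LLO.GG

set_option autoImplicit false

/-! Module Gst: one scale.  `L = A P`, `c_p = sign(∑_n Phi p k n)`.  `FCH.dv` with `s = range X`, `X = wrd (sh X) (sy X) H`, `Y = yo X`, `S = pr A P`, `N p = p`,
`g = gg X L k c`, `B = 3` (`gg_word`: `L + pk ≤ AP(k+1) ≤ H`; `gg_mean`, `gg_bd`): `∑_a ∑_p g ≤ 3 X √(2 dfc |S|)`.  `gg_sum`:
`∑_p |∑_n Phi p k n| ≤ ∑_p ∑_a g + ∑_p 4Hp`, and `∑_p 4Hp ≤ ε X` for `X` large. -/

open Finset

namespace Pool.Agent.LLO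

open Pool.Agent.FCH (ent rst wrd)

theorem gst (A P H k : ℕ) (hA : 1 ≤ A) (hP : 1 ≤ P) (hH : A * P * (k + 1) ≤ H) (ε : ℝ) (hε : 0 < ε) :
    ∃ X0 : ℕ, ∀ X : ℕ, X0 ≤ X → ∑ p ∈ pr A P, |∑ n ∈ Ico X (2 * X), Phi p k n| ≤
      3 * X * √(2 * dfc X A P H * (pr A P).card) + ε * X := by
  set W : ℝ := ∑ p ∈ pr A P, 4 * (H : ℝ) * p with hW
  refine ⟨⌈W / ε⌉₊ + 1, fun X hX => ?_⟩
  have hX1 : 1 ≤ X := by omega
  have hXr : (0 : ℝ) < X := by exact_mod_cast hX1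
  have hWX : W ≤ ε * X := by
    have h1 : W / ε ≤ X := by
      refine (Nat.le_ceil _).trans ?_
      exact_mod_cast (by omega : ⌈W / ε⌉₊ ≤ X)
    rw [div_le_iff₀ hε] at h1
    linarith
  set L := A * P with hL
  have hL1 : 1 ≤ L := Nat.mul_pos hA hP
  set c : ℕ → ℝ := fun p => if 0 ≤ ∑ n ∈ Ico X (2 * X), Phi p k n then 1 else -1 with hc
  have hc1 : ∀ p, |c p| ≤ 1 := by
    intro p
    simp only [hc]
    split_ifs <;> simp
  have hcabs : ∀ p, c p * ∑ n ∈ Ico X (2 * X), Phi p k n = |∑ n ∈ Ico X (2 * X), Phi p k n| := by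
    intro p
    simp only [hc]
    split_ifs with h
    · rw [abs_of_nonneg h, one_mul]
    · rw [abs_of_neg (not_le.1 h)]
      ring
  have hpS : ∀ p ∈ pr A P, 2 ≤ p ∧ p ≤ L ∧ L + p * k ≤ H := by
    intro p hp
    obtain ⟨⟨h1, h2⟩, h3⟩ := mem_pr.1 hp
    refine ⟨h3.two_le, h2, ?_⟩
    have h4 : p * k ≤ L * k := Nat.mul_le_mul_right k h2
    have h5 : L * (k + 1) = L * k + L := by ring
    omega
  have hdv := Pool.Agent.FCH.dv (range X) ⟨0, mem_range.2 hX1⟩ (wrd (sh X) (sy X) H) (yo X) (pr A P) (fun p => p)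
    (fun p hp => by have := (hpS p hp).1; omega)
    (fun a _ p hp => Nat.mod_lt _ (by have := (hpS p hp).1; omega))
    (gg X L k c)
    (fun a _ a' _ h p hp v _ => gg_word X L k H c a a' p v (hpS p hp).2.2 h) 3 (by norm_num)
    (fun a _ p hp v _ => gg_bd X L k c hc1 a p v hL1 (hpS p hp).2.1 (by have := (hpS p hp).1; omega))
    (fun a _ p hp => gg_mean X L k c a p (by have := (hpS p hp).1; omega))
  rw [card_range, div_le_iff₀ hXr] at hdv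
  have h1 : ∑ p ∈ pr A P, |∑ n ∈ Ico X (2 * X), Phi p k n| ≤
      ∑ p ∈ pr A P, (∑ a ∈ range X, gg X L k c a p (yo X a p) + 4 * (H : ℝ) * p) := by
    refine sum_le_sum fun p hp => ?_
    have h2 := gg_sum X L k H c hc1 p hL1 (hpS p hp).2.1 (hpS p hp).1 (hpS p hp).2.2
    rw [hcabs] at h2
    have h3 := (abs_le.1 h2).1
    linarith
  rw [sum_add_distrib, sum_comm, ← hW] at h1
  have h3 : ∑ a ∈ range X, ∑ p ∈ pr A P, gg X L k c a p (yo X a p) ≤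
      3 * √(2 * dfc X A P H * (pr A P).card) * X := hdv
  calc ∑ p ∈ pr A P, |∑ n ∈ Ico X (2 * X), Phi p k n| ≤
        ∑ a ∈ range X, ∑ p ∈ pr A P, gg X L k c a p (yo X a p) + W := h1
    _ ≤ 3 * √(2 * dfc X A P H * (pr A P).card) * X + ε * X := add_le_add h3 hWX
    _ = _ := by ring

end Pool.Agent.LLO
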