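import Pool.Agent.LLO.Dyn

set_option autoImplicit false

/-! Module Prm: choice of the scale.  Copy from `FCH/Prm.lean`: `Prm_div` (divergence of `∑ 1/(a+jd)`), `Prm_pigeon`.  `P ≥ P0` of `GA`, `P ≥ P1`, `P ≥ 2`,
`H = A P (k+1)`, `H_j = A^j H`.  `|S_j|/H_j ≥ c A^jP/(log(A^jP) A^j A P (k+1)) = (c/(A(k+1)))/(log P + j log A)`, the sum over `j` diverges: choose `J ≥ 1` with
`(ε/2) ∑_{j<J} |S_j|/H_j ≥ 3`.  `m1 = max(X0 of dyn, 1)`; pigeonhole over `j` for the sum over `X ∈ [m1, Z]` with weights `1/X`. -/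

open Finset

namespace Pool.Agent.LLO

private theorem Prm_div (a d : ℝ) (ha : 0 < a) (hd : 0 < d) (K : ℝ) :
    ∃ J : ℕ, K ≤ ∑ j ∈ range J, 1 / (a + j * d) := by
  have h1 : Filter.Tendsto (fun n : ℕ => ∑ i ∈ range n, (1 : ℝ) / ((i : ℝ) + 1)) Filter.atTop Filter.atTop :=
    Real.tendsto_sum_range_one_div_nat_succ_atTop
  obtain ⟨J, hJ⟩ := (h1.eventually_ge_atTop (K * (a + d))).exists
  refine ⟨J, ?_⟩
  have h2 : (1 / (a + d)) * ∑ i ∈ range J, (1 : ℝ) / ((i : ℝ) + 1) ≤ ∑ j ∈ range J, 1 / (a + j * d) := by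
    rw [mul_sum]
    refine sum_le_sum fun i _ => ?_
    rw [one_div_mul_one_div]
    refine one_div_le_one_div_of_le (by positivity) ?_
    have : (0 : ℝ) ≤ i := Nat.cast_nonneg i
    nlinarith [mul_nonneg this ha.le]
  refine le_trans ?_ h2
  rw [one_div, ← div_eq_inv_mul, le_div_iff₀ (by positivity)]
  exact hJ

/-- pigeonhole -/
private theorem Prm_pigeon (J : ℕ) (hJ : 1 ≤ J) (I : Finset ℕ) (w : ℕ → ℝ) (hw : ∀ m ∈ I, 0 ≤ w m) (h s : ℕ → ℝ)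
    (hh : ∀ j, 0 < h j) (hs : ∀ j, 0 ≤ s j) (d : ℕ → ℕ → ℝ) (ε : ℝ) (hε : 0 < ε)
    (hd : ∀ m ∈ I, ∑ j ∈ range J, (1 / h j) * d m j ≤ (ε / 2) * ∑ j ∈ range J, s j / h j) :
    ∃ j < J, ∑ m ∈ I, w m * d m j ≤ ε * s j * ∑ m ∈ I, w m := by
  by_contra hcon
  push Not at hcon
  set W : ℝ := ∑ m ∈ I, w m with hW
  have hW0 : 0 ≤ W := sum_nonneg fun m hm => hw m hm
  have h1 : ∑ m ∈ I, w m * ∑ j ∈ range J, (1 / h j) * d m j ≤ W * ((ε / 2) * ∑ j ∈ range J, s j / h j) := by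
    rw [hW, sum_mul]
    exact sum_le_sum fun m hm => mul_le_mul_of_nonneg_left (hd m hm) (hw m hm)
  have h2 : ∑ m ∈ I, w m * ∑ j ∈ range J, (1 / h j) * d m j =
      ∑ j ∈ range J, (1 / h j) * ∑ m ∈ I, w m * d m j := by
    simp only [mul_sum]
    rw [sum_comm]
    refine sum_congr rfl fun j _ => sum_congr rfl fun m _ => ?_
    ring
  have h3 : ∑ j ∈ range J, (1 / h j) * (ε * s j * W) < ∑ j ∈ range J, (1 / h j) * ∑ m ∈ I, w m * d m j := by
    refine sum_lt_sum_of_nonempty ⟨0, mem_range.2 hJ⟩ fun j hj => ?_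
    exact mul_lt_mul_of_pos_left (hcon j (mem_range.1 hj)) (one_div_pos.2 (hh j))
  have h4 : ∑ j ∈ range J, (1 / h j) * (ε * s j * W) = ε * W * ∑ j ∈ range J, s j / h j := by
    rw [mul_sum]
    refine sum_congr rfl fun j _ => ?_
    ring
  rw [h2] at h1
  rw [h4] at h3
  have h5 : 0 ≤ ∑ j ∈ range J, s j / h j := sum_nonneg fun j _ => div_nonneg (hs j) (hh j).le
  have h6 : 0 ≤ ε * W * ∑ j ∈ range J, s j / h j := by positivity
  nlinarith

theorem prm (A : ℕ) (hA : GA A) (k : ℕ) (ε : ℝ) (hε : 0 < ε) (P1 : ℕ) : ∃ P J m1 : ℕ, P1 ≤ P ∧ 2 ≤ P ∧ 1 ≤ J ∧ 1 ≤ m1 ∧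
    (∀ j < J, 1 ≤ (pr A (A ^ j * P)).card) ∧
    ∀ Z : ℕ, m1 ≤ Z → ∃ j < J,
      ∑ X ∈ Icc m1 Z, (1 / (X : ℝ)) * dfc X A (A ^ j * P) (A * (A ^ j * P) * (k + 1)) ≤
        ε * (pr A (A ^ j * P)).card * ∑ X ∈ Icc m1 Z, (1 / (X : ℝ)) := by
  obtain ⟨hA2, c, hc, P0, hP0, hGA⟩ := hA
  have hA2' : (2 : ℝ) ≤ A := by exact_mod_cast hA2
  set P : ℕ := P1 + P0 + 2 with hP
  have hP2 : 2 ≤ P := by omega
  have hP2r : (2 : ℝ) ≤ P := by exact_mod_cast hP2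
  have hPpos : (0 : ℝ) < P := by linarith
  have hlog0 : 0 < Real.log P := Real.log_pos (by linarith)
  have hlogA : 0 < Real.log A := Real.log_pos (by linarith)
  set H : ℕ := A * P * (k + 1) with hH
  have hAP1 : 1 ≤ A * P := Nat.mul_pos (by omega) (by omega)
  have hH1 : 1 ≤ H := Nat.mul_pos hAP1 (by omega)
  have hHpos : (0 : ℝ) < H := by exact_mod_cast hH1
  set S : ℕ → Finset ℕ := fun j => pr A (A ^ j * P) with hS
  have hpow : ∀ j : ℕ, 1 ≤ A ^ j := fun j => Nat.one_le_pow _ _ (by omega)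
  have hPj : ∀ j : ℕ, P ≤ A ^ j * P := fun j => Nat.le_mul_of_pos_left _ (hpow j)
  have hScard : ∀ j : ℕ, c * ((A ^ j * P : ℕ) : ℝ) / Real.log ((A ^ j * P : ℕ) : ℝ) ≤ ((S j).card : ℝ) :=
    fun j => hGA _ ((by omega : P0 ≤ P).trans (hPj j))
  have hScard1 : ∀ j : ℕ, 1 ≤ (S j).card := by
    intro j
    have h2 : (2 : ℝ) ≤ ((A ^ j * P : ℕ) : ℝ) := by exact_mod_cast hP2.trans (hPj j)
    have h1 : 0 < c * ((A ^ j * P : ℕ) : ℝ) / Real.log ((A ^ j * P : ℕ) : ℝ) := by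
      have : 0 < Real.log ((A ^ j * P : ℕ) : ℝ) := Real.log_pos (by linarith)
      positivity
    have h3 := h1.trans_le (hScard j)
    exact_mod_cast h3
  have hHj : ∀ j : ℕ, ((A ^ j * H : ℕ) : ℝ) = (A : ℝ) ^ j * H := fun j => by push_cast; ring
  have hApow : ∀ j : ℕ, (0 : ℝ) < (A : ℝ) ^ j := fun j => by positivity
  set u : ℕ → ℝ := fun j => ((S j).card : ℝ) / ((A ^ j * H : ℕ) : ℝ) with hu
  have hu0 : ∀ j, 0 ≤ u j := fun j => by simp only [hu]; positivity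
  have hulow : ∀ j : ℕ, (c * P / H) * (1 / (Real.log P + j * Real.log A)) ≤ u j := by
    intro j
    simp only [hu]
    rw [hHj, le_div_iff₀ (mul_pos (hApow j) hHpos)]
    refine le_trans (le_of_eq ?_) (hScard j)
    have h1 : Real.log ((A ^ j * P : ℕ) : ℝ) = Real.log P + j * Real.log A := by
      push_cast
      rw [Real.log_mul (hApow j).ne' hPpos.ne', Real.log_pow]
      ring
    rw [h1]
    push_cast
    have h2 : 0 < Real.log P + j * Real.log A := by positivity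
    field_simp
  obtain ⟨J, hJ⟩ := Prm_div (Real.log P) (Real.log A) hlog0 hlogA ((6 / ε) / (c * P / H))
  have hcPH : 0 < c * P / H := by positivity
  rw [div_le_iff₀ hcPH] at hJ
  have hJK : 6 / ε ≤ ∑ j ∈ range J, u j := by
    refine hJ.trans ?_
    rw [mul_comm, mul_sum]
    exact sum_le_sum fun j _ => hulow j
  have hJ1 : 1 ≤ J := by
    rw [Nat.one_le_iff_ne_zero]
    intro h0
    rw [h0, range_zero, sum_empty] at hJK
    have : 0 < 6 / ε := by positivity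
    linarith
  obtain ⟨X0, hX0⟩ := dyn A P H J hA2 (by omega) hH1
  refine ⟨P, J, X0 + 1, by omega, hP2, hJ1, by omega, fun j _ => hScard1 j, fun Z hZ => ?_⟩
  have hHe : ∀ j : ℕ, A * (A ^ j * P) * (k + 1) = A ^ j * H := fun j => by rw [hH]; ring
  have hmain : ∀ X ∈ Icc (X0 + 1) Z, ∑ j ∈ range J, (1 / ((A ^ j * H : ℕ) : ℝ)) *
      dfc X A (A ^ j * P) (A * (A ^ j * P) * (k + 1)) ≤ (ε / 2) * ∑ j ∈ range J, u j := by
    intro X hX
    have hX1 : X0 + 1 ≤ X := (mem_Icc.1 hX).1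
    have h1 := hX0 X (by omega)
    have h2 : (3 : ℝ) ≤ (ε / 2) * ∑ j ∈ range J, u j := by
      have h3 : (3 : ℝ) = (ε / 2) * (6 / ε) := by field_simp; norm_num
      rw [h3]
      exact mul_le_mul_of_nonneg_left hJK (by positivity)
    simp only [hHe]
    exact h1.trans h2
  refine Prm_pigeon J hJ1 (Icc (X0 + 1) Z) (fun X => 1 / (X : ℝ)) (fun X _ => by positivity)
    (fun j => ((A ^ j * H : ℕ) : ℝ)) (fun j => ((S j).card : ℝ)) (fun j => ?_) (fun j => Nat.cast_nonneg _)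
    (fun X j => dfc X A (A ^ j * P) (A * (A ^ j * P) * (k + 1))) ε hε hmain
  rw [hHj]
  exact mul_pos (hApow j) hHpos

end Pool.Agent.LLO
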