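import Pool.Agent.LLO.Defs

set_option autoImplicit false

/-! Module Fej: finite Fourier analysis.  `c i j = ∑_{x∈[X,2X)} a(x+i)a(x+j)` (`i, j < D`), `N = 2D`,
`Φ(k) = ∑_x ‖∑_{j<D} a(x+j)e(kj/N)‖² = ∑_{i,j} c i j e(k(i-j)/N)` (real, `≥ 0`, `≤ η D² X`).
`∑_{k<N} e(kd/N) = N` if `N ∣ d`, `0` else (geometric sum, `d` integer).
`∑_k Φ(k) = N ∑_i c i i ≤ N D X`.  `∑_k Φ(k)² = ∑_k |Φ(k)|² = N ∑ {c i j c i' j' : i - j = i' - j'}` (`|(i-j)-(i'-j')| < 2D = N`)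
`= N ∑_{|d|<D} (∑_{i-j=d} c i j)² ≥ N ∑_{0≤d<D} (∑_{j<D-d} c (j+d) j)²`.  And `∑ Φ² ≤ η D² X ∑ Φ ≤ η D² X · N D X`.
(Alternative without the double sum: Parseval for `k ↦ Φ(k)`: put `γ(d) = ∑_{i-j=d} c i j`; then `Φ(k) = ∑_{|d|<D} γ(d)e(kd/N)`.) -/

open Finset

namespace Pool.Agent.LLO

private theorem fej_pow (t : ℝ) (k : ℕ) : e ((k:ℝ) * t) = e t ^ k := by
  induction k with
  | zero => simp [e_zero]
  | succ k ih =>
    rw [pow_succ, ← ih, ← e_add]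
    congr 1
    push_cast
    ring

private theorem fej_one (t : ℝ) (h : e t = 1) : ∃ n : ℤ, t = n := by
  unfold e at h
  rw [Complex.exp_eq_one_iff] at h
  obtain ⟨n, hn⟩ := h
  refine ⟨n, ?_⟩
  have hpi : (2 * Real.pi * Complex.I : ℂ) ≠ 0 := by
    simp [Real.pi_ne_zero]
  have h2 : (2 * Real.pi * Complex.I : ℂ) * (t:ℂ) = (2 * Real.pi * Complex.I : ℂ) * (n:ℂ) := by
    rw [hn]; ring
  have h3 := mul_left_cancel₀ hpi h2
  exact_mod_cast h3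

private theorem fej_orth (N : ℕ) (hN : 0 < N) (i j : ℕ) (hi : i < N) (hj : j < N) :
    ∑ k ∈ range N, e ((k:ℝ) * i / N) * (starRingEnd ℂ) (e ((k:ℝ) * j / N)) =
      if i = j then (N : ℂ) else 0 := by
  have hN0 : (N:ℝ) ≠ 0 := by exact_mod_cast hN.ne'
  have h1 : ∀ k ∈ range N, e ((k:ℝ) * i / N) * (starRingEnd ℂ) (e ((k:ℝ) * j / N)) =
      e (((i:ℝ) - j) / N) ^ k := by
    intro k _
    rw [← e_neg, ← e_add, ← fej_pow]
    congr 1
    ring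
  rw [sum_congr rfl h1]
  split_ifs with h
  · subst h
    simp [e_zero]
  · have hne : e (((i:ℝ) - j) / N) ≠ 1 := by
      intro h2
      obtain ⟨n, hn⟩ := fej_one _ h2
      rw [div_eq_iff hN0] at hn
      have h3 : (i:ℤ) - j = n * N := by exact_mod_cast hn
      have h4 : (N:ℤ) ∣ (i:ℤ) - j := ⟨n, by rw [h3]; ring⟩
      have h5 : ((i:ℤ) - j) = 0 := by
        apply Int.eq_zero_of_abs_lt_dvd h4
        rw [abs_lt]
        constructor <;> omega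
      apply h
      omega
    rw [geom_sum_eq hne]
    have h6 : e (((i:ℝ) - j) / N) ^ N = 1 := by
      rw [← fej_pow]
      have h7 : (N:ℝ) * (((i:ℝ) - j) / N) = ((((i:ℤ) - (j:ℤ)) : ℤ) : ℝ) := by
        push_cast
        field_simp
      rw [h7, e_int]
    rw [h6, sub_self, zero_div]

private theorem fej_ip (D X N : ℕ) (hN : N = 2 * D) (a : ℕ → ℝ) (d : ℕ) (hd : d < D) :
    ∑ k ∈ range N, (((∑ x ∈ Ico X (2 * X),
      ‖∑ j ∈ range D, (a (x + j) : ℂ) * e ((k : ℝ) * j / N)‖ ^ 2 : ℝ)) : ℂ) *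
        (starRingEnd ℂ) (e ((k:ℝ) * d / N)) =
      (N : ℂ) * ((∑ j ∈ range (D - d), ∑ x ∈ Ico X (2 * X), a (x + j + d) * a (x + j) : ℝ) : ℂ) := by
  have hNpos : 0 < N := by omega
  have h1 : ∀ k ∈ range N, (((∑ x ∈ Ico X (2 * X),
      ‖∑ j ∈ range D, (a (x + j) : ℂ) * e ((k : ℝ) * j / N)‖ ^ 2 : ℝ)) : ℂ) *
        (starRingEnd ℂ) (e ((k:ℝ) * d / N)) =
      ∑ x ∈ Ico X (2 * X), ∑ j ∈ range D, ∑ i ∈ range D, ((a (x + i) * a (x + j) : ℝ) : ℂ) *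
        (e ((k:ℝ) * i / N) * (starRingEnd ℂ) (e ((k:ℝ) * ((j + d : ℕ):ℝ) / N))) := by
    intro k _
    rw [Complex.ofReal_sum, sum_mul]
    refine sum_congr rfl fun x _ => ?_
    rw [Complex.ofReal_pow, ← Complex.mul_conj', map_sum, mul_sum, sum_mul]
    refine sum_congr rfl fun j _ => ?_
    rw [sum_mul, sum_mul]
    refine sum_congr rfl fun i _ => ?_
    have h2 : e ((k:ℝ) * ((j + d : ℕ):ℝ) / N) = e ((k:ℝ) * j / N) * e ((k:ℝ) * d / N) := by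
      rw [← e_add]
      congr 1
      push_cast
      ring
    rw [h2]
    simp only [map_mul, Complex.conj_ofReal]
    push_cast
    ring
  rw [sum_congr rfl h1]
  rw [sum_comm]
  have h3 : ∀ x ∈ Ico X (2 * X), ∑ k ∈ range N, ∑ j ∈ range D, ∑ i ∈ range D,
      ((a (x + i) * a (x + j) : ℝ) : ℂ) *
        (e ((k:ℝ) * i / N) * (starRingEnd ℂ) (e ((k:ℝ) * ((j + d : ℕ):ℝ) / N))) =
      (N:ℂ) * ∑ j ∈ range (D - d), ((a (x + j + d) * a (x + j) : ℝ) : ℂ) := by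
    intro x _
    rw [sum_comm]
    have h4 : ∀ j ∈ range D, ∑ k ∈ range N, ∑ i ∈ range D, ((a (x + i) * a (x + j) : ℝ) : ℂ) *
        (e ((k:ℝ) * i / N) * (starRingEnd ℂ) (e ((k:ℝ) * ((j + d : ℕ):ℝ) / N))) =
        if j + d < D then (N:ℂ) * ((a (x + j + d) * a (x + j) : ℝ) : ℂ) else 0 := by
      intro j hj
      rw [mem_range] at hj
      rw [sum_comm]
      have h5 : ∀ i ∈ range D, ∑ k ∈ range N, ((a (x + i) * a (x + j) : ℝ) : ℂ) *
          (e ((k:ℝ) * i / N) * (starRingEnd ℂ) (e ((k:ℝ) * ((j + d : ℕ):ℝ) / N))) =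
          if i = j + d then ((a (x + i) * a (x + j) : ℝ) : ℂ) * (N:ℂ) else 0 := by
        intro i hi
        rw [mem_range] at hi
        rw [← mul_sum, fej_orth N hNpos i (j + d) (by omega) (by omega)]
        split_ifs <;> simp
      rw [sum_congr rfl h5, sum_ite_eq']
      simp only [mem_range]
      split_ifs with h6
      · rw [add_assoc]; ring
      · rfl
    rw [sum_congr rfl h4, ← sum_filter, mul_sum]
    refine sum_congr ?_ fun _ _ => rfl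
    ext j
    simp only [mem_filter, mem_range]
    omega
  rw [sum_congr rfl h3, ← mul_sum]
  congr 1
  rw [sum_comm]
  push_cast
  rfl

private theorem fej_two (D N : ℕ) (hN : N = 2 * D) (g : ℕ → ℝ) :
    ∑ k ∈ range N, ‖∑ d ∈ range D, (g d : ℂ) * e ((k:ℝ) * d / N)‖ ^ 2 =
      N * ∑ d ∈ range D, g d ^ 2 := by
  rcases Nat.eq_zero_or_pos D with hD | hD
  · subst hD
    simp [hN]
  have hNpos : 0 < N := by omega
  have h1 : ∀ k ∈ range N, ((‖∑ d ∈ range D, (g d : ℂ) * e ((k:ℝ) * d / N)‖ ^ 2 : ℝ) : ℂ) =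
      ∑ j ∈ range D, ∑ i ∈ range D, ((g i * g j : ℝ) : ℂ) *
        (e ((k:ℝ) * i / N) * (starRingEnd ℂ) (e ((k:ℝ) * j / N))) := by
    intro k _
    rw [Complex.ofReal_pow, ← Complex.mul_conj', map_sum, mul_sum]
    refine sum_congr rfl fun j _ => ?_
    rw [sum_mul]
    refine sum_congr rfl fun i _ => ?_
    simp only [map_mul, Complex.conj_ofReal]
    push_cast
    ring
  have h2 : ((∑ k ∈ range N, ‖∑ d ∈ range D, (g d : ℂ) * e ((k:ℝ) * d / N)‖ ^ 2 : ℝ) : ℂ) =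
      ((N * ∑ d ∈ range D, g d ^ 2 : ℝ) : ℂ) := by
    rw [Complex.ofReal_sum, sum_congr rfl h1, sum_comm]
    have h4 : ∀ j ∈ range D, ∑ k ∈ range N, ∑ i ∈ range D, ((g i * g j : ℝ) : ℂ) *
        (e ((k:ℝ) * i / N) * (starRingEnd ℂ) (e ((k:ℝ) * j / N))) = (N:ℂ) * ((g j ^ 2 : ℝ) : ℂ) := by
      intro j hj
      have hj' := mem_range.1 hj
      rw [sum_comm]
      have h5 : ∀ i ∈ range D, ∑ k ∈ range N, ((g i * g j : ℝ) : ℂ) *
          (e ((k:ℝ) * i / N) * (starRingEnd ℂ) (e ((k:ℝ) * j / N))) =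
          if i = j then ((g i * g j : ℝ) : ℂ) * (N:ℂ) else 0 := by
        intro i hi
        rw [mem_range] at hi
        rw [← mul_sum, fej_orth N hNpos i j (by omega) (by omega)]
        split_ifs <;> simp
      rw [sum_congr rfl h5, sum_ite_eq', if_pos hj]
      push_cast
      ring
    rw [sum_congr rfl h4, ← mul_sum]
    push_cast
    rfl
  exact_mod_cast h2

theorem fej (D X : ℕ) (hD : 1 ≤ D) (a : ℕ → ℝ) (ha : ∀ n, |a n| ≤ 1) (η : ℝ)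
    (h : ∀ k < 2 * D, ∑ x ∈ Ico X (2 * X), ‖∑ j ∈ range D, (a (x + j) : ℂ) * e ((k : ℝ) * j / (2 * D))‖ ^ 2 ≤
      η * (D : ℝ) ^ 2 * X) :
    ∑ d ∈ range D, (∑ j ∈ range (D - d), ∑ x ∈ Ico X (2 * X), a (x + j + d) * a (x + j)) ^ 2 ≤
      η * (D : ℝ) ^ 3 * (X : ℝ) ^ 2 := by
  obtain ⟨N, hN⟩ : ∃ N, N = 2 * D := ⟨_, rfl⟩
  have hNr : (2 * (D:ℝ)) = (N:ℝ) := by rw [hN]; push_cast; ring
  rw [hNr] at h
  have hNpos : 0 < N := by omega
  have hNr0 : (0:ℝ) < N := by exact_mod_cast hNpos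
  obtain ⟨Φ, hΦ⟩ : ∃ Φ : ℕ → ℝ, Φ = fun k : ℕ => ∑ x ∈ Ico X (2 * X),
    ‖∑ j ∈ range D, (a (x + j) : ℂ) * e ((k : ℝ) * j / N)‖ ^ 2 := ⟨_, rfl⟩
  obtain ⟨γ, hγ⟩ : ∃ γ : ℕ → ℝ, γ = fun d : ℕ => ∑ j ∈ range (D - d), ∑ x ∈ Ico X (2 * X),
    a (x + j + d) * a (x + j) := ⟨_, rfl⟩
  have hΦ0 : ∀ k, 0 ≤ Φ k := by
    intro k
    rw [hΦ]
    positivity
  have hΦ1 : ∀ k ∈ range N, Φ k ≤ η * (D : ℝ) ^ 2 * X := by
    intro k hk
    rw [hΦ]
    exact h k (by rw [mem_range] at hk; omega)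
  have hip : ∀ d ∈ range D, ∑ k ∈ range N, (Φ k : ℂ) * (starRingEnd ℂ) (e ((k:ℝ) * d / N)) =
      (N:ℂ) * (γ d : ℂ) := by
    intro d hd
    have := fej_ip D X N hN a d (mem_range.1 hd)
    rw [hΦ, hγ]
    exact this
  have hM0 : 0 ≤ η * (D : ℝ) ^ 2 * X := (hΦ0 0).trans (hΦ1 0 (mem_range.2 hNpos))
  -- sum of Φ
  have hsum : ∑ k ∈ range N, Φ k ≤ N * (D * X) := by
    have h0 := hip 0 (mem_range.2 (by omega))
    have h1 : ((∑ k ∈ range N, Φ k : ℝ) : ℂ) = ((N * γ 0 : ℝ) : ℂ) := by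
      push_cast
      rw [← h0]
      refine sum_congr rfl fun k _ => ?_
      simp [e_zero]
    have h2 : ∑ k ∈ range N, Φ k = N * γ 0 := by exact_mod_cast h1
    rw [h2]
    refine mul_le_mul_of_nonneg_left ?_ hNr0.le
    rw [hγ]
    have h3 : ∀ j ∈ range (D - 0), ∑ x ∈ Ico X (2 * X), a (x + j + 0) * a (x + j) ≤ X := by
      intro j _
      have h4 : ∀ x ∈ Ico X (2 * X), a (x + j + 0) * a (x + j) ≤ 1 := by
        intro x _
        rw [add_zero]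
        have := ha (x + j)
        rw [← abs_mul_abs_self]
        nlinarith [abs_nonneg (a (x + j))]
      refine (sum_le_sum h4).trans ?_
      rw [sum_const, Nat.card_Ico, nsmul_eq_mul, mul_one]
      have : 2 * X - X = X := by omega
      rw [this]
    refine (sum_le_sum h3).trans ?_
    rw [sum_const, card_range, nsmul_eq_mul, Nat.sub_zero]
  -- sum of Φ^2
  have hsq : ∑ k ∈ range N, Φ k ^ 2 ≤ (η * (D : ℝ) ^ 2 * X) * (N * (D * X)) := by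
    calc ∑ k ∈ range N, Φ k ^ 2 ≤ ∑ k ∈ range N, (η * (D : ℝ) ^ 2 * X) * Φ k := by
          refine sum_le_sum fun k hk => ?_
          rw [pow_two]
          exact mul_le_mul_of_nonneg_right (hΦ1 k hk) (hΦ0 k)
      _ = (η * (D : ℝ) ^ 2 * X) * ∑ k ∈ range N, Φ k := by rw [mul_sum]
      _ ≤ _ := mul_le_mul_of_nonneg_left hsum hM0
  -- Bessel
  have hbes : (N:ℝ) * ∑ d ∈ range D, γ d ^ 2 ≤ ∑ k ∈ range N, Φ k ^ 2 := by
    have h1 : ∀ k ∈ range N, (0:ℝ) ≤ ‖(Φ k : ℂ) - ∑ d ∈ range D, (γ d : ℂ) * e ((k:ℝ) * d / N)‖ ^ 2 :=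
      fun k _ => by positivity
    have h2 := sum_nonneg h1
    have h3 : ∀ k ∈ range N, ‖(Φ k : ℂ) - ∑ d ∈ range D, (γ d : ℂ) * e ((k:ℝ) * d / N)‖ ^ 2 =
        Φ k ^ 2 + ‖∑ d ∈ range D, (γ d : ℂ) * e ((k:ℝ) * d / N)‖ ^ 2 -
          2 * ((Φ k : ℂ) * (starRingEnd ℂ) (∑ d ∈ range D, (γ d : ℂ) * e ((k:ℝ) * d / N))).re := by
      intro k _
      rw [← Complex.normSq_eq_norm_sq, Complex.normSq_sub, Complex.normSq_eq_norm_sq,
        Complex.normSq_eq_norm_sq, Complex.norm_real, Real.norm_eq_abs, sq_abs]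
    rw [sum_congr rfl h3, sum_sub_distrib, sum_add_distrib, fej_two D N hN γ] at h2
    have h4 : ∑ k ∈ range N, 2 * ((Φ k : ℂ) *
        (starRingEnd ℂ) (∑ d ∈ range D, (γ d : ℂ) * e ((k:ℝ) * d / N))).re =
        2 * (N * ∑ d ∈ range D, γ d ^ 2) := by
      rw [← mul_sum]
      congr 1
      have h5 : ∑ k ∈ range N, (Φ k : ℂ) *
        (starRingEnd ℂ) (∑ d ∈ range D, (γ d : ℂ) * e ((k:ℝ) * d / N)) =
        ((N * ∑ d ∈ range D, γ d ^ 2 : ℝ) : ℂ) := by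
        have h6 : ∀ k ∈ range N, (Φ k : ℂ) *
          (starRingEnd ℂ) (∑ d ∈ range D, (γ d : ℂ) * e ((k:ℝ) * d / N)) =
          ∑ d ∈ range D, (γ d : ℂ) * ((Φ k : ℂ) * (starRingEnd ℂ) (e ((k:ℝ) * d / N))) := by
          intro k _
          rw [map_sum, mul_sum]
          refine sum_congr rfl fun d _ => ?_
          rw [map_mul, Complex.conj_ofReal]
          ring
        rw [sum_congr rfl h6, sum_comm]
        push_cast
        rw [mul_sum]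
        refine sum_congr rfl fun d hd => ?_
        rw [← mul_sum, hip d hd]
        ring
      have h7 := congrArg Complex.re h5
      rw [Complex.re_sum, Complex.ofReal_re] at h7
      exact h7
    rw [h4] at h2
    linarith
  have hfin : (N:ℝ) * ∑ d ∈ range D, γ d ^ 2 ≤ (N:ℝ) * (η * (D : ℝ) ^ 3 * (X : ℝ) ^ 2) := by
    refine hbes.trans (hsq.trans (le_of_eq ?_))
    ring
  have := le_of_mul_le_mul_left hfin hNr0
  rw [hγ] at this
  exact this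

end Pool.Agent.LLO
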