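import Pool.Agent.LLO.Defs

set_option autoImplicit false

/-! Module Var: `S m x - S m (x+n) = ∑_{u ∈ U} ε_u λ(x+u)` with `U = {i, n+i : i < m}` (`2m` different offsets `< n + m ≤ 2n`), `ε_u = ±1`.
Expand the square and sum over `x`: the diagonal gives `2m X` (`λ² = 1`).  Off the diagonal, `u < v`:
`∑_{x ∈ [X,2X)} λ(x+u)λ(x+v) = ∑_{n' ∈ [X+u, 2X+u)} λ(n')λ(n'+v-u)` differs from `cs X (v-u)` by at most `2u ≤ 4n`,
and `1 ≤ v - u ≤ 2n`.  There are at most `4m²` terms.
`shift_cs` (the shift) is a lemma used by other modules too. -/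

open Finset

namespace Pool.Agent.LLO

private theorem Var_shift (g : ℕ → ℝ) (B : ℝ) (hg : ∀ n, |g n| ≤ B) (X u : ℕ) :
    |∑ x ∈ Ico X (2 * X), g (x + u) - ∑ x ∈ Ico X (2 * X), g x| ≤ 2 * u * B := by
  rw [sum_Ico_add' g X (2 * X) u, sum_Ico_eq_sub _ (by omega), sum_Ico_eq_sub _ (by omega)]
  have h1 : ∀ a : ℕ, |∑ k ∈ range (a + u), g k - ∑ k ∈ range a, g k| ≤ u * B := by
    intro a
    rw [← sum_Ico_eq_sub _ (Nat.le_add_right a u)]
    calc |∑ i ∈ Ico a (a + u), g i| ≤ ∑ i ∈ Ico a (a + u), |g i| := abs_sum_le_sum_abs _ _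
      _ ≤ ∑ i ∈ Ico a (a + u), B := sum_le_sum fun i _ => hg i
      _ = u * B := by simp
  have h2 := abs_le.1 (h1 X)
  have h3 := abs_le.1 (h1 (2 * X))
  rw [abs_le]
  constructor <;> linarith

theorem shift_cs (X u k : ℕ) : |∑ x ∈ Ico X (2 * X), lam (x + u) * lam (x + u + k) - cs X k| ≤ 2 * u := by
  have h0 : ∀ n, |lam n * lam (n + k)| = 1 := fun n => by rw [abs_mul, lam_abs, lam_abs, one_mul]
  exact Var_shift (fun n => lam n * lam (n + k)) 1 (fun n => (h0 n).le) X u |>.trans (by simp)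

theorem var (X m n : ℕ) (η : ℝ) (hm : 1 ≤ m) (hmn : m ≤ n)
    (h : ∀ k, 1 ≤ k → k ≤ 2 * n → |cs X k| ≤ η * X) :
    2 * m * X - 4 * (m : ℝ) ^ 2 * (η * X + 4 * n) ≤ ∑ x ∈ Ico X (2 * X), (S m x - S m (x + n)) ^ 2 := by
  have hB0 : 0 ≤ η * X := (abs_nonneg _).trans (h 1 le_rfl (by omega))
  set B : ℝ := η * X + 4 * n with hB
  have hBn : 0 ≤ B := by positivity
  set w : ℕ → ℝ := fun j => if j < m then 1 else -1 with hw
  set o : ℕ → ℕ := fun j => if j < m then j else n + (j - m) with ho
  have hoM : ∀ j l, j < l → l < 2 * m → o j < o l := by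
    intro j l hjl hl
    simp only [ho]
    split_ifs <;> omega
  have ho2 : ∀ j, j < 2 * m → o j < 2 * n := by
    intro j hj
    simp only [ho]
    split_ifs <;> omega
  have hww : ∀ j l, w j * w l = 1 ∨ w j * w l = -1 := by
    intro j l
    simp only [hw]
    split_ifs <;> norm_num
  have hS : ∀ x, S m x - S m (x + n) = ∑ j ∈ range (2 * m), w j * lam (x + o j) := by
    intro x
    have h1 : S m x = ∑ j ∈ range m, lam (x + j) := by
      unfold S
      rw [sum_Ico_eq_sum_range]
      simp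
    have h2 : S m (x + n) = ∑ j ∈ range m, lam (x + n + j) := by
      unfold S
      rw [sum_Ico_eq_sum_range]
      simp
    rw [two_mul, sum_range_add, h1, h2, sub_eq_add_neg, ← sum_neg_distrib]
    congr 1
    · refine sum_congr rfl fun j hj => ?_
      have := mem_range.1 hj
      simp only [hw, ho, if_pos this, one_mul]
    · refine sum_congr rfl fun j hj => ?_
      have h3 : ¬ m + j < m := by omega
      simp only [hw, ho, if_neg h3, Nat.add_sub_cancel_left]
      rw [← add_assoc]; ring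
  set C : ℕ → ℕ → ℝ := fun j l => ∑ x ∈ Ico X (2 * X), lam (x + o j) * lam (x + o l) with hC
  have hcomm : ∀ j l, C j l = C l j := by
    intro j l
    simp only [hC]
    exact sum_congr rfl fun x _ => mul_comm _ _
  have hCd : ∀ j, C j j = X := by
    intro j
    simp only [hC, lam_sq]
    simp [two_mul]
  have hClt : ∀ j l, j < l → l < 2 * m → |C j l| ≤ B := by
    intro j l hjl hl
    obtain ⟨k, hk⟩ := Nat.exists_eq_add_of_le (hoM j l hjl hl).le
    have h1 := shift_cs X (o j) k
    have h2 := h k (by have := hoM j l hjl hl; omega) (by have := ho2 l hl; omega)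
    have h3 : C j l = ∑ x ∈ Ico X (2 * X), lam (x + o j) * lam (x + o j + k) := by
      simp only [hC]
      refine sum_congr rfl fun x _ => ?_
      rw [hk, add_assoc]
    rw [← h3] at h1
    have h4 : ((o j : ℕ) : ℝ) ≤ 2 * n := by
      have := ho2 j (by omega)
      exact_mod_cast this.le
    have h5 := abs_le.1 h1
    have h6 := abs_le.1 h2
    rw [abs_le]
    constructor <;> linarith
  have hCne : ∀ j l, j < 2 * m → l < 2 * m → j ≠ l → |C j l| ≤ B := by
    intro j l hj hl hne
    rcases lt_or_gt_of_ne hne with h1 | h1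
    · exact hClt j l h1 hl
    · rw [hcomm]; exact hClt l j h1 hj
  have hexp : ∑ x ∈ Ico X (2 * X), (S m x - S m (x + n)) ^ 2 =
      ∑ j ∈ range (2 * m), ∑ l ∈ range (2 * m), w j * w l * C j l := by
    have h1 : ∀ x ∈ Ico X (2 * X), (S m x - S m (x + n)) ^ 2 =
        ∑ j ∈ range (2 * m), ∑ l ∈ range (2 * m), w j * w l * (lam (x + o j) * lam (x + o l)) := by
      intro x _
      rw [hS, sq, sum_mul_sum]
      exact sum_congr rfl fun j _ => sum_congr rfl fun l _ => by ring
    rw [sum_congr rfl h1, sum_comm]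
    refine sum_congr rfl fun j _ => ?_
    rw [sum_comm]
    refine sum_congr rfl fun l _ => ?_
    simp only [hC]
    rw [mul_sum]
  rw [hexp]
  have hterm : ∀ j ∈ range (2 * m), ∀ l ∈ range (2 * m),
      (if j = l then (X + B : ℝ) else 0) - B ≤ w j * w l * C j l := by
    intro j hj l hl
    by_cases hjl : j = l
    · subst hjl
      rw [if_pos rfl, hCd]
      have h1 : w j * w j = 1 := by
        simp only [hw]
        split_ifs <;> norm_num
      rw [h1]; linarith
    · rw [if_neg hjl]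
      have h1 := abs_le.1 (hCne j l (mem_range.1 hj) (mem_range.1 hl) hjl)
      rcases hww j l with h2 | h2 <;> rw [h2] <;> linarith
  have hsum : ∑ j ∈ range (2 * m), ∑ l ∈ range (2 * m), ((if j = l then (X + B : ℝ) else 0) - B) ≤
      ∑ j ∈ range (2 * m), ∑ l ∈ range (2 * m), w j * w l * C j l :=
    sum_le_sum fun j hj => sum_le_sum fun l hl => hterm j hj l hl
  have hval : ∑ j ∈ range (2 * m), ∑ l ∈ range (2 * m), ((if j = l then (X + B : ℝ) else 0) - B) =
      2 * m * (X + B) - 4 * (m : ℝ) ^ 2 * B := by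
    have h1 : ∀ j ∈ range (2 * m), ∑ l ∈ range (2 * m), ((if j = l then (X + B : ℝ) else 0) - B) =
        (X + B) - 2 * m * B := by
      intro j hj
      rw [sum_sub_distrib, sum_ite_eq, if_pos hj, sum_const, card_range, nsmul_eq_mul]
      push_cast; ring
    rw [sum_congr rfl h1, sum_const, card_range, nsmul_eq_mul]
    push_cast; ring
  rw [hval] at hsum
  have : 0 ≤ 2 * (m : ℝ) * B := by positivity
  linarith

end Pool.Agent.LLO
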