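import Pool.Agent.LLO.SupA
import Pool.Agent.LLO.Fej
import Pool.Agent.LLO.Var

set_option autoImplicit false

/-! Module CorSq: mean square of the correlations.  `supA` with `η' = η/64` and the window length `2D`, all `α = k/(4D)`:
`∑_{j<2D} λ(x+j)e(kj/(4D))` has the absolute value of `V (2D) (k/(4D)) x` (factor `e(kx/(4D))`).  `fej` for `2D`, `a = lam`:
`∑_{d<2D} (∑_{j<2D-d} ∑_x λ(x+j+d)λ(x+j))² ≤ η' 8D³ X²`.  For `1 ≤ d ≤ D` the inner sum is `(2D-d) cs X d + O(∑_j 2j)` (`shift_cs`), error `≤ 4D²`; `2D - d ≥ D`: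
`D² (cs X d)² ≤ 2 (inner)² + 32 D⁴`.  So `∑_{d≤D} (cs X d)² ≤ 16 η' D X² + 32 D³ ≤ η D X²` for `X` large. -/

open Finset

namespace Pool.Agent.LLO

theorem CorSq_V (D : ℕ) (α : ℝ) (x : ℕ) : ‖V D α x‖ = ‖∑ j ∈ range D, (lam (x + j) : ℂ) * e (j * α)‖ := by
  unfold V
  rw [sum_Ico_eq_sum_range]
  have h1 : ∀ j ∈ range (x + D - x), (lam (x + j) : ℂ) * e (((x + j : ℕ) : ℝ) * α) =
      e (x * α) * ((lam (x + j) : ℂ) * e (j * α)) := by
    intro j _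
    have e1 : (((x + j : ℕ) : ℝ) * α) = x * α + j * α := by push_cast; ring
    rw [e1, e_add]
    ring
  rw [sum_congr rfl h1, ← mul_sum, norm_mul, e_norm, one_mul, Nat.add_sub_cancel_left]

theorem CorSq_sum (n : ℕ) : ∑ j ∈ range n, 2 * (j : ℝ) ≤ (n : ℝ) ^ 2 := by
  induction n with
  | zero => simp
  | succ n ih =>
    rw [sum_range_succ]
    push_cast
    nlinarith

theorem corSq (η : ℝ) (hη : 0 < η) : ∃ D0 : ℕ, ∀ D : ℕ, D0 ≤ D → ∃ X0 : ℕ, ∀ X : ℕ, X0 ≤ X →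
    ∑ d ∈ Icc 1 D, (cs X d) ^ 2 ≤ η * D * (X : ℝ) ^ 2 := by
  obtain ⟨D1, hD1⟩ := supA (η / 64) (by positivity)
  refine ⟨max 1 D1, fun D hD => ?_⟩
  have hDa : 1 ≤ D := (le_max_left _ _).trans hD
  have hDb : D1 ≤ D := (le_max_right _ _).trans hD
  have hDr : (1 : ℝ) ≤ D := by exact_mod_cast hDa
  obtain ⟨X1, hX1⟩ := hD1 (2 * D) (by omega)
  refine ⟨max X1 ⌈(D : ℝ) * (64 / η + 1)⌉₊, fun X hX => ?_⟩
  have hXa : X1 ≤ X := (le_max_left _ _).trans hX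
  have hXb : (D : ℝ) * (64 / η + 1) ≤ X := Nat.ceil_le.1 ((le_max_right _ _).trans hX)
  have hf := fej (2 * D) X (by omega) lam (fun n => (lam_abs n).le) (η / 64) (by
    intro k _
    have h1 := hX1 X hXa ((k : ℝ) / (2 * ((2 * D : ℕ) : ℝ)))
    refine le_trans (le_of_eq ?_) h1
    refine sum_congr rfl fun x _ => ?_
    rw [CorSq_V]
    congr 2
    refine sum_congr rfl fun j _ => ?_
    congr 2
    ring)
  set inn : ℕ → ℝ := fun d => ∑ j ∈ range (2 * D - d), ∑ x ∈ Ico X (2 * X), lam (x + j + d) * lam (x + j) with hinn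
  have hkey : ∀ d ∈ Icc 1 D, (D : ℝ) ^ 2 * (cs X d) ^ 2 ≤ 2 * (inn d) ^ 2 + 32 * (D : ℝ) ^ 4 := by
    intro d hd
    rw [mem_Icc] at hd
    have h1 : |inn d - (2 * D - d : ℕ) * cs X d| ≤ 4 * (D : ℝ) ^ 2 := by
      have e1 : inn d - (2 * D - d : ℕ) * cs X d =
          ∑ j ∈ range (2 * D - d), (∑ x ∈ Ico X (2 * X), lam (x + j) * lam (x + j + d) - cs X d) := by
        rw [sum_sub_distrib, sum_const, card_range, nsmul_eq_mul, hinn]
        congr 1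
        refine sum_congr rfl fun j _ => sum_congr rfl fun x _ => mul_comm _ _
      rw [e1]
      refine (abs_sum_le_sum_abs _ _).trans ?_
      refine (sum_le_sum (fun j _ => shift_cs X j d)).trans ?_
      refine (CorSq_sum (2 * D - d)).trans ?_
      have h2 : ((2 * D - d : ℕ) : ℝ) ≤ 2 * D := by exact_mod_cast Nat.sub_le (2 * D) d
      have h2' : (0 : ℝ) ≤ ((2 * D - d : ℕ) : ℝ) := Nat.cast_nonneg _
      nlinarith
    have h3 : (D : ℝ) * |cs X d| ≤ |inn d| + 4 * (D : ℝ) ^ 2 := by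
      have h4 : (D : ℝ) ≤ ((2 * D - d : ℕ) : ℝ) := by exact_mod_cast (by omega : D ≤ 2 * D - d)
      have h5 : (D : ℝ) * |cs X d| ≤ |((2 * D - d : ℕ) : ℝ) * cs X d| := by
        rw [abs_mul, abs_of_nonneg (Nat.cast_nonneg (α := ℝ) (2 * D - d))]
        exact mul_le_mul_of_nonneg_right h4 (abs_nonneg _)
      have h6 : |((2 * D - d : ℕ) : ℝ) * cs X d| ≤ |inn d| + |inn d - (2 * D - d : ℕ) * cs X d| := by
        have := abs_sub_abs_le_abs_sub (((2 * D - d : ℕ) : ℝ) * cs X d) (inn d)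
        rw [abs_sub_comm] at this
        linarith
      linarith
    have h7 : ((D : ℝ) * |cs X d|) ^ 2 ≤ (|inn d| + 4 * (D : ℝ) ^ 2) ^ 2 := pow_le_pow_left₀ (by positivity) h3 2
    rw [mul_pow, sq_abs] at h7
    have h8 : |inn d| ^ 2 = (inn d) ^ 2 := sq_abs _
    nlinarith [sq_nonneg (|inn d| - 4 * (D : ℝ) ^ 2)]
  have hsub : ∑ d ∈ Icc 1 D, (inn d) ^ 2 ≤ ∑ d ∈ range (2 * D), (inn d) ^ 2 := by
    apply sum_le_sum_of_subset_of_nonneg
    · intro d hd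
      rw [mem_Icc] at hd
      rw [mem_range]
      omega
    · intro _ _ _
      positivity
  have hs := sum_le_sum hkey
  rw [← mul_sum, sum_add_distrib, ← mul_sum, sum_const, Nat.card_Icc, nsmul_eq_mul, Nat.add_sub_cancel] at hs
  have hf' : ∑ d ∈ range (2 * D), (inn d) ^ 2 ≤ η / 64 * (2 * D) ^ 3 * (X : ℝ) ^ 2 := by
    refine hf.trans (le_of_eq ?_)
    push_cast
    ring
  -- conclusion
  have hDX : 64 * (D : ℝ) ^ 2 ≤ η * (X : ℝ) ^ 2 := by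
    have h1 : (D : ℝ) ^ 2 * (64 / η + 1) ^ 2 ≤ (X : ℝ) ^ 2 := by
      rw [← mul_pow]
      exact pow_le_pow_left₀ (by positivity) hXb 2
    have h2 : 64 / η ≤ (64 / η + 1) ^ 2 := by
      have : 0 < 64 / η := by positivity
      nlinarith
    have h3 : (D : ℝ) ^ 2 * (64 / η) ≤ (X : ℝ) ^ 2 :=
      (mul_le_mul_of_nonneg_left h2 (by positivity)).trans h1
    calc 64 * (D : ℝ) ^ 2 = η * ((D : ℝ) ^ 2 * (64 / η)) := by field_simp
      _ ≤ η * (X : ℝ) ^ 2 := mul_le_mul_of_nonneg_left h3 hη.le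
  have hD2 : 0 < (D : ℝ) ^ 2 := by positivity
  have hfin : (D : ℝ) ^ 2 * ∑ d ∈ Icc 1 D, (cs X d) ^ 2 ≤ (D : ℝ) ^ 2 * (η * D * (X : ℝ) ^ 2) := by
    have h9 : (D : ℝ) ^ 3 * (64 * (D : ℝ) ^ 2) ≤ (D : ℝ) ^ 3 * (η * (X : ℝ) ^ 2) :=
      mul_le_mul_of_nonneg_left hDX (by positivity)
    have h10 : 0 ≤ (D : ℝ) ^ 3 * (η * (X : ℝ) ^ 2) := by positivity
    nlinarith
  exact le_of_mul_le_mul_left hfin hD2

end Pool.Agent.LLO
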