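import Mathlib

set_option autoImplicit false

/-!
# MP_f7161d_nt (Liouville sums in short intervals): definitions
THEOREM.  For `X` outside a set of logarithmic density zero and `ω(X) → ∞`:
`I(X,H) + I(X,H+t) ≥ (1/10) log t · X` for all real `H ≥ 0`, `1 ≤ t ≤ ω(X)`.
Route: (1) `∑_{m ≤ Z} |cs m k| / m² = o(log Z)` for every fixed `k ≥ 1` (`avg`; Matomäki-Radziwiłł for `λχ`, minor arcs by
Turán-Kubilius, Fejér-Parseval, sieve, `TT*`, entropy decrement), (2) truncated second moments (`trunc`, `lone`), (3) `log`-density sets.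
-/

open Finset

namespace Pool.Agent.LLO

/-- Liouville's function -/
def lam (n : ℕ) : ℝ := (-1) ^ (ArithmeticFunction.cardFactors n)

theorem lam_or (n : ℕ) : lam n = 1 ∨ lam n = -1 := by
  unfold lam
  exact neg_one_pow_eq_or ℝ _

theorem lam_abs (n : ℕ) : |lam n| = 1 := by
  rcases lam_or n with h | h <;> rw [h] <;> simp

theorem lam_sq (n : ℕ) : lam n * lam n = 1 := by
  rcases lam_or n with h | h <;> rw [h] <;> norm_num

theorem lam_mul {m n : ℕ} (hm : 0 < m) (hn : 0 < n) : lam (m * n) = lam m * lam n := by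
  unfold lam
  rw [ArithmeticFunction.cardFactors_mul hm.ne' hn.ne', pow_add]

theorem lam_prime {p : ℕ} (hp : p.Prime) : lam p = -1 := by
  unfold lam
  rw [ArithmeticFunction.cardFactors_apply_prime hp, pow_one]

theorem lam_prime_mul {p m : ℕ} (hp : p.Prime) (hm : 0 < m) : lam (p * m) = -lam m := by
  rw [lam_mul hp.pos hm, lam_prime hp]; ring

theorem lam_norm (n : ℕ) : ‖(lam n : ℂ)‖ = 1 := by
  rw [Complex.norm_real, Real.norm_eq_abs, lam_abs]

/-- `e(t) = exp(2 π i t)` -/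
noncomputable def e (t : ℝ) : ℂ := Complex.exp (2 * Real.pi * Complex.I * t)

theorem e_add (s t : ℝ) : e (s + t) = e s * e t := by
  unfold e
  rw [← Complex.exp_add]
  congr 1
  push_cast
  ring

theorem e_zero : e 0 = 1 := by simp [e]

theorem e_norm (t : ℝ) : ‖e t‖ = 1 := by
  unfold e
  rw [Complex.norm_exp]
  simp

theorem e_int (n : ℤ) : e n = 1 := by
  unfold e
  rw [Complex.exp_eq_one_iff]
  exact ⟨n, by push_cast; ring⟩

theorem e_nat (n : ℕ) : e n = 1 := by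
  have := e_int n
  simpa using this

theorem e_neg (t : ℝ) : e (-t) = (starRingEnd ℂ) (e t) := by
  unfold e
  rw [← Complex.exp_conj]
  congr 1
  simp only [map_mul, Complex.conj_ofReal, Complex.conj_I, Complex.ofReal_neg]
  rw [Complex.conj_ofNat]
  ring

/-- window sum of length `n` starting at `x` -/
def S (n x : ℕ) : ℝ := ∑ i ∈ Ico x (x + n), lam i

/-- two-point correlation sum over `[X, 2X)` -/
def cs (X k : ℕ) : ℝ := ∑ n ∈ Ico X (2 * X), lam n * lam (n + k)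

/-- window exponential sum -/
noncomputable def V (D : ℕ) (α : ℝ) (x : ℕ) : ℂ := ∑ n ∈ Ico x (x + D), (lam n : ℂ) * e (n * α)

/-- primes in `(P, A P]` -/
def pr (A P : ℕ) : Finset ℕ := (Ioc P (A * P)).filter Nat.Prime

theorem mem_pr {A P p : ℕ} : p ∈ pr A P ↔ (P < p ∧ p ≤ A * P) ∧ p.Prime := by
  unfold pr
  rw [mem_filter, mem_Ioc]

/-- `A` is a ratio for which the sets `pr A P` are not too small -/
def GA (A : ℕ) : Prop := 2 ≤ A ∧ ∃ c : ℝ, 0 < c ∧ ∃ P0 : ℕ, 2 ≤ P0 ∧ ∀ P : ℕ, P0 ≤ P →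
  c * P / Real.log P ≤ ((pr A P).card : ℝ)

/-- number of pairs of elements of `pr A P` with difference `d` -/
def rr (A P d : ℕ) : ℕ := ((pr A P).filter (fun p => p + d ∈ pr A P)).card

/-- singular series factor -/
noncomputable def F (d : ℕ) : ℝ := ∏ l ∈ d.primeFactors, (1 + 6 / (l : ℝ))

/-- the mean square of the window sums of `f` is small -/
def Sm (f : ℕ → ℂ) : Prop := ∀ η : ℝ, 0 < η → ∃ h0 : ℕ, ∀ h : ℕ, h0 ≤ h → ∃ X0 : ℕ, ∀ X : ℕ, X0 ≤ X →
  ∑ x ∈ Ico X (2 * X), ‖∑ n ∈ Ico x (x + h), f n‖ ^ 2 ≤ η * (h : ℝ) ^ 2 * X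

/-- logarithmic density zero -/
def LZ (E : Set ℕ) : Prop := ∀ ε : ℝ, 0 < ε → ∃ Z0 : ℕ, ∀ Z : ℕ, Z0 ≤ Z → open Classical in
  ∑ m ∈ (Icc 1 Z).filter (fun m => m ∈ E), 1 / (m : ℝ) ≤ ε * Real.log Z

/-- the integral `I(X, H)` -/
noncomputable def II (X H : ℝ) : ℝ := ∫ x in X..(2 * X), |∑ n ∈ Icc ⌈x⌉₊ ⌊x + H⌋₊, lam n|

end Pool.Agent.LLO
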