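import Pool.Agent.LLO.Crt
import Pool.Agent.LLO.PrA

set_option autoImplicit false

/-! Module Dyn: entropy decrement.  `FCH.decr` with `s = range X`, `T = sh X`, `f = sy X`, `Y = yo X`, `S j = pr A (A^j P)` (disjoint: `pr_disj`), `N p = p`,
`H0 = H`.  Hypothesis `hU`: if `sy X a = sy X a'` and `yo X a p = yo X a' p`: if `a+1 = X` then `a' + 1 = X`, so `a = a'`; otherwise
`sh X a = a+1`, `sh X a' = a'+1` and `(X+a+1) % p` is determined by `(X+a) % p` (`Nat.ModEq`).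
`ent s (sy X) ≤ log 4 ≤ 3/2` (`FCH.ent_le_log`, `Bool × Bool` has 4 elements).  The second term of `decr` is `≤ (∏_{p∈U} p)/X` (`crt`),
`U = ⋃_{j<J} S j`, times `∑_j 1/(A^jH) ≤ J`: it is `≤ 1` for `X ≥ J∏p + 1`. -/

open Finset

namespace Pool.Agent.LLO

open Pool.Agent.FCH (ent rst wrd)

private theorem Dyn_ent (X : ℕ) : ent (range X) (sy X) ≤ 3 / 2 := by
  classical
  have h1 := Pool.Agent.FCH.ent_le_log (range X) (sy X) 4 (by norm_num)
    ((Finset.card_le_univ _).trans (by simp))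
  have h2 : Real.log ((4 : ℕ) : ℝ) = 2 * Real.log 2 := by
    rw [show ((4 : ℕ) : ℝ) = (2 : ℝ) ^ 2 by norm_num, Real.log_pow]
    norm_num
  have h3 := Real.log_two_lt_d9
  linarith

theorem dyn (A P H J : ℕ) (hA : 2 ≤ A) (hP : 1 ≤ P) (hH : 1 ≤ H) : ∃ X0 : ℕ, ∀ X : ℕ, X0 ≤ X →
    ∑ j ∈ range J, (1 / ((A ^ j * H : ℕ) : ℝ)) * dfc X A (A ^ j * P) (A ^ j * H) ≤ 3 := by
  have hA0 : 0 < A := by omega
  set U := (range J).biUnion (fun j => pr A (A ^ j * P)) with hUdef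
  have hUp : ∀ p ∈ U, p.Prime := by
    intro p hp
    rw [hUdef, Finset.mem_biUnion] at hp
    obtain ⟨j, -, hj⟩ := hp
    exact (mem_pr.1 hj).2
  set M : ℕ := ∏ p ∈ U, p with hM
  refine ⟨J * M + 1, fun X hX => ?_⟩
  have hX1 : 1 ≤ X := by omega
  have hXr : (0 : ℝ) < X := by exact_mod_cast hX1
  have hsh : ∀ a, a < X → sh X a < X := by
    intro a ha
    unfold sh
    split_ifs <;> omega
  have hmain := Pool.Agent.FCH.decr (range X) ⟨0, Finset.mem_range.2 (by omega)⟩ (sh X)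
    (fun a ha => Finset.mem_range.2 (hsh a (Finset.mem_range.1 ha)))
    (by
      intro a ha a' ha' h
      rw [Finset.mem_range] at ha ha'
      unfold sh at h
      split_ifs at h <;> omega)
    (sy X) (yo X) J (fun j => pr A (A ^ j * P)) (pr_disj A P hA) (fun p => p)
    (fun j _ p hp => (mem_pr.1 hp).2.one_lt.le)
    (fun a _ j _ p hp => Nat.mod_lt _ (mem_pr.1 hp).2.pos)
    (by
      intro j _ p _ a ha a' ha' hf hy
      rw [Finset.mem_range] at ha ha'
      have h1 : decide (a + 1 = X) = decide (a' + 1 = X) := congrArg Prod.snd hf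
      have h2 : (a + 1 = X) ↔ (a' + 1 = X) := decide_eq_decide.1 h1
      by_cases h3 : a + 1 = X
      · have h4 := h2.1 h3
        have h5 : a = a' := by omega
        rw [h5]
      · have h4 : ¬ (a' + 1 = X) := fun h => h3 (h2.2 h)
        have h5 : sh X a = a + 1 := by
          unfold sh
          rw [if_pos (by omega)]
        have h6 : sh X a' = a' + 1 := by
          unfold sh
          rw [if_pos (by omega)]
        rw [h5, h6]
        have h7 : X + a ≡ X + a' [MOD p] := hy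
        have h8 : X + a + 1 ≡ X + a' + 1 [MOD p] := h7.add_right 1
        exact h8)
    A H hA0 hH
  have hD := crt X hX1 U hUp
  have hMc : (∏ p ∈ U, (p : ℝ)) = (M : ℝ) := by rw [hM]; push_cast; rfl
  rw [hMc] at hD
  set D : ℝ := ∑ p ∈ U, Real.log p - ent (range X) (fun a => rst U (yo X a)) with hDdef
  have hw : ∀ j ∈ range J, (0 : ℝ) ≤ 1 / ((A ^ j * H : ℕ) : ℝ) ∧
      1 / ((A ^ j * H : ℕ) : ℝ) ≤ 1 := by
    intro j _
    have h1 : 1 ≤ A ^ j * H := Nat.mul_pos (Nat.pow_pos hA0) hH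
    have h2 : (1 : ℝ) ≤ ((A ^ j * H : ℕ) : ℝ) := by exact_mod_cast h1
    refine ⟨by positivity, ?_⟩
    rw [div_le_one (by linarith)]
    exact h2
  have hsum : ∑ j ∈ range J, (1 / ((A ^ j * H : ℕ) : ℝ)) * dfc X A (A ^ j * P) (A ^ j * H) -
      (∑ j ∈ range J, (1 / ((A ^ j * H : ℕ) : ℝ))) * D ≤ ent (range X) (sy X) := by
    rw [Finset.sum_mul, ← Finset.sum_sub_distrib]
    refine le_trans (le_of_eq ?_) hmain
    refine Finset.sum_congr rfl fun j _ => ?_
    rw [← mul_sub]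
    rfl
  have hW1 : ∑ j ∈ range J, (1 / ((A ^ j * H : ℕ) : ℝ)) ≤ J := by
    refine (Finset.sum_le_sum fun j hj => (hw j hj).2).trans ?_
    rw [Finset.sum_const, Finset.card_range, nsmul_eq_mul, mul_one]
  have hW0 : 0 ≤ ∑ j ∈ range J, (1 / ((A ^ j * H : ℕ) : ℝ)) :=
    Finset.sum_nonneg fun j hj => (hw j hj).1
  have hMX : (M : ℝ) / X * J ≤ 1 := by
    rw [div_mul_eq_mul_div, div_le_one hXr]
    have h1 : M * J ≤ X := by
      rw [mul_comm]
      omega
    exact_mod_cast h1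
  have h1 : (∑ j ∈ range J, (1 / ((A ^ j * H : ℕ) : ℝ))) * D ≤ 1 := by
    have hM0 : (0 : ℝ) ≤ (M : ℝ) / X := by positivity
    calc (∑ j ∈ range J, (1 / ((A ^ j * H : ℕ) : ℝ))) * D
        ≤ (∑ j ∈ range J, (1 / ((A ^ j * H : ℕ) : ℝ))) * ((M : ℝ) / X) :=
          mul_le_mul_of_nonneg_left hD hW0
      _ ≤ J * ((M : ℝ) / X) := mul_le_mul_of_nonneg_right hW1 hM0
      _ = (M : ℝ) / X * J := mul_comm _ _
      _ ≤ 1 := hMX
  have h2 := Dyn_ent X
  linarith

end Pool.Agent.LLO
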