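import Pool.Agent.LLO.Defs

set_option autoImplicit false

/-! Module FAv: `F(d)² = ∏_{l∣d} (1 + 12/l + 36/l²) ≤ ∏_{l∣d}(1 + 30/l) = ∑_{e ∣ d, e squarefree} 30^{ω(e)}/e` (product over `d.primeFactors`, expand:
`Finset.prod_one_add`/`prod_add_one`, sum over subsets `T ⊆ d.primeFactors` of `∏_{l∈T} 30/l`).  Sum over `d ≤ M`: exchange:
`≤ ∑_{T ⊆ primes ≤ M} (∏_{l∈T} 30/l) · #{d ≤ M : ∏_T l ∣ d} ≤ M ∑_T ∏_{l∈T} 30/l² = M ∏_{l ≤ M}(1+30/l²) ≤ M exp(30 ∑ 1/l²) ≤ M exp(60)`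
(`∑_{l≥2} 1/l² ≤ 1`, so even `exp 30`). -/

open Finset

namespace Pool.Agent.LLO

theorem F_one_le (d : ℕ) : 1 ≤ F d := by
  unfold F
  calc (1 : ℝ) = ∏ _l ∈ d.primeFactors, (1 : ℝ) := by simp
    _ ≤ ∏ l ∈ d.primeFactors, (1 + 6 / (l : ℝ)) := by
      apply prod_le_prod
      · intro l _
        norm_num
      · intro l _
        have : (0 : ℝ) ≤ 6 / (l : ℝ) := by positivity
        linarith

private theorem FAv_sq (d : ℕ) :
    (F d) ^ 2 ≤ ∑ T ∈ d.primeFactors.powerset, ∏ l ∈ T, (30 / (l : ℝ)) := by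
  rw [← prod_one_add]
  unfold F
  rw [← prod_pow]
  apply prod_le_prod
  · intro l _
    positivity
  · intro l hl
    have h2 : (2 : ℝ) ≤ l := by exact_mod_cast (Nat.prime_of_mem_primeFactors hl).two_le
    have h0 : (0 : ℝ) < l := by linarith
    have e1 : (1 + 6 / (l : ℝ)) ^ 2 = 1 + 12 / l + 36 / l / l := by
      field_simp
      ring
    have e2 : 36 / (l : ℝ) / l ≤ 18 / l := by
      rw [div_le_iff₀ h0]
      have : 18 / (l : ℝ) * l = 18 := by field_simp
      rw [this, div_le_iff₀ h0]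
      linarith
    rw [e1]
    have e3 : 12 / (l : ℝ) + 18 / l = 30 / l := by
      field_simp
      norm_num
    linarith

private theorem FAv_count (M : ℕ) (T : Finset ℕ) (hT : ∀ l ∈ T, l.Prime) :
    (((Icc 1 M).filter (fun d => T ⊆ d.primeFactors)).card : ℝ) ≤ M / ∏ l ∈ T, (l : ℝ) := by
  have h1 : (Icc 1 M).filter (fun d => T ⊆ d.primeFactors) ⊆
      (Ioc 0 M).filter (fun d => (∏ l ∈ T, l) ∣ d) := by
    intro d hd
    rw [mem_filter, mem_Icc] at hd
    rw [mem_filter, mem_Ioc]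
    refine ⟨⟨by omega, hd.1.2⟩, ?_⟩
    apply Finset.prod_primes_dvd
    · intro l hl
      exact (hT l hl).prime
    · intro l hl
      exact Nat.dvd_of_mem_primeFactors (hd.2 hl)
  have h2 := card_le_card h1
  rw [Nat.Ioc_filter_dvd_card_eq_div] at h2
  have h3 : (((Icc 1 M).filter (fun d => T ⊆ d.primeFactors)).card : ℝ) ≤
      ((M / ∏ l ∈ T, l : ℕ) : ℝ) := by exact_mod_cast h2
  refine h3.trans (Nat.cast_div_le.trans ?_)
  push_cast
  exact le_refl _

theorem fAv : ∃ C : ℝ, 0 < C ∧ ∀ M : ℕ, ∑ d ∈ Icc 1 M, (F d) ^ 2 ≤ C * M := by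
  classical
  refine ⟨Real.exp 60, Real.exp_pos _, ?_⟩
  intro M
  set PP : Finset ℕ := (Icc 1 M).filter Nat.Prime with hPP
  have h1 : ∀ d ∈ Icc 1 M, (F d) ^ 2 ≤
      ∑ T ∈ PP.powerset, if T ⊆ d.primeFactors then ∏ l ∈ T, (30 / (l : ℝ)) else 0 := by
    intro d hd
    rw [mem_Icc] at hd
    refine (FAv_sq d).trans (le_of_eq ?_)
    rw [← sum_filter]
    apply sum_congr _ (fun _ _ => rfl)
    ext T
    rw [mem_powerset, mem_filter, mem_powerset]
    constructor
    · intro hT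
      refine ⟨?_, hT⟩
      intro l hl
      have h2 := hT hl
      rw [hPP, mem_filter, mem_Icc]
      have h3 := Nat.prime_of_mem_primeFactors h2
      refine ⟨⟨h3.one_lt.le, ?_⟩, h3⟩
      exact (Nat.le_of_dvd (by omega) (Nat.dvd_of_mem_primeFactors h2)).trans hd.2
    · intro hT
      exact hT.2
  have h2 := sum_le_sum h1
  refine h2.trans ?_
  rw [sum_comm]
  have h3 : ∀ T ∈ PP.powerset, ∑ d ∈ Icc 1 M,
      (if T ⊆ d.primeFactors then ∏ l ∈ T, (30 / (l : ℝ)) else 0) ≤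
      (∏ l ∈ T, (30 / (l : ℝ) ^ 2)) * M := by
    intro T hT
    rw [mem_powerset] at hT
    have hTp : ∀ l ∈ T, l.Prime := by
      intro l hl
      have := hT hl
      rw [hPP, mem_filter] at this
      exact this.2
    rw [← sum_filter, sum_const, nsmul_eq_mul]
    have h4 := FAv_count M T hTp
    have h5 : (0 : ℝ) ≤ ∏ l ∈ T, (30 / (l : ℝ)) := prod_nonneg (fun l _ => by positivity)
    refine (mul_le_mul_of_nonneg_right h4 h5).trans (le_of_eq ?_)
    have h6 : ∏ l ∈ T, (30 / (l : ℝ) ^ 2) = (∏ l ∈ T, (30 / (l : ℝ))) / ∏ l ∈ T, (l : ℝ) := by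
      rw [← prod_div_distrib]
      apply prod_congr rfl
      intro l _
      rw [sq, div_div]
    rw [h6]
    ring
  refine (sum_le_sum h3).trans ?_
  rw [← sum_mul, ← prod_one_add]
  apply mul_le_mul_of_nonneg_right _ (Nat.cast_nonneg M)
  calc ∏ l ∈ PP, (1 + 30 / (l : ℝ) ^ 2) ≤ ∏ l ∈ PP, Real.exp (30 / (l : ℝ) ^ 2) := by
        apply prod_le_prod
        · intro l _
          positivity
        · intro l _
          have := Real.add_one_le_exp (30 / (l : ℝ) ^ 2)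
          linarith
    _ = Real.exp (∑ l ∈ PP, 30 / (l : ℝ) ^ 2) := (Real.exp_sum _ _).symm
    _ ≤ Real.exp 60 := by
        apply Real.exp_le_exp.2
        have h7 : ∑ l ∈ PP, 30 / (l : ℝ) ^ 2 ≤ 30 * ∑ l ∈ Ioo 0 (M + 1), ((l : ℝ) ^ 2)⁻¹ := by
          rw [mul_sum]
          have h8 : PP ⊆ Ioo 0 (M + 1) := by
            intro l hl
            rw [hPP, mem_filter, mem_Icc] at hl
            rw [mem_Ioo]
            omega
          refine (sum_le_sum_of_subset_of_nonneg h8 (fun l _ _ => by positivity)).trans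
            (le_of_eq ?_)
          apply sum_congr rfl
          intro l _
          rw [div_eq_mul_inv]
        have h9 := sum_Ioo_inv_sq_le (α := ℝ) 0 (M + 1)
        norm_num at h9
        have h10 : ∑ l ∈ Ioo 0 (M + 1), ((l : ℝ) ^ 2)⁻¹ ≤ 2 := by
          simpa using h9
        linarith

end Pool.Agent.LLO
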