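import Pool.Agent.LLO.Sys

set_option autoImplicit false

/-! Module GG: the test function.  `g(a,p,v) = c_p (1/L) ∑_{i<L} w_i(a) w_{i+pk}(a) (p 1[p ∣ v+i] - 1)`, `w_i(a) = lb (sy X ((sh X)^[i] a))`.
`gg_mean`: exactly one `v < p` has `p ∣ v + i`.  `gg_bd`: `#{i < L : p ∣ v+i} ≤ L/p + 1`, so `|g| ≤ (1/L)(p(L/p+1) + L) = 2 + p/L ≤ 3`.
`gg_word`: `w_i(a)` for `i < H` is determined by `wrd (sh X) (sy X) H a` (`congrFun`, `FCH.wrd`).
`gg_sum`: for `a + H ≤ X` (`H ≥ L + pk`): `(sh X)^[i] a = a + i` (`sh_iter`), `w_i = λ(X+a+i)` (`lb_sy`), `p ∣ (X+a)%p + i ↔ p ∣ X+a+i`, so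
`g(a,p,yo X a p) = c_p (1/L) ∑_{i<L} Φ(X+a+i)`, `Φ(n) = λ(n)λ(n+pk)(p1[p∣n] - 1)`, `|Φ| ≤ p`.  For each `i < L` the sum of `Φ(X+a+i)` over `a ≤ X-H` misses at most `H`
terms of `[X,2X)`: error `≤ Hp`; the `a > X - H` contribute `≤ 3H`.  Total error `≤ Hp + 3H ≤ 4Hp` (trivially also true for `X < H`: then
`|∑ g| ≤ 3X`, `|∑Φ| ≤ pX`). -/

open Finset

namespace Pool.Agent.LLO

open Pool.Agent.FCH (ent rst wrd)

/-- `Φ` -/
noncomputable def Phi (p k n : ℕ) : ℝ := lam n * lam (n + p * k) * ((if p ∣ n then (p : ℝ) else 0) - 1)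

/-- the test function -/
noncomputable def gg (X L k : ℕ) (c : ℕ → ℝ) (a p v : ℕ) : ℝ :=
  c p * ((∑ i ∈ range L, lb (sy X ((sh X)^[i] a)) * lb (sy X ((sh X)^[i + p * k] a)) *
    ((if p ∣ v + i then (p : ℝ) else 0) - 1)) / L)

private def GG_G (p n : ℕ) : ℕ := p * ((n + (p - 1)) / p)

private theorem GG_succ {p : ℕ} (hp : 1 ≤ p) (n : ℕ) :
    GG_G p (n + 1) = GG_G p n + if p ∣ n then p else 0 := by
  unfold GG_G
  have e1 : n + 1 + (p - 1) = (n + (p - 1)) + 1 := by omega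
  rw [e1, Nat.succ_div]
  have e2 : n + (p - 1) + 1 = n + p := by omega
  have e3 : (p ∣ n + (p - 1) + 1) ↔ p ∣ n := by
    rw [e2]
    exact Nat.dvd_add_left (dvd_refl p)
  by_cases h : p ∣ n
  · rw [if_pos (e3.2 h), if_pos h, mul_add, mul_one]
  · rw [if_neg (fun h' => h (e3.1 h')), if_neg h, add_zero, add_zero]

private theorem GG_sum {p : ℕ} (hp : 1 ≤ p) (v L : ℕ) :
    ∑ i ∈ range L, (if p ∣ v + i then (p : ℝ) else 0) = (GG_G p (v + L) : ℝ) - GG_G p v := by
  induction L with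
  | zero => simp
  | succ L ih =>
    rw [Finset.sum_range_succ, ih, ← add_assoc, GG_succ hp]
    push_cast
    split_ifs <;> ring

private theorem GG_le (p n : ℕ) : GG_G p n ≤ n + (p - 1) := Nat.mul_div_le _ _

private theorem GG_ge {p : ℕ} (hp : 1 ≤ p) (n : ℕ) : n ≤ GG_G p n := by
  unfold GG_G
  have h1 := Nat.div_add_mod (n + (p - 1)) p
  have h2 := Nat.mod_lt (n + (p - 1)) (show 0 < p by omega)
  omega

private theorem GG_per {p : ℕ} (hp : 1 ≤ p) (n : ℕ) : GG_G p (n + p) = GG_G p n + p := by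
  unfold GG_G
  have e1 : n + p + (p - 1) = (n + (p - 1)) + p := by omega
  rw [e1, Nat.add_div_right _ (show 0 < p by omega), mul_add, mul_one]

private theorem GG_lb (b : Bool × Bool) : |lb b| = 1 := by
  unfold lb
  split_ifs
  · exact abs_one
  · rw [abs_neg, abs_one]

private theorem GG_dv_abs {p : ℕ} (v : ℕ) :
    |(if p ∣ v then (p : ℝ) else 0) - 1| ≤ (if p ∣ v then (p : ℝ) else 0) + 1 := by
  have h : (0 : ℝ) ≤ if p ∣ v then (p : ℝ) else 0 := by
    split_ifs
    · exact Nat.cast_nonneg p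
    · exact le_rfl
  rw [abs_le]
  constructor <;> linarith

private theorem GG_dv_le {p : ℕ} (hp : 2 ≤ p) (v : ℕ) :
    |(if p ∣ v then (p : ℝ) else 0) - 1| ≤ p := by
  have hp' : (2 : ℝ) ≤ p := by exact_mod_cast hp
  rw [abs_le]
  split_ifs
  · constructor <;> linarith
  · constructor <;> linarith

theorem gg_word (X L k H : ℕ) (c : ℕ → ℝ) (a a' p v : ℕ) (hH : L + p * k ≤ H)
    (h : wrd (sh X) (sy X) H a = wrd (sh X) (sy X) H a') : gg X L k c a p v = gg X L k c a' p v := by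
  have key : ∀ i, i < H → sy X ((sh X)^[i] a) = sy X ((sh X)^[i] a') := fun i hi =>
    congrFun h ⟨i, hi⟩
  unfold gg
  congr 2
  refine Finset.sum_congr rfl (fun i hi => ?_)
  rw [Finset.mem_range] at hi
  rw [key i (by omega), key (i + p * k) (by omega)]

theorem gg_mean (X L k : ℕ) (c : ℕ → ℝ) (a p : ℕ) (hp : 1 ≤ p) : ∑ v ∈ range p, gg X L k c a p v = 0 := by
  unfold gg
  rw [← Finset.mul_sum, ← Finset.sum_div, Finset.sum_comm]
  have h1 : ∀ i ∈ range L, ∑ v ∈ range p, lb (sy X ((sh X)^[i] a)) *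
      lb (sy X ((sh X)^[i + p * k] a)) * ((if p ∣ v + i then (p : ℝ) else 0) - 1) = 0 := by
    intro i _
    rw [← Finset.mul_sum, Finset.sum_sub_distrib]
    have h2 : ∑ v ∈ range p, (if p ∣ v + i then (p : ℝ) else 0) = p := by
      have h3 := GG_sum hp i p
      rw [GG_per hp] at h3
      push_cast at h3
      have h4 : ∑ v ∈ range p, (if p ∣ v + i then (p : ℝ) else 0) =
          ∑ v ∈ range p, (if p ∣ i + v then (p : ℝ) else 0) :=
        Finset.sum_congr rfl (fun v _ => by rw [add_comm v i])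
      rw [h4, h3]
      ring
    rw [h2, Finset.sum_const, card_range, nsmul_eq_mul, mul_one, sub_self, mul_zero]
  rw [Finset.sum_eq_zero h1, zero_div, mul_zero]

theorem gg_bd (X L k : ℕ) (c : ℕ → ℝ) (hc : ∀ p, |c p| ≤ 1) (a p v : ℕ) (hL : 1 ≤ L) (hpL : p ≤ L) (hp : 1 ≤ p) :
    |gg X L k c a p v| ≤ 3 := by
  have hL0 : (0 : ℝ) < L := by exact_mod_cast hL
  unfold gg
  rw [abs_mul, abs_div, Nat.abs_cast]
  have h1 : |∑ i ∈ range L, lb (sy X ((sh X)^[i] a)) * lb (sy X ((sh X)^[i + p * k] a)) *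
      ((if p ∣ v + i then (p : ℝ) else 0) - 1)| ≤ 3 * L := by
    refine (Finset.abs_sum_le_sum_abs _ _).trans ?_
    have h2 : ∀ i ∈ range L, |lb (sy X ((sh X)^[i] a)) * lb (sy X ((sh X)^[i + p * k] a)) *
        ((if p ∣ v + i then (p : ℝ) else 0) - 1)| ≤ (if p ∣ v + i then (p : ℝ) else 0) + 1 := by
      intro i _
      rw [abs_mul, abs_mul, GG_lb, GG_lb, one_mul, one_mul]
      exact GG_dv_abs (v + i)
    refine (Finset.sum_le_sum h2).trans ?_
    rw [Finset.sum_add_distrib, GG_sum hp, Finset.sum_const, card_range, nsmul_eq_mul, mul_one]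
    have h3 : GG_G p (v + L) ≤ v + L + (p - 1) := GG_le p (v + L)
    have h4 : v ≤ GG_G p v := GG_ge hp v
    have h5 : GG_G p (v + L) ≤ v + 2 * L := by omega
    have h6 : (GG_G p (v + L) : ℝ) ≤ v + 2 * L := by exact_mod_cast h5
    have h7 : (v : ℝ) ≤ GG_G p v := by exact_mod_cast h4
    linarith
  have h8 : |∑ i ∈ range L, lb (sy X ((sh X)^[i] a)) * lb (sy X ((sh X)^[i + p * k] a)) *
      ((if p ∣ v + i then (p : ℝ) else 0) - 1)| / L ≤ 3 := by
    rw [div_le_iff₀ hL0]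
    exact h1
  calc |c p| * (|∑ i ∈ range L, lb (sy X ((sh X)^[i] a)) * lb (sy X ((sh X)^[i + p * k] a)) *
      ((if p ∣ v + i then (p : ℝ) else 0) - 1)| / L) ≤ 1 * 3 :=
        mul_le_mul (hc p) h8 (by positivity) zero_le_one
    _ = 3 := one_mul 3

theorem gg_sum (X L k H : ℕ) (c : ℕ → ℝ) (hc : ∀ p, |c p| ≤ 1) (p : ℕ) (hL : 1 ≤ L) (hpL : p ≤ L) (hp : 2 ≤ p) (hH : L + p * k ≤ H) :
    |∑ a ∈ range X, gg X L k c a p (yo X a p) - c p * ∑ n ∈ Ico X (2 * X), Phi p k n| ≤ 4 * H * p := by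
  have hL0 : (0 : ℝ) < L := by exact_mod_cast hL
  have hp0 : (0 : ℝ) ≤ p := Nat.cast_nonneg p
  have hH0 : (0 : ℝ) ≤ H := Nat.cast_nonneg H
  set ψ : ℕ → ℕ → ℝ := fun a i => lb (sy X ((sh X)^[i] a)) * lb (sy X ((sh X)^[i + p * k] a)) *
      ((if p ∣ yo X a p + i then (p : ℝ) else 0) - 1) with hψ
  have hψb : ∀ a i, |ψ a i| ≤ p := by
    intro a i
    rw [hψ]
    dsimp only
    rw [abs_mul, abs_mul, GG_lb, GG_lb, one_mul, one_mul]
    exact GG_dv_le hp _
  have hΦb : ∀ n, |Phi p k n| ≤ p := by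
    intro n
    unfold Phi
    rw [abs_mul, abs_mul, lam_abs, lam_abs, one_mul, one_mul]
    exact GG_dv_le hp _
  have hψΦ : ∀ a i, a + (i + p * k) < X → ψ a i = Phi p k (X + a + i) := by
    intro a i hai
    rw [hψ]
    dsimp only
    rw [sh_iter (show a + i < X by omega), sh_iter hai, lb_sy, lb_sy]
    unfold Phi yo
    have e1 : X + (a + i) = X + a + i := by ring
    have e2 : X + (a + (i + p * k)) = X + a + i + p * k := by ring
    rw [e1, e2]
    have e3 : (p ∣ (X + a) % p + i) ↔ p ∣ X + a + i := by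
      rw [Nat.dvd_iff_mod_eq_zero, Nat.dvd_iff_mod_eq_zero, Nat.mod_add_mod]
    simp only [e3]
  have hIcoR : ∑ n ∈ Ico X (2 * X), Phi p k n = ∑ a ∈ range X, Phi p k (X + a) := by
    rw [Finset.sum_Ico_eq_sum_range]
    have : 2 * X - X = X := by omega
    rw [this]
  -- for one `i`
  have hone : ∀ i ∈ range L, |∑ a ∈ range X, ψ a i - ∑ a ∈ range X, Phi p k (X + a)| ≤
      2 * H * p := by
    intro i hi
    rw [Finset.mem_range] at hi
    by_cases hHX : H ≤ X
    · set M := X - H with hM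
      have h1 : ∑ a ∈ range X, ψ a i = ∑ a ∈ range M, Phi p k (X + a + i) +
          ∑ a ∈ Ico M X, ψ a i := by
        rw [← Finset.sum_range_add_sum_Ico _ (show M ≤ X by omega)]
        congr 1
        refine Finset.sum_congr rfl (fun a ha => ?_)
        rw [Finset.mem_range] at ha
        exact hψΦ a i (by omega)
      have h2 : ∑ a ∈ range X, Phi p k (X + a) = ∑ a ∈ range i, Phi p k (X + a) +
          ∑ a ∈ range M, Phi p k (X + a + i) + ∑ a ∈ Ico (M + i) X, Phi p k (X + a) := by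
        rw [← Finset.sum_range_add_sum_Ico _ (show M + i ≤ X by omega), add_comm M i,
          Finset.sum_range_add]
        congr 2
        refine Finset.sum_congr rfl (fun a _ => ?_)
        congr 1
        ring
      have h3 : |∑ a ∈ Ico M X, ψ a i| ≤ H * p := by
        refine (Finset.abs_sum_le_sum_abs _ _).trans ?_
        refine (Finset.sum_le_sum (fun a _ => hψb a i)).trans ?_
        rw [Finset.sum_const, Nat.card_Ico, nsmul_eq_mul]
        have : X - M = H := by omega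
        rw [this]
      have h4 : |∑ a ∈ range i, Phi p k (X + a)| ≤ i * p := by
        refine (Finset.abs_sum_le_sum_abs _ _).trans ?_
        refine (Finset.sum_le_sum (fun a _ => hΦb (X + a))).trans ?_
        rw [Finset.sum_const, card_range, nsmul_eq_mul]
      have h5 : |∑ a ∈ Ico (M + i) X, Phi p k (X + a)| ≤ (H - i) * p := by
        refine (Finset.abs_sum_le_sum_abs _ _).trans ?_
        refine (Finset.sum_le_sum (fun a _ => hΦb (X + a))).trans ?_
        rw [Finset.sum_const, Nat.card_Ico, nsmul_eq_mul]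
        have : X - (M + i) = H - i := by omega
        rw [this, Nat.cast_sub (by omega)]
      rw [h1, h2]
      have h6 : ∑ a ∈ range M, Phi p k (X + a + i) + ∑ a ∈ Ico M X, ψ a i -
          (∑ a ∈ range i, Phi p k (X + a) + ∑ a ∈ range M, Phi p k (X + a + i) +
            ∑ a ∈ Ico (M + i) X, Phi p k (X + a)) = ∑ a ∈ Ico M X, ψ a i -
          ∑ a ∈ range i, Phi p k (X + a) - ∑ a ∈ Ico (M + i) X, Phi p k (X + a) := by ring
      rw [h6]
      rw [abs_le] at h3 h4 h5 ⊢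
      constructor <;> linarith [h3.1, h3.2, h4.1, h4.2, h5.1, h5.2]
    · have hXH : (X : ℝ) ≤ H := by
        have : X ≤ H := by omega
        exact_mod_cast this
      have h3 : |∑ a ∈ range X, ψ a i| ≤ X * p := by
        refine (Finset.abs_sum_le_sum_abs _ _).trans ?_
        refine (Finset.sum_le_sum (fun a _ => hψb a i)).trans ?_
        rw [Finset.sum_const, card_range, nsmul_eq_mul]
      have h4 : |∑ a ∈ range X, Phi p k (X + a)| ≤ X * p := by
        refine (Finset.abs_sum_le_sum_abs _ _).trans ?_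
        refine (Finset.sum_le_sum (fun a _ => hΦb (X + a))).trans ?_
        rw [Finset.sum_const, card_range, nsmul_eq_mul]
      have h5 : (X : ℝ) * p ≤ H * p := mul_le_mul_of_nonneg_right hXH hp0
      rw [abs_le] at h3 h4 ⊢
      constructor <;> linarith [h3.1, h3.2, h4.1, h4.2]
  have e1 : ∑ a ∈ range X, gg X L k c a p (yo X a p) - c p * ∑ n ∈ Ico X (2 * X), Phi p k n =
      c p * ((∑ i ∈ range L, (∑ a ∈ range X, ψ a i - ∑ a ∈ range X, Phi p k (X + a))) / L) := by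
    have e2 : ∑ a ∈ range X, gg X L k c a p (yo X a p) =
        c p * ((∑ i ∈ range L, ∑ a ∈ range X, ψ a i) / L) := by
      rw [Finset.sum_comm, Finset.sum_div, Finset.mul_sum]
      rfl
    rw [e2, hIcoR, Finset.sum_sub_distrib, Finset.sum_const, card_range, nsmul_eq_mul, sub_div,
      mul_div_cancel_left₀ _ hL0.ne', mul_sub]
  rw [e1, abs_mul, abs_div, Nat.abs_cast]
  have h7 : |∑ i ∈ range L, (∑ a ∈ range X, ψ a i - ∑ a ∈ range X, Phi p k (X + a))| / L ≤
      2 * H * p := by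
    rw [div_le_iff₀ hL0]
    refine (Finset.abs_sum_le_sum_abs _ _).trans ?_
    refine (Finset.sum_le_sum hone).trans ?_
    rw [Finset.sum_const, card_range, nsmul_eq_mul, mul_comm]
  have h8 : (0 : ℝ) ≤ H * p := by positivity
  calc |c p| * (|∑ i ∈ range L, (∑ a ∈ range X, ψ a i - ∑ a ∈ range X, Phi p k (X + a))| / L)
      ≤ 1 * (2 * H * p) := mul_le_mul (hc p) h7 (by positivity) zero_le_one
    _ ≤ 4 * H * p := by linarith

end Pool.Agent.LLO
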