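import Pool.Agent.LLO.Defs

set_option autoImplicit false

/-! Module Maj: major arcs.  `K ≥ 1` with `(2πC/K)² ≤ η/24`; `h' = D/K` (natural division).  The window `[x,x+D)` is the union of the `K` blocks
`[x+ih', x+(i+1)h')`, `i < K`, and a rest of `≤ K` integers.  On the block: `|e(nθ) - e((x+ih')θ)| ≤ 2π h' |θ| ≤ 2πC/K`, so
`‖∑_{block} f(n)e(nθ)‖ ≤ ‖∑_{block} f(n)‖ + h'·2πC/K`.  Hence `‖∑_{window}‖ ≤ ∑_i ‖∑_{block i} f‖ + D·2πC/K + K` and
`‖·‖² ≤ 3 (K ∑_i ‖block i‖² + D²(2πC/K)² + K²)`.  Sum over `x`: `∑_x ‖block i‖² ≤ ∑_{y ∈ [X,2X)} ‖∑_{n∈[y,y+h')} f‖² + D h'²` (shift by `ih' ≤ D`).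
With `Sm f` for `η' = η/12`, window `h'`: `3K·K(η' h'² X + D h'²) ≤ 3η' D² X + 3D³`.  `D ≥ D0`: `h' ≥ h0`, `3K² ≤ (η/8) D²`; `X ≥ X0(D)`: `3D³ ≤ (η/8)D²X`. -/

open Finset

namespace Pool.Agent.LLO

theorem e_sub_le (s t : ℝ) : ‖e s - e t‖ ≤ 2 * Real.pi * |s - t| := by
  have h1 : e s - e t = e t * (e (s - t) - 1) := by
    have h2 : e s = e t * e (s - t) := by
      rw [← e_add]
      congr 1
      ring
    rw [h2]; ring
  have h3 : e (s - t) = Complex.exp (Complex.I * ((2 * Real.pi * (s - t) : ℝ) : ℂ)) := by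
    unfold e
    congr 1
    push_cast
    ring
  rw [h1, norm_mul, e_norm, one_mul, h3]
  refine (Real.norm_exp_I_mul_ofReal_sub_one_le).trans ?_
  rw [Real.norm_eq_abs, abs_mul, abs_of_pos (by positivity : (0 : ℝ) < 2 * Real.pi)]

private theorem Maj_split (F : ℕ → ℂ) (x h K r : ℕ) :
    ∑ n ∈ Ico x (x + (K * h + r)), F n =
      (∑ i ∈ range K, ∑ n ∈ Ico (x + i * h) (x + i * h + h), F n) +
        ∑ n ∈ Ico (x + K * h) (x + (K * h + r)), F n := by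
  have h1 : ∀ K : ℕ, ∑ n ∈ Ico x (x + K * h), F n =
      ∑ i ∈ range K, ∑ n ∈ Ico (x + i * h) (x + i * h + h), F n := by
    intro K
    induction K with
    | zero => simp
    | succ K ih =>
      rw [Finset.sum_range_succ, ← ih]
      have e1 : x + (K + 1) * h = x + K * h + h := by ring
      rw [e1]
      exact (Finset.sum_Ico_consecutive F (Nat.le_add_right x (K * h))
        (Nat.le_add_right (x + K * h) h)).symm
  rw [← h1]
  exact (Finset.sum_Ico_consecutive F (Nat.le_add_right x (K * h)) (by omega)).symm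

private theorem Maj_card (x y : ℕ) (g : ℕ → ℂ) (hg : ∀ n, ‖g n‖ ≤ 1) :
    ‖∑ n ∈ Ico x (x + y), g n‖ ≤ y := by
  refine (norm_sum_le _ _).trans ?_
  refine (Finset.sum_le_sum (fun n _ => hg n)).trans ?_
  rw [Finset.sum_const, Nat.card_Ico, nsmul_eq_mul, mul_one]
  have : x + y - x = y := by omega
  rw [this]

private theorem Maj_block (f : ℕ → ℂ) (hb : ∀ n, ‖f n‖ ≤ 1) (θ : ℝ) (y h : ℕ) :
    ‖∑ n ∈ Ico y (y + h), f n * e (n * θ)‖ ≤
      ‖∑ n ∈ Ico y (y + h), f n‖ + h * (2 * Real.pi * (h * |θ|)) := by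
  have h1 : ∑ n ∈ Ico y (y + h), f n * e (n * θ) =
      (∑ n ∈ Ico y (y + h), f n) * e (y * θ) +
        ∑ n ∈ Ico y (y + h), f n * (e (n * θ) - e (y * θ)) := by
    rw [Finset.sum_mul, ← Finset.sum_add_distrib]
    refine Finset.sum_congr rfl (fun n _ => ?_)
    ring
  rw [h1]
  refine (norm_add_le _ _).trans ?_
  rw [norm_mul, e_norm, mul_one]
  refine add_le_add le_rfl ?_
  refine (norm_sum_le _ _).trans ?_
  have h2 : ∀ n ∈ Ico y (y + h), ‖f n * (e (n * θ) - e (y * θ))‖ ≤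
      2 * Real.pi * (h * |θ|) := by
    intro n hn
    rw [Finset.mem_Ico] at hn
    rw [norm_mul]
    have h3 := e_sub_le (n * θ) (y * θ)
    have h4 : |(n : ℝ) * θ - y * θ| ≤ h * |θ| := by
      rw [← sub_mul, abs_mul]
      apply mul_le_mul_of_nonneg_right _ (abs_nonneg θ)
      have h5 : (y : ℝ) ≤ n := by exact_mod_cast hn.1
      have h6 : (n : ℝ) ≤ y + h := by exact_mod_cast hn.2.le
      rw [abs_of_nonneg (by linarith)]
      linarith
    calc ‖f n‖ * ‖e (n * θ) - e (y * θ)‖ ≤ 1 * (2 * Real.pi * (h * |θ|)) := by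
          apply mul_le_mul (hb n) _ (norm_nonneg _) zero_le_one
          exact h3.trans (mul_le_mul_of_nonneg_left h4 (by positivity))
      _ = 2 * Real.pi * (h * |θ|) := one_mul _
  refine (Finset.sum_le_sum h2).trans ?_
  rw [Finset.sum_const, Nat.card_Ico, nsmul_eq_mul]
  have h7 : y + h - y = h := by omega
  rw [h7]

private theorem Maj_shift (W : ℕ → ℝ) (hW : ∀ y, 0 ≤ W y) (M : ℝ) (hM : ∀ y, W y ≤ M)
    (X s : ℕ) : ∑ x ∈ Ico X (2 * X), W (x + s) ≤ (∑ y ∈ Ico X (2 * X), W y) + s * M := by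
  have h1 : ∑ x ∈ Ico X (2 * X), W (x + s) = ∑ y ∈ Ico (X + s) (2 * X + s), W y := by
    rw [Finset.sum_Ico_add' W X (2 * X) s]
  have h2 : ∑ y ∈ Ico (X + s) (2 * X + s), W y ≤ ∑ y ∈ Ico X (2 * X + s), W y := by
    apply Finset.sum_le_sum_of_subset_of_nonneg
    · intro y hy
      rw [Finset.mem_Ico] at hy ⊢
      omega
    · intro y _ _
      exact hW y
  have h3 : ∑ y ∈ Ico X (2 * X + s), W y = (∑ y ∈ Ico X (2 * X), W y) +
      ∑ y ∈ Ico (2 * X) (2 * X + s), W y :=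
    (Finset.sum_Ico_consecutive W (by omega) (by omega)).symm
  have h4 : ∑ y ∈ Ico (2 * X) (2 * X + s), W y ≤ s * M := by
    refine (Finset.sum_le_sum (fun y _ => hM y)).trans ?_
    rw [Finset.sum_const, Nat.card_Ico, nsmul_eq_mul]
    have h7 : 2 * X + s - 2 * X = s := by omega
    rw [h7]
  rw [h1]
  linarith

theorem maj (f : ℕ → ℂ) (hf : Sm f) (hb : ∀ n, ‖f n‖ ≤ 1) (C η : ℝ) (hC : 0 ≤ C) (hη : 0 < η) :
    ∃ D0 : ℕ, ∀ D : ℕ, D0 ≤ D → ∃ X0 : ℕ, ∀ X : ℕ, X0 ≤ X → ∀ θ : ℝ, |θ| ≤ C / D →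
      ∑ x ∈ Ico X (2 * X), ‖∑ n ∈ Ico x (x + D), f n * e (n * θ)‖ ^ 2 ≤ η * (D : ℝ) ^ 2 * X := by
  obtain ⟨K, hK1, hK2⟩ : ∃ K : ℕ, 1 ≤ K ∧ (2 * Real.pi * C / K) ^ 2 ≤ η / 24 := by
    obtain ⟨K, hK⟩ := exists_nat_gt (max 1 (2 * Real.pi * C / Real.sqrt (η / 24)))
    have hK1 : (1 : ℝ) < K := lt_of_le_of_lt (le_max_left _ _) hK
    have hK2 : 2 * Real.pi * C / Real.sqrt (η / 24) < K := lt_of_le_of_lt (le_max_right _ _) hK
    have hs : 0 < Real.sqrt (η / 24) := Real.sqrt_pos.2 (by positivity)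
    have hK0 : (0 : ℝ) < K := by linarith
    refine ⟨K, by exact_mod_cast hK1.le, ?_⟩
    rw [div_lt_iff₀ hs] at hK2
    have h1 : 2 * Real.pi * C / K ≤ Real.sqrt (η / 24) := by
      rw [div_le_iff₀ hK0]
      linarith
    calc (2 * Real.pi * C / K) ^ 2 ≤ (Real.sqrt (η / 24)) ^ 2 := by
          apply pow_le_pow_left₀ (by positivity) h1
      _ = η / 24 := Real.sq_sqrt (by positivity)
  have hK0 : (0 : ℝ) < K := by exact_mod_cast hK1
  obtain ⟨h0, hh0⟩ := hf (η / 12) (by positivity)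
  obtain ⟨D1, hD1⟩ := exists_nat_gt (Real.sqrt (24 * (K : ℝ) ^ 2 / η))
  refine ⟨max (max 1 D1) (K * h0), ?_⟩
  intro D hD
  have hD1' : 1 ≤ D := le_trans (le_trans (le_max_left 1 D1) (le_max_left _ _)) hD
  have hDD1 : D1 ≤ D := le_trans (le_trans (le_max_right 1 D1) (le_max_left _ _)) hD
  have hDK : K * h0 ≤ D := le_trans (le_max_right _ _) hD
  have hD0 : (0 : ℝ) < D := by exact_mod_cast hD1'
  have hKD : 3 * (K : ℝ) ^ 2 ≤ η / 8 * (D : ℝ) ^ 2 := by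
    have h1 : Real.sqrt (24 * (K : ℝ) ^ 2 / η) ≤ D := hD1.le.trans (by exact_mod_cast hDD1)
    have h2 : 24 * (K : ℝ) ^ 2 / η ≤ (D : ℝ) ^ 2 := by
      rw [← Real.sq_sqrt (show 0 ≤ 24 * (K : ℝ) ^ 2 / η by positivity)]
      exact pow_le_pow_left₀ (Real.sqrt_nonneg _) h1 2
    rw [div_le_iff₀ hη] at h2
    linarith
  set h' := D / K with hh'
  have hh0' : h0 ≤ h' := (Nat.le_div_iff_mul_le (by omega)).2 (by rw [mul_comm]; exact hDK)
  have hKh : K * h' ≤ D := Nat.mul_div_le D K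
  have hKhR : (K : ℝ) * h' ≤ D := by exact_mod_cast hKh
  obtain ⟨X1, hX1⟩ := hh0 h' hh0'
  obtain ⟨X2, hX2⟩ := exists_nat_gt (24 * (D : ℝ) / η)
  refine ⟨max X1 X2, ?_⟩
  intro X hX θ hθ
  have hXX1 : X1 ≤ X := le_trans (le_max_left _ _) hX
  have hXX2 : X2 ≤ X := le_trans (le_max_right _ _) hX
  have hW := hX1 X hXX1
  have hX3 : 3 * (D : ℝ) ^ 3 ≤ η / 8 * (D : ℝ) ^ 2 * X := by
    have h1 : 24 * (D : ℝ) / η ≤ X := hX2.le.trans (by exact_mod_cast hXX2)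
    rw [div_le_iff₀ hη] at h1
    have h2 : 0 ≤ (D : ℝ) ^ 2 := by positivity
    nlinarith [mul_le_mul_of_nonneg_left h1 h2]
  -- one window
  set B : ℕ → ℕ → ℝ := fun i x => ‖∑ n ∈ Ico (x + i * h') (x + i * h' + h'), f n‖ with hB
  have hB0 : ∀ i x, 0 ≤ B i x := fun i x => norm_nonneg _
  have hwin : ∀ x, ‖∑ n ∈ Ico x (x + D), f n * e (n * θ)‖ ^ 2 ≤
      3 * (K * ∑ i ∈ range K, B i x ^ 2) + 3 * (D * (2 * Real.pi * C / K)) ^ 2 +
        3 * (K : ℝ) ^ 2 := by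
    intro x
    have hDr : D = K * h' + D % K := (Nat.div_add_mod D K).symm
    have hr : D % K < K := Nat.mod_lt D (by omega)
    have h1 : ‖∑ n ∈ Ico x (x + D), f n * e (n * θ)‖ ≤
        (∑ i ∈ range K, B i x) + D * (2 * Real.pi * C / K) + K := by
      have h2 := Maj_split (fun n => f n * e (n * θ)) x h' K (D % K)
      rw [← hDr] at h2
      rw [h2]
      refine (norm_add_le _ _).trans ?_
      have h3 : ‖∑ n ∈ Ico (x + K * h') (x + D), f n * e (n * θ)‖ ≤ K := by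
        have h4 : x + D = (x + K * h') + D % K := by omega
        rw [h4]
        refine (Maj_card _ _ _ (fun n => ?_)).trans ?_
        · rw [norm_mul, e_norm, mul_one]; exact hb n
        · exact_mod_cast hr.le
      have h5 : ‖∑ i ∈ range K, ∑ n ∈ Ico (x + i * h') (x + i * h' + h'), f n * e (n * θ)‖ ≤
          (∑ i ∈ range K, B i x) + D * (2 * Real.pi * C / K) := by
        refine (norm_sum_le _ _).trans ?_
        have h6 : ∀ i ∈ range K,
            ‖∑ n ∈ Ico (x + i * h') (x + i * h' + h'), f n * e (n * θ)‖ ≤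
              B i x + h' * (2 * Real.pi * C / K) := by
          intro i _
          refine (Maj_block f hb θ (x + i * h') h').trans ?_
          refine add_le_add le_rfl ?_
          apply mul_le_mul_of_nonneg_left _ (Nat.cast_nonneg _)
          rw [mul_div_assoc]
          apply mul_le_mul_of_nonneg_left _ (by positivity)
          have h7 : (h' : ℝ) ≤ D / K := by
            rw [le_div_iff₀ hK0, mul_comm]; exact hKhR
          calc (h' : ℝ) * |θ| ≤ (D / K) * (C / D) :=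
                mul_le_mul h7 hθ (abs_nonneg _) (by positivity)
            _ = C / K := by field_simp
        refine (Finset.sum_le_sum h6).trans ?_
        rw [Finset.sum_add_distrib, Finset.sum_const, card_range, nsmul_eq_mul]
        refine add_le_add le_rfl ?_
        rw [← mul_assoc]
        exact mul_le_mul_of_nonneg_right hKhR (by positivity)
      linarith
    have h8 : (∑ i ∈ range K, B i x) ^ 2 ≤ K * ∑ i ∈ range K, B i x ^ 2 := by
      have := sq_sum_le_card_mul_sum_sq (s := range K) (f := fun i => B i x)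
      rwa [card_range] at this
    have h9 : 0 ≤ ‖∑ n ∈ Ico x (x + D), f n * e (n * θ)‖ := norm_nonneg _
    have h10 : ‖∑ n ∈ Ico x (x + D), f n * e (n * θ)‖ ^ 2 ≤
        ((∑ i ∈ range K, B i x) + D * (2 * Real.pi * C / K) + K) ^ 2 :=
      pow_le_pow_left₀ h9 h1 2
    have h11 : ∀ a b c : ℝ, (a + b + c) ^ 2 ≤ 3 * a ^ 2 + 3 * b ^ 2 + 3 * c ^ 2 := by
      intro a b c
      nlinarith [sq_nonneg (a - b), sq_nonneg (b - c), sq_nonneg (a - c)]
    have h12 := h11 (∑ i ∈ range K, B i x) (D * (2 * Real.pi * C / K)) K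
    linarith
  -- sum over the windows
  have hsum : ∀ i ∈ range K, ∑ x ∈ Ico X (2 * X), B i x ^ 2 ≤
      η / 12 * (h' : ℝ) ^ 2 * X + D * (h' : ℝ) ^ 2 := by
    intro i hi
    rw [Finset.mem_range] at hi
    have h1 := Maj_shift (fun y => ‖∑ n ∈ Ico y (y + h'), f n‖ ^ 2) (fun y => by positivity)
      ((h' : ℝ) ^ 2) (fun y => pow_le_pow_left₀ (norm_nonneg _) (Maj_card y h' f hb) 2) X (i * h')
    have h2 : ((i * h' : ℕ) : ℝ) * (h' : ℝ) ^ 2 ≤ D * (h' : ℝ) ^ 2 := by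
      apply mul_le_mul_of_nonneg_right _ (by positivity)
      have h3 : i * h' ≤ D := le_trans (Nat.mul_le_mul_right h' hi.le) hKh
      exact_mod_cast h3
    have h4 : ∑ x ∈ Ico X (2 * X), B i x ^ 2 =
      ∑ x ∈ Ico X (2 * X), (fun y => ‖∑ n ∈ Ico y (y + h'), f n‖ ^ 2) (x + i * h') := rfl
    rw [h4]
    linarith
  have htot : ∑ x ∈ Ico X (2 * X), ‖∑ n ∈ Ico x (x + D), f n * e (n * θ)‖ ^ 2 ≤
      3 * (K * (K * (η / 12 * (h' : ℝ) ^ 2 * X + D * (h' : ℝ) ^ 2))) +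
        (3 * (D * (2 * Real.pi * C / K)) ^ 2 + 3 * (K : ℝ) ^ 2) * X := by
    refine (Finset.sum_le_sum (fun x _ => hwin x)).trans ?_
    rw [Finset.sum_add_distrib, Finset.sum_add_distrib, Finset.sum_const, Finset.sum_const,
      Nat.card_Ico, nsmul_eq_mul, nsmul_eq_mul, ← Finset.mul_sum, ← Finset.mul_sum,
      Finset.sum_comm]
    have h1 : 2 * X - X = X := by omega
    rw [h1]
    have h2 : ∑ i ∈ range K, ∑ x ∈ Ico X (2 * X), B i x ^ 2 ≤
        K * (η / 12 * (h' : ℝ) ^ 2 * X + D * (h' : ℝ) ^ 2) := by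
      refine (Finset.sum_le_sum hsum).trans ?_
      rw [Finset.sum_const, card_range, nsmul_eq_mul]
    have h3 : (K : ℝ) * ∑ i ∈ range K, ∑ x ∈ Ico X (2 * X), B i x ^ 2 ≤
        K * (K * (η / 12 * (h' : ℝ) ^ 2 * X + D * (h' : ℝ) ^ 2)) :=
      mul_le_mul_of_nonneg_left h2 hK0.le
    linarith
  refine htot.trans ?_
  have hX0 : (0 : ℝ) ≤ X := Nat.cast_nonneg X
  have hq : (K : ℝ) * (K * (h' : ℝ) ^ 2) ≤ (D : ℝ) ^ 2 := by
    have h1 : (K : ℝ) * (K * (h' : ℝ) ^ 2) = (K * h') ^ 2 := by ring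
    rw [h1]
    exact pow_le_pow_left₀ (by positivity) hKhR 2
  have e1 : 3 * (K * (K * (η / 12 * (h' : ℝ) ^ 2 * X + D * (h' : ℝ) ^ 2))) =
      ((K : ℝ) * (K * (h' : ℝ) ^ 2)) * (η / 4 * X + 3 * D) := by ring
  have e2 : ((K : ℝ) * (K * (h' : ℝ) ^ 2)) * (η / 4 * X + 3 * D) ≤
      (D : ℝ) ^ 2 * (η / 4 * X + 3 * D) :=
    mul_le_mul_of_nonneg_right hq (by positivity)
  have e3 : 3 * (D * (2 * Real.pi * C / K)) ^ 2 ≤ η / 8 * (D : ℝ) ^ 2 := by
    rw [mul_pow]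
    have h1 : (D : ℝ) ^ 2 * (2 * Real.pi * C / K) ^ 2 ≤ (D : ℝ) ^ 2 * (η / 24) :=
      mul_le_mul_of_nonneg_left hK2 (by positivity)
    linarith
  have e4 : (3 * (D * (2 * Real.pi * C / K)) ^ 2 + 3 * (K : ℝ) ^ 2) * X ≤
      (η / 8 * (D : ℝ) ^ 2 + η / 8 * (D : ℝ) ^ 2) * X :=
    mul_le_mul_of_nonneg_right (add_le_add e3 hKD) hX0
  have e5 : 0 ≤ η * (D : ℝ) ^ 2 * X := by positivity
  rw [e1]
  nlinarith

end Pool.Agent.LLO
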