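import Pool.Agent.LLO.Tk
import Pool.Agent.LLO.Abl

set_option autoImplicit false

/-! Module MinA: minor arcs, smooth form.  `L = ∑_{p∈U} 1/p > 0`.
Write `Σ = ∑_{n ∈ [X,3X)} λ(n) e(nα) g(n)`, `ω(n) = #{p ∈ U : p ∣ n}`.
(1) `|∑ λ(n)e(nα)g(n)(L - ω(n))| ≤ D ∑|L - ω| ≤ D √(2X) √(3LX) ≤ 3 D X √L` (`tk`, Cauchy-Schwarz).
(2) `∑ ω(n) λ(n)e(nα)g(n) = ∑_{p∈U} ∑_{m < 3X} λ(pm) e(pmα) g(pm) = -∑_m λ(m) F(m)`, `F(m) = ∑_p e(pmα) g(pm)`.
Cauchy-Schwarz with the weights `m^(-1/2)`: `(∑ |F|)² ≤ (∑ m^(-1/2)) (∑ m^(1/2) |F(m)|²)`; the diagonal is at most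
`6 D² X √(3X)`, off the diagonal use `abl`.
(3) `L|Σ| ≤ 3DX√L + 10 XD`. -/

open Finset

namespace Pool.Agent.LLO

private theorem minA_sqrtsum (N : ℕ) : ∑ m ∈ Ico 1 (N + 1), 1 / √(m : ℝ) ≤ 2 * √(N : ℝ) := by
  induction N with
  | zero => simp
  | succ N ih =>
    rw [sum_Ico_succ_top (by omega)]
    have hb : 0 < √((N + 1 : ℕ) : ℝ) := Real.sqrt_pos.2 (by positivity)
    have ha : 0 ≤ √(N : ℝ) := Real.sqrt_nonneg _
    have hb2 : √((N + 1 : ℕ) : ℝ) * √((N + 1 : ℕ) : ℝ) = N + 1 := by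
      rw [Real.mul_self_sqrt (by positivity)]
      push_cast
      ring
    have ha2 : √(N : ℝ) * √(N : ℝ) = N := Real.mul_self_sqrt (by positivity)
    set b := √((N + 1 : ℕ) : ℝ)
    set a := √(N : ℝ)
    have h1 : 1 / b ≤ 2 * b - 2 * a := by
      rw [div_le_iff₀ hb]
      nlinarith [sq_nonneg (b - a)]
    linarith

private theorem minA_pw (N : ℕ) (hN : 1 ≤ N) :
    ∑ n ∈ Icc 2 N, 1 / ((n : ℝ) * √(n : ℝ)) + 2 / √(N : ℝ) ≤ 2 := by
  induction N, hN using Nat.le_induction with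
  | base => simp
  | succ N hN ih =>
    rw [show Icc 2 (N + 1) = insert (N + 1) (Icc 2 N) from by
      ext x
      simp only [mem_Icc, mem_insert]
      omega, sum_insert (by simp)]
    have hN0 : (0 : ℝ) < N := by exact_mod_cast hN
    have hb : 0 < √((N + 1 : ℕ) : ℝ) := Real.sqrt_pos.2 (by positivity)
    have ha : 0 < √(N : ℝ) := Real.sqrt_pos.2 hN0
    have hb2 : √((N + 1 : ℕ) : ℝ) * √((N + 1 : ℕ) : ℝ) = N + 1 := by
      rw [Real.mul_self_sqrt (by positivity)]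
      push_cast
      ring
    have ha2 : √(N : ℝ) * √(N : ℝ) = N := Real.mul_self_sqrt hN0.le
    have hc : (((N + 1 : ℕ) : ℕ) : ℝ) = √((N + 1 : ℕ) : ℝ) * √((N + 1 : ℕ) : ℝ) := by
      rw [hb2]; push_cast; ring
    have hab : √(N : ℝ) ≤ √((N + 1 : ℕ) : ℝ) := Real.sqrt_le_sqrt (by push_cast; linarith)
    have h1 : 1 / (((N + 1 : ℕ) : ℝ) * √((N + 1 : ℕ) : ℝ)) + 2 / √((N + 1 : ℕ) : ℝ) ≤ 2 / √(N : ℝ) := by
      generalize √((N + 1 : ℕ) : ℝ) = b at *
      generalize √(N : ℝ) = a at *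
      rw [hc]
      have h2 : 1 / (b * b * b) + 2 / b = (1 + 2 * (b * b)) / (b * b * b) := by
        field_simp
      rw [h2, div_le_div_iff₀ (by positivity) ha]
      have h3 : b * b = a * a + 1 := by linarith
      have h4 : (b - a) * (b + a) = 1 := by nlinarith
      have h5 : 0 ≤ b - a := by linarith
      -- a(1+2b²) ≤ 2 b³
      have h6 : 2 * (b * b * b) - (1 + 2 * (b * b)) * a = 2 * (b * b) * (b - a) - a := by ring
      have h7 : a = a * ((b - a) * (b + a)) := by rw [h4, mul_one]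
      have h8 : a * (b + a) ≤ 2 * (b * b) := by nlinarith
      have h9 : a * ((b - a) * (b + a)) ≤ 2 * (b * b) * (b - a) := by
        calc a * ((b - a) * (b + a)) = a * (b + a) * (b - a) := by ring
          _ ≤ 2 * (b * b) * (b - a) := mul_le_mul_of_nonneg_right h8 h5
      linarith
    linarith

private theorem minA_pwU (U : Finset ℕ) (hU : ∀ p ∈ U, 2 ≤ p) :
    ∑ p ∈ U, 1 / ((p : ℝ) * √(p : ℝ)) ≤ 2 := by
  have h1 : U ⊆ Icc 2 (U.sup id + 1) := by
    intro p hp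
    rw [mem_Icc]
    have : p ≤ U.sup id := le_sup (f := id) hp
    exact ⟨hU p hp, by omega⟩
  have h2 := minA_pw (U.sup id + 1) (by omega)
  have h3 : ∑ p ∈ U, 1 / ((p : ℝ) * √(p : ℝ)) ≤
      ∑ n ∈ Icc 2 (U.sup id + 1), 1 / ((n : ℝ) * √(n : ℝ)) :=
    sum_le_sum_of_subset_of_nonneg h1 fun _ _ _ => by positivity
  have h4 : 0 ≤ 2 / √((U.sup id + 1 : ℕ) : ℝ) := by positivity
  linarith

private theorem minA_lip (g : ℕ → ℂ) (hg : ∀ n, ‖g (n + 1) - g n‖ ≤ 2) (a b : ℕ) :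
    ‖g (a + b) - g a‖ ≤ 2 * b := by
  induction b with
  | zero => simp
  | succ b ih =>
    have h1 := hg (a + b)
    calc ‖g (a + (b + 1)) - g a‖ = ‖(g (a + b + 1) - g (a + b)) + (g (a + b) - g a)‖ := by
          congr 1
          rw [← add_assoc]
          ring
      _ ≤ ‖g (a + b + 1) - g (a + b)‖ + ‖g (a + b) - g a‖ := norm_add_le _ _
      _ ≤ 2 + 2 * b := add_le_add h1 ih
      _ = 2 * ((b + 1 : ℕ) : ℝ) := by push_cast; ring

private theorem minA_offd (g : ℕ → ℂ) (D X Q p q : ℕ) (β δ : ℝ) (hδ : 0 < δ)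
    (hβ : ∀ b : ℤ, δ ≤ |β - b|) (hD : ∀ n, ‖g n‖ ≤ D) (hl : ∀ n, ‖g (n + 1) - g n‖ ≤ 2)
    (hz : ∀ n, n ∉ Ico X (3 * X) → g n = 0) (hp : 1 ≤ p) (hpQ : p ≤ Q) (hqQ : q ≤ Q) :
    ‖∑ m ∈ range (3 * X), e (m * β) * (((√(m : ℝ) : ℝ) : ℂ) *
      (g (p * m) * (starRingEnd ℂ) (g (q * m))))‖ ≤
      1 / (2 * δ) * ((D : ℝ) ^ 2 * √(3 * X) + 3 * X * ((D : ℝ) ^ 2 + 4 * D * Q * √(3 * X))) := by
  have h0 : ∀ m, 3 * X ≤ m → g (p * m) = 0 := by
    intro m hm
    apply hz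
    rw [mem_Ico, not_and_or]
    right
    have : 1 * m ≤ p * m := Nat.mul_le_mul hp le_rfl
    omega
  have hD0 : (0 : ℝ) ≤ D := Nat.cast_nonneg _
  have hprod : ∀ m, ‖g (p * m) * (starRingEnd ℂ) (g (q * m))‖ ≤ (D : ℝ) ^ 2 := by
    intro m
    rw [norm_mul, RCLike.norm_conj, sq]
    exact mul_le_mul (hD _) (hD _) (norm_nonneg _) hD0
  have hsq : ∀ m : ℕ, m < 3 * X → √(m : ℝ) ≤ √(3 * X) := by
    intro m hm
    apply Real.sqrt_le_sqrt
    have : ((m : ℕ) : ℝ) ≤ ((3 * X : ℕ) : ℝ) := by exact_mod_cast hm.le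
    push_cast at this
    exact this
  have key := abl β δ hδ hβ (fun m => ((√(m : ℝ) : ℝ) : ℂ) *
      (g (p * m) * (starRingEnd ℂ) (g (q * m)))) (3 * X) ((D : ℝ) ^ 2 * √(3 * X))
      ((D : ℝ) ^ 2 + 4 * D * Q * √(3 * X)) ?_ ?_
  · push_cast at key
    exact key
  · intro m
    by_cases hm : 3 * X ≤ m
    · rw [h0 m hm, zero_mul, mul_zero, norm_zero]
      positivity
    · rw [norm_mul, Complex.norm_real, Real.norm_eq_abs, abs_of_nonneg (Real.sqrt_nonneg _), mul_comm]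
      exact mul_le_mul (hprod m) (hsq m (by omega)) (Real.sqrt_nonneg _) (by positivity)
  · intro m
    by_cases hm : 3 * X ≤ m
    · rw [h0 m hm, h0 (m + 1) (by omega), zero_mul, zero_mul, mul_zero, mul_zero, sub_zero, norm_zero]
      positivity
    · have h1 : ((√((m + 1 : ℕ) : ℝ) : ℝ) : ℂ) * (g (p * (m + 1)) * (starRingEnd ℂ) (g (q * (m + 1)))) -
          ((√(m : ℝ) : ℝ) : ℂ) * (g (p * m) * (starRingEnd ℂ) (g (q * m))) =
          ((√((m + 1 : ℕ) : ℝ) - √(m : ℝ) : ℝ) : ℂ) *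
            (g (p * (m + 1)) * (starRingEnd ℂ) (g (q * (m + 1)))) +
          ((√(m : ℝ) : ℝ) : ℂ) * ((g (p * (m + 1)) - g (p * m)) * (starRingEnd ℂ) (g (q * (m + 1))) +
            g (p * m) * (starRingEnd ℂ) (g (q * (m + 1)) - g (q * m))) := by
        rw [map_sub]
        push_cast
        ring
      rw [h1]
      have h2 : ‖((√((m + 1 : ℕ) : ℝ) - √(m : ℝ) : ℝ) : ℂ)‖ ≤ 1 := by
        rw [Complex.norm_real, Real.norm_eq_abs]
        have h3 : √(m : ℝ) ≤ √((m + 1 : ℕ) : ℝ) := Real.sqrt_le_sqrt (by push_cast; linarith)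
        rw [abs_of_nonneg (by linarith)]
        have h4 : √((m + 1 : ℕ) : ℝ) ≤ √(m : ℝ) + 1 := by
          rw [Real.sqrt_le_left (by positivity)]
          have : √(m : ℝ) ^ 2 = m := Real.sq_sqrt (by positivity)
          push_cast
          nlinarith [Real.sqrt_nonneg (m : ℝ)]
        linarith
      have h5 : ‖(g (p * (m + 1)) - g (p * m)) * (starRingEnd ℂ) (g (q * (m + 1)))‖ ≤ 2 * Q * D := by
        rw [norm_mul, RCLike.norm_conj]
        have h6 := minA_lip g hl (p * m) p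
        rw [← mul_add_one] at h6
        have h7 : (p : ℝ) ≤ Q := by exact_mod_cast hpQ
        exact mul_le_mul (by linarith) (hD _) (norm_nonneg _) (by positivity)
      have h8 : ‖g (p * m) * (starRingEnd ℂ) (g (q * (m + 1)) - g (q * m))‖ ≤ D * (2 * Q) := by
        rw [norm_mul, RCLike.norm_conj]
        have h6 := minA_lip g hl (q * m) q
        rw [← mul_add_one] at h6
        have h7 : (q : ℝ) ≤ Q := by exact_mod_cast hqQ
        exact mul_le_mul (hD _) (by linarith) (norm_nonneg _) (by positivity)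
      refine (norm_add_le _ _).trans ?_
      rw [norm_mul, norm_mul (((√(m : ℝ) : ℝ) : ℂ)), Complex.norm_real (√(m : ℝ)),
        Real.norm_eq_abs (√(m : ℝ)), abs_of_nonneg (Real.sqrt_nonneg (m : ℝ))]
      have h9 := hprod (m + 1)
      have h10 : ‖((√((m + 1 : ℕ) : ℝ) - √(m : ℝ) : ℝ) : ℂ)‖ *
          ‖g (p * (m + 1)) * (starRingEnd ℂ) (g (q * (m + 1)))‖ ≤ 1 * (D : ℝ) ^ 2 :=
        mul_le_mul h2 h9 (norm_nonneg _) zero_le_one
      have h11 : √(m : ℝ) * ‖(g (p * (m + 1)) - g (p * m)) * (starRingEnd ℂ) (g (q * (m + 1))) +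
            g (p * m) * (starRingEnd ℂ) (g (q * (m + 1)) - g (q * m))‖ ≤
          √(3 * X) * (2 * Q * D + D * (2 * Q)) :=
        mul_le_mul (hsq m (by omega)) ((norm_add_le _ _).trans (add_le_add h5 h8)) (norm_nonneg _)
          (Real.sqrt_nonneg _)
      calc _ ≤ 1 * (D : ℝ) ^ 2 + √(3 * X) * (2 * Q * D + D * (2 * Q)) := add_le_add h10 h11
        _ = _ := by ring

private theorem minA_diag (g : ℕ → ℂ) (D X p : ℕ) (hD : ∀ n, ‖g n‖ ≤ D)
    (hz : ∀ n, n ∉ Ico X (3 * X) → g n = 0) (hp : 1 ≤ p) (β : ℝ) :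
    ‖∑ m ∈ range (3 * X), e (m * β) * (((√(m : ℝ) : ℝ) : ℂ) *
      (g (p * m) * (starRingEnd ℂ) (g (p * m))))‖ ≤
      (D : ℝ) ^ 2 * (3 * X * √(3 * X)) * (1 / ((p : ℝ) * √(p : ℝ))) := by
  have hD0 : (0 : ℝ) ≤ D := Nat.cast_nonneg _
  have hp0 : (0 : ℝ) < p := by exact_mod_cast hp
  have h1 : ∀ m ∈ range (3 * X), ‖e (m * β) * (((√(m : ℝ) : ℝ) : ℂ) *
      (g (p * m) * (starRingEnd ℂ) (g (p * m))))‖ ≤
      if m ∈ Icc 1 (3 * X / p) then √(3 * X / p) * (D : ℝ) ^ 2 else 0 := by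
    intro m _
    rw [norm_mul, e_norm, one_mul, norm_mul, Complex.norm_real, Real.norm_eq_abs,
      abs_of_nonneg (Real.sqrt_nonneg _)]
    split_ifs with hm
    · rw [mem_Icc] at hm
      have h2 : ((m : ℕ) : ℝ) ≤ 3 * X / p := by
        have h3 : p * m ≤ 3 * X := by
          rw [mul_comm]
          exact (Nat.le_div_iff_mul_le hp).1 hm.2
        rw [le_div_iff₀ hp0]
        have : ((p * m : ℕ) : ℝ) ≤ ((3 * X : ℕ) : ℝ) := by exact_mod_cast h3
        push_cast at this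
        linarith
      apply mul_le_mul (Real.sqrt_le_sqrt h2) _ (norm_nonneg _) (Real.sqrt_nonneg _)
      rw [norm_mul, RCLike.norm_conj, sq]
      exact mul_le_mul (hD _) (hD _) (norm_nonneg _) hD0
    · rw [mem_Icc, not_and_or] at hm
      rcases hm with hm | hm
      · have : m = 0 := by omega
        subst this
        simp
      · have h3 : ¬ (p * m ≤ 3 * X) := by
          intro h
          apply hm
          rw [Nat.le_div_iff_mul_le hp, mul_comm]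
          exact h
        rw [hz (p * m) (by rw [mem_Ico]; omega)]
        simp
  refine (norm_sum_le _ _).trans ((sum_le_sum h1).trans ?_)
  rw [← sum_filter, sum_const, nsmul_eq_mul]
  have h4 : (((range (3 * X)).filter (fun m => m ∈ Icc 1 (3 * X / p))).card : ℝ) ≤ 3 * X / p := by
    have h5 : ((range (3 * X)).filter (fun m => m ∈ Icc 1 (3 * X / p))).card ≤ 3 * X / p := by
      calc ((range (3 * X)).filter (fun m => m ∈ Icc 1 (3 * X / p))).card
          ≤ (Icc 1 (3 * X / p)).card := card_le_card fun m hm => (mem_filter.1 hm).2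
        _ = 3 * X / p := by rw [Nat.card_Icc, Nat.add_sub_cancel]
    calc (((range (3 * X)).filter (fun m => m ∈ Icc 1 (3 * X / p))).card : ℝ)
        ≤ ((3 * X / p : ℕ) : ℝ) := by exact_mod_cast h5
      _ ≤ ((3 * X : ℕ) : ℝ) / p := Nat.cast_div_le
      _ = 3 * X / p := by push_cast; ring
  calc (((range (3 * X)).filter (fun m => m ∈ Icc 1 (3 * X / p))).card : ℝ) *
        (√(3 * X / p) * (D : ℝ) ^ 2) ≤ 3 * X / p * (√(3 * X / p) * (D : ℝ) ^ 2) :=
        mul_le_mul_of_nonneg_right h4 (by positivity)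
    _ = _ := by
        rw [Real.sqrt_div (by positivity)]
        have : √(p : ℝ) ≠ 0 := (Real.sqrt_pos.2 hp0).ne'
        field_simp

private theorem minA_quad (U : Finset ℕ) (α : ℝ) (g : ℕ → ℂ) (m : ℕ) :
    (((√(m : ℝ) * ‖∑ p ∈ U, e (((p * m : ℕ) : ℝ) * α) * g (p * m)‖ ^ 2 : ℝ)) : ℂ) =
      ∑ p ∈ U, ∑ q ∈ U, e (m * (((p : ℝ) - q) * α)) * (((√(m : ℝ) : ℝ) : ℂ) *
        (g (p * m) * (starRingEnd ℂ) (g (q * m)))) := by
  rw [Complex.ofReal_mul, Complex.ofReal_pow, ← Complex.mul_conj', map_sum, sum_mul_sum, mul_sum]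
  refine sum_congr rfl fun p _ => ?_
  rw [mul_sum]
  refine sum_congr rfl fun q _ => ?_
  rw [map_mul, ← e_neg]
  have h1 : e (m * (((p : ℝ) - q) * α)) =
      e (((p * m : ℕ) : ℝ) * α) * e (-(((q * m : ℕ) : ℝ) * α)) := by
    rw [← e_add]
    congr 1
    push_cast
    ring
  rw [h1]
  ring

theorem minA (U : Finset ℕ) (hU : ∀ p ∈ U, p.Prime) (hL : 0 < ∑ p ∈ U, 1 / (p : ℝ)) :
    ∃ C₀ : ℝ, 0 < C₀ ∧ ∀ D : ℕ, 1 ≤ D → ∃ X0 : ℕ, ∀ X : ℕ, X0 ≤ X → ∀ α : ℝ,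
      (∀ p ∈ U, ∀ p' ∈ U, p ≠ p' → ∀ b : ℤ, C₀ / D ≤ |((p : ℝ) - p') * α - b|) →
      ∀ g : ℕ → ℂ, (∀ n, ‖g n‖ ≤ D) → (∀ n, ‖g (n + 1) - g n‖ ≤ 2) → (∀ n, n ∉ Ico X (3 * X) → g n = 0) →
      ‖∑ n ∈ Ico X (3 * X), (lam n : ℂ) * e (n * α) * g n‖ ≤
        (3 / √(∑ p ∈ U, 1 / (p : ℝ)) + 10 / ∑ p ∈ U, 1 / (p : ℝ)) * D * X := by
  obtain ⟨X1, hX1⟩ := tk U hU
  set L : ℝ := ∑ p ∈ U, 1 / (p : ℝ) with hLdef
  set Q : ℕ := U.sup id with hQ
  have hpQ : ∀ p ∈ U, p ≤ Q := fun p hp => le_sup (f := id) hp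
  set C₀ : ℝ := (U.card : ℝ) ^ 2 * (2 + 36 * Q) + 1 with hC₀
  have hC0 : 0 < C₀ := by positivity
  refine ⟨C₀, hC0, fun D hD => ⟨max (max X1 1) (27 * D ^ 2), fun X hX α hα g hgD hgl hgz => ?_⟩⟩
  have hXX1 : X1 ≤ X := (le_max_left _ _).trans ((le_max_left _ _).trans hX)
  have hX1' : 1 ≤ X := (le_max_right _ _).trans ((le_max_left _ _).trans hX)
  have hX27 : 27 * D ^ 2 ≤ X := (le_max_right _ _).trans hX
  have hX0 : (0 : ℝ) < X := by exact_mod_cast hX1'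
  have hD0 : (0 : ℝ) < D := by exact_mod_cast hD
  have hD1 : (1 : ℝ) ≤ D := by exact_mod_cast hD
  have hX27r : 27 * (D : ℝ) ^ 2 ≤ X := by exact_mod_cast hX27
  set h : ℕ → ℂ := fun n => (lam n : ℂ) * e (n * α) * g n with hh
  have hg0 : g 0 = 0 := hgz 0 (by rw [mem_Ico]; omega)
  have hhn : ∀ n, ‖h n‖ ≤ D := by
    intro n
    simp only [hh]
    rw [norm_mul, norm_mul, lam_norm, e_norm, one_mul, one_mul]
    exact hgD n
  -- the decomposition
  have e1 : (L : ℂ) * ∑ n ∈ Ico X (3 * X), h n =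
      ∑ n ∈ Ico X (3 * X), ((L - (U.filter (fun p => p ∣ n)).card : ℝ) : ℂ) * h n +
      ∑ n ∈ Ico X (3 * X), (((U.filter (fun p => p ∣ n)).card : ℝ) : ℂ) * h n := by
    rw [mul_sum, ← sum_add_distrib]
    refine sum_congr rfl fun n _ => ?_
    push_cast
    ring
  -- first part
  have e2 : ‖∑ n ∈ Ico X (3 * X), ((L - (U.filter (fun p => p ∣ n)).card : ℝ) : ℂ) * h n‖ ≤
      3 * √L * D * X := by
    set w : ℕ → ℝ := fun n => |((U.filter (fun p => p ∣ n)).card : ℝ) - L| with hw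
    have h1 : ‖∑ n ∈ Ico X (3 * X), ((L - (U.filter (fun p => p ∣ n)).card : ℝ) : ℂ) * h n‖ ≤
        (∑ n ∈ Ico X (3 * X), w n) * D := by
      rw [sum_mul]
      refine (norm_sum_le _ _).trans (sum_le_sum fun n _ => ?_)
      rw [norm_mul, Complex.norm_real, Real.norm_eq_abs, abs_sub_comm]
      exact mul_le_mul_of_nonneg_left (hhn n) (abs_nonneg _)
    have h2 : (∑ n ∈ Ico X (3 * X), w n) ^ 2 ≤ 2 * X * (3 * L * X) := by
      have h3 := sum_mul_sq_le_sq_mul_sq (Ico X (3 * X)) (fun _ => (1 : ℝ)) w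
      have h4 : ∑ n ∈ Ico X (3 * X), (1 : ℝ) ^ 2 = 2 * X := by
        rw [one_pow, sum_const, Nat.card_Ico, nsmul_eq_mul, mul_one, show 3 * X - X = 2 * X by omega]
        push_cast
        ring
      have h5 : ∑ n ∈ Ico X (3 * X), w n ^ 2 ≤ 3 * L * X := by
        have h6 := hX1 X hXX1
        simp only [hw, sq_abs]
        exact h6
      simp only [one_mul] at h3
      rw [h4] at h3
      exact h3.trans (mul_le_mul_of_nonneg_left h5 (by positivity))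
    have h7 : ∑ n ∈ Ico X (3 * X), w n ≤ 3 * √L * X := by
      apply le_of_sq_le_sq (h2.trans _) (by positivity)
      have h8 : √L ^ 2 = L := Real.sq_sqrt hL.le
      calc 2 * (X : ℝ) * (3 * L * X) = 6 * (L * X ^ 2) := by ring
        _ ≤ 9 * (L * X ^ 2) := by
            have : 0 ≤ L * (X : ℝ) ^ 2 := by positivity
            linarith
        _ = (3 * √L * X) ^ 2 := by rw [mul_pow, mul_pow, h8]; ring
    calc _ ≤ _ := h1
      _ ≤ 3 * √L * X * D := mul_le_mul_of_nonneg_right h7 hD0.le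
      _ = _ := by ring
  -- second part
  set F : ℕ → ℂ := fun m => ∑ p ∈ U, e (((p * m : ℕ) : ℝ) * α) * g (p * m) with hF
  have e3 : ∑ n ∈ Ico X (3 * X), (((U.filter (fun p => p ∣ n)).card : ℝ) : ℂ) * h n =
      -∑ m ∈ range (3 * X), (lam m : ℂ) * F m := by
    have h1 : ∀ n, (((U.filter (fun p => p ∣ n)).card : ℝ) : ℂ) * h n =
        ∑ p ∈ U, if p ∣ n then h n else 0 := by
      intro n
      rw [← sum_filter, sum_const, nsmul_eq_mul]
      push_cast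
      rfl
    have h12 : ∑ m ∈ range (3 * X), (lam m : ℂ) * F m = ∑ p ∈ U, ∑ m ∈ range (3 * X),
        (lam m : ℂ) * (e (((p * m : ℕ) : ℝ) * α) * g (p * m)) := by
      simp only [hF, mul_sum]
      rw [sum_comm]
    rw [h12, sum_congr rfl fun n _ => h1 n, sum_comm, ← sum_neg_distrib]
    refine sum_congr rfl fun p hp => ?_
    have hpp := hU p hp
    have h2 : ∑ n ∈ Ico X (3 * X), (if p ∣ n then h n else 0) = ∑ m ∈ range (3 * X), h (p * m) := by
      have h3 : ∑ n ∈ Ico X (3 * X), (if p ∣ n then h n else 0) =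
          ∑ n ∈ (range (3 * X * p)).filter (fun n => p ∣ n), h n := by
        rw [sum_filter]
        apply sum_subset
        · intro n hn
          rw [mem_Ico] at hn
          rw [mem_range]
          have : 3 * X * 1 ≤ 3 * X * p := Nat.mul_le_mul le_rfl hpp.one_lt.le
          omega
        · intro n _ hn
          have : h n = 0 := by
            simp only [hh]
            rw [hgz n hn, mul_zero]
          simp [this]
      rw [h3]
      refine sum_nbij' (fun n => n / p) (fun m => p * m) ?_ ?_ ?_ ?_ ?_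
      · intro n hn
        rw [mem_filter, mem_range] at hn
        rw [mem_range]
        exact Nat.div_lt_of_lt_mul (by rw [mul_comm p]; exact hn.1)
      · intro m hm
        rw [mem_range] at hm
        rw [mem_filter, mem_range]
        refine ⟨?_, dvd_mul_right _ _⟩
        rw [mul_comm]
        exact Nat.mul_lt_mul_of_pos_right hm hpp.pos
      · intro n hn
        rw [mem_filter] at hn
        exact Nat.mul_div_cancel' hn.2
      · intro m _
        exact Nat.mul_div_cancel_left m hpp.pos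
      · intro n hn
        rw [mem_filter] at hn
        rw [Nat.mul_div_cancel' hn.2]
    rw [h2, ← sum_neg_distrib]
    refine sum_congr rfl fun m _ => ?_
    simp only [hh]
    rcases Nat.eq_zero_or_pos m with hm | hm
    · subst hm
      rw [mul_zero, hg0]
      ring
    · rw [lam_prime_mul hpp hm]
      push_cast
      ring
  have hF0 : F 0 = 0 := by
    simp only [hF]
    refine sum_eq_zero fun p _ => ?_
    rw [mul_zero, hg0, mul_zero]
  set T : ℝ := ∑ m ∈ Ico 1 (3 * X), ‖F m‖ with hT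
  have hT0 : 0 ≤ T := sum_nonneg fun _ _ => norm_nonneg _
  have e4 : ‖∑ n ∈ Ico X (3 * X), (((U.filter (fun p => p ∣ n)).card : ℝ) : ℂ) * h n‖ ≤ T := by
    rw [e3, norm_neg]
    refine (norm_sum_le _ _).trans ?_
    have h1 : ∀ m ∈ range (3 * X), ‖(lam m : ℂ) * F m‖ = ‖F m‖ := by
      intro m _
      rw [norm_mul, lam_norm, one_mul]
    rw [sum_congr rfl h1, hT, range_eq_Ico, sum_eq_sum_Ico_succ_bot (by omega), hF0, norm_zero, zero_add]
  set y : ℝ := √(3 * X) with hy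
  have hy0 : 0 ≤ y := Real.sqrt_nonneg _
  have hy2 : y * y = 3 * X := Real.mul_self_sqrt (by positivity)
  have e5 : T ^ 2 ≤ (2 * y) * ∑ m ∈ range (3 * X), √(m : ℝ) * ‖F m‖ ^ 2 := by
    have h1 : T ^ 2 ≤ (∑ m ∈ Ico 1 (3 * X), 1 / √(m : ℝ)) *
        ∑ m ∈ Ico 1 (3 * X), √(m : ℝ) * ‖F m‖ ^ 2 := by
      apply sum_sq_le_sum_mul_sum_of_sq_le_mul
      · intro m _
        positivity
      · intro m _
        positivity
      · intro m hm
        rw [mem_Ico] at hm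
        have : √(m : ℝ) ≠ 0 := by
          apply (Real.sqrt_pos.2 _).ne'
          exact_mod_cast hm.1
        apply le_of_eq
        field_simp
    have h2 : ∑ m ∈ Ico 1 (3 * X), 1 / √(m : ℝ) ≤ 2 * y := by
      have h3 := minA_sqrtsum (3 * X)
      have h4 : ∑ m ∈ Ico 1 (3 * X), 1 / √(m : ℝ) ≤ ∑ m ∈ Ico 1 (3 * X + 1), 1 / √(m : ℝ) :=
        sum_le_sum_of_subset_of_nonneg (Ico_subset_Ico le_rfl (by omega)) fun _ _ _ => by positivity
      push_cast at h3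
      exact h4.trans h3
    have h3 : ∑ m ∈ Ico 1 (3 * X), √(m : ℝ) * ‖F m‖ ^ 2 ≤
        ∑ m ∈ range (3 * X), √(m : ℝ) * ‖F m‖ ^ 2 := by
      apply sum_le_sum_of_subset_of_nonneg
      · rw [range_eq_Ico]
        exact Ico_subset_Ico (by omega) le_rfl
      · intro _ _ _
        positivity
    exact h1.trans (mul_le_mul h2 h3 (sum_nonneg fun _ _ => by positivity) (by positivity))
  set off : ℝ := 1 / (2 * (C₀ / D)) * ((D : ℝ) ^ 2 * y + 3 * X * ((D : ℝ) ^ 2 + 4 * D * Q * y)) with hoff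
  have hoff0 : 0 ≤ off := by positivity
  have e6 : ∑ m ∈ range (3 * X), √(m : ℝ) * ‖F m‖ ^ 2 ≤
      (D : ℝ) ^ 2 * (3 * X * y) * 2 + (U.card : ℝ) ^ 2 * off := by
    have h1 : (((∑ m ∈ range (3 * X), √(m : ℝ) * ‖F m‖ ^ 2 : ℝ)) : ℂ) =
        ∑ p ∈ U, ∑ q ∈ U, ∑ m ∈ range (3 * X), e (m * (((p : ℝ) - q) * α)) * (((√(m : ℝ) : ℝ) : ℂ) *
        (g (p * m) * (starRingEnd ℂ) (g (q * m)))) := by
      rw [Complex.ofReal_sum, sum_congr rfl fun m _ => minA_quad U α g m, sum_comm]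
      refine sum_congr rfl fun p _ => ?_
      rw [sum_comm]
    have h2 : ∑ m ∈ range (3 * X), √(m : ℝ) * ‖F m‖ ^ 2 =
        ‖(((∑ m ∈ range (3 * X), √(m : ℝ) * ‖F m‖ ^ 2 : ℝ)) : ℂ)‖ := by
      rw [Complex.norm_real, Real.norm_eq_abs, abs_of_nonneg]
      exact sum_nonneg fun _ _ => by positivity
    rw [h2, h1]
    have h3 : ∀ p ∈ U, ∀ q ∈ U,
        ‖∑ m ∈ range (3 * X), e (m * (((p : ℝ) - q) * α)) * (((√(m : ℝ) : ℝ) : ℂ) *
          (g (p * m) * (starRingEnd ℂ) (g (q * m))))‖ ≤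
        (if q = p then (D : ℝ) ^ 2 * (3 * X * y) * (1 / ((p : ℝ) * √(p : ℝ))) else 0) + off := by
      intro p hp q hq
      split_ifs with hpq
      · subst hpq
        have := minA_diag g D X q hgD hgz (hU q hq).one_lt.le (((q : ℝ) - q) * α)
        linarith
      · have := minA_offd g D X Q p q (((p : ℝ) - q) * α) (C₀ / D) (by positivity)
          (hα p hp q hq (Ne.symm hpq)) hgD hgl hgz (hU p hp).one_lt.le (hpQ p hp) (hpQ q hq)
        rw [zero_add]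
        exact this
    have h4 : ∀ p ∈ U, ‖∑ q ∈ U, ∑ m ∈ range (3 * X), e (m * (((p : ℝ) - q) * α)) *
        (((√(m : ℝ) : ℝ) : ℂ) * (g (p * m) * (starRingEnd ℂ) (g (q * m))))‖ ≤
        (D : ℝ) ^ 2 * (3 * X * y) * (1 / ((p : ℝ) * √(p : ℝ))) + U.card * off := by
      intro p hp
      refine (norm_sum_le _ _).trans ((sum_le_sum (h3 p hp)).trans (le_of_eq ?_))
      rw [sum_add_distrib, sum_const, nsmul_eq_mul, sum_ite_eq' U p, if_pos hp]
    refine (norm_sum_le _ _).trans ((sum_le_sum h4).trans ?_)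
    rw [sum_add_distrib, sum_const, nsmul_eq_mul, ← mul_sum]
    have h5 := minA_pwU U (fun p hp => (hU p hp).two_le)
    have h6 : (D : ℝ) ^ 2 * (3 * X * y) * ∑ p ∈ U, 1 / ((p : ℝ) * √(p : ℝ)) ≤
        (D : ℝ) ^ 2 * (3 * X * y) * 2 := mul_le_mul_of_nonneg_left h5 (by positivity)
    calc _ ≤ (D : ℝ) ^ 2 * (3 * X * y) * 2 + (U.card : ℝ) * (U.card * off) := by linarith
      _ = _ := by ring
  have e7 : T ^ 2 ≤ (10 * D * X) ^ 2 := by
    refine e5.trans ((mul_le_mul_of_nonneg_left e6 (by positivity)).trans ?_)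
    have h1 : 2 * y * ((D : ℝ) ^ 2 * (3 * X * y) * 2 + (U.card : ℝ) ^ 2 * off) =
        12 * X * (D : ℝ) ^ 2 * (y * y) + (U.card : ℝ) ^ 2 * (2 * y * off) := by ring
    have h2 : 2 * y * off = (D / C₀) * ((D : ℝ) ^ 2 * (y * y) + 3 * X * (D : ℝ) ^ 2 * y +
        12 * D * Q * X * (y * y)) := by
      rw [hoff]
      field_simp
      ring
    have h3 : 3 * y * D ≤ X := by
      apply le_of_sq_le_sq _ hX0.le
      calc (3 * y * D) ^ 2 = 9 * (y * y) * D ^ 2 := by ring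
        _ = 27 * (D : ℝ) ^ 2 * X := by rw [hy2]; ring
        _ ≤ X * X := mul_le_mul_of_nonneg_right hX27r hX0.le
        _ = (X : ℝ) ^ 2 := by ring
    have h4 : 3 * (D : ℝ) ≤ X := by nlinarith
    have h5 : (D : ℝ) * ((D : ℝ) ^ 2 * (y * y) + 3 * X * (D : ℝ) ^ 2 * y +
        12 * D * Q * X * (y * y)) ≤ (2 + 36 * Q) * ((D : ℝ) ^ 2 * X ^ 2) := by
      rw [hy2]
      have h6 : (D : ℝ) * ((D : ℝ) ^ 2 * (3 * X)) ≤ (D : ℝ) ^ 2 * X ^ 2 := by
        calc (D : ℝ) * ((D : ℝ) ^ 2 * (3 * X)) = (D : ℝ) ^ 2 * X * (3 * D) := by ring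
          _ ≤ (D : ℝ) ^ 2 * X * X := mul_le_mul_of_nonneg_left h4 (by positivity)
          _ = _ := by ring
      have h7 : (D : ℝ) * (3 * X * (D : ℝ) ^ 2 * y) ≤ (D : ℝ) ^ 2 * X ^ 2 := by
        calc (D : ℝ) * (3 * X * (D : ℝ) ^ 2 * y) = (D : ℝ) ^ 2 * X * (3 * y * D) := by ring
          _ ≤ (D : ℝ) ^ 2 * X * X := mul_le_mul_of_nonneg_left h3 (by positivity)
          _ = _ := by ring
      have h8 : (D : ℝ) * (12 * D * Q * X * (3 * X)) = 36 * Q * ((D : ℝ) ^ 2 * X ^ 2) := by ring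
      calc _ = (D : ℝ) * ((D : ℝ) ^ 2 * (3 * X)) + (D : ℝ) * (3 * X * (D : ℝ) ^ 2 * y) +
            (D : ℝ) * (12 * D * Q * X * (3 * X)) := by ring
        _ ≤ _ := by rw [h8]; linarith
    have h9 : (U.card : ℝ) ^ 2 * (2 * y * off) ≤ (D : ℝ) ^ 2 * X ^ 2 := by
      rw [h2]
      have h10 : (U.card : ℝ) ^ 2 * (2 + 36 * Q) ≤ C₀ := by rw [hC₀]; linarith
      calc (U.card : ℝ) ^ 2 * (D / C₀ * ((D : ℝ) ^ 2 * (y * y) + 3 * X * (D : ℝ) ^ 2 * y +
            12 * D * Q * X * (y * y)))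
          = (U.card : ℝ) ^ 2 / C₀ * ((D : ℝ) * ((D : ℝ) ^ 2 * (y * y) + 3 * X * (D : ℝ) ^ 2 * y +
            12 * D * Q * X * (y * y))) := by ring
        _ ≤ (U.card : ℝ) ^ 2 / C₀ * ((2 + 36 * Q) * ((D : ℝ) ^ 2 * X ^ 2)) :=
            mul_le_mul_of_nonneg_left h5 (by positivity)
        _ = ((U.card : ℝ) ^ 2 * (2 + 36 * Q)) / C₀ * ((D : ℝ) ^ 2 * X ^ 2) := by ring
        _ ≤ 1 * ((D : ℝ) ^ 2 * X ^ 2) := by
            apply mul_le_mul_of_nonneg_right _ (by positivity)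
            rw [div_le_one hC0]
            exact h10
        _ = _ := one_mul _
    rw [h1, hy2]
    have h11 : 0 ≤ (D : ℝ) ^ 2 * X ^ 2 := by positivity
    calc 12 * (X : ℝ) * (D : ℝ) ^ 2 * (3 * X) + (U.card : ℝ) ^ 2 * (2 * y * off)
        ≤ 36 * ((D : ℝ) ^ 2 * X ^ 2) + (D : ℝ) ^ 2 * X ^ 2 := by nlinarith
      _ ≤ (10 * (D : ℝ) * X) ^ 2 := by nlinarith
  have e8 : T ≤ 10 * D * X := le_of_sq_le_sq e7 (by positivity)
  -- conclusion
  have e9 : L * ‖∑ n ∈ Ico X (3 * X), h n‖ ≤ (3 * √L + 10) * D * X := by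
    have h1 : L * ‖∑ n ∈ Ico X (3 * X), h n‖ = ‖(L : ℂ) * ∑ n ∈ Ico X (3 * X), h n‖ := by
      rw [norm_mul, Complex.norm_real, Real.norm_eq_abs, abs_of_pos hL]
    rw [h1, e1]
    refine (norm_add_le _ _).trans ?_
    calc _ ≤ 3 * √L * D * X + 10 * D * X := add_le_add e2 (e4.trans e8)
      _ = _ := by ring
  have hsL : 0 < √L := Real.sqrt_pos.2 hL
  have hsL2 : √L * √L = L := Real.mul_self_sqrt hL.le
  have h10 : (3 / √L + 10 / L) * D * X = ((3 * √L + 10) * D * X) / L := by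
    have h11 : 3 / √L = 3 * √L / L := by
      rw [div_eq_div_iff hsL.ne' hL.ne']
      rw [mul_assoc, hsL2]
    rw [h11]
    ring
  rw [h10, le_div_iff₀ hL, mul_comm]
  exact e9

end Pool.Agent.LLO
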