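import Pool.Agent.LLO.MinA

set_option autoImplicit false

/-! Module MinB: `c x = conj(V x)/|V x|` (`0` if `V x = 0`), `V x = V D α x`, so `∑_{x∈[X,2X)} |V x| = ∑ c x V x = ∑_n λ(n)e(nα) g(n)`,
`g(n) = ∑_{x ∈ [X,2X), x ≤ n < x+D} c x`.  `|g| ≤ D`, `g(n+1) - g(n) = c(n+1)[..] - c(n+1-D)[..]`, so `≤ 2`; `g = 0` outside `[X, 2X+D) ⊆ [X,3X)`
(for `X ≥ D`).  Apply `minA`. -/

open Finset

namespace Pool.Agent.LLO

private noncomputable def MinB_c (D : ℕ) (α : ℝ) (x : ℕ) : ℂ := (starRingEnd ℂ) (V D α x) / (‖V D α x‖ : ℂ)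

private theorem MinB_c_norm (D : ℕ) (α : ℝ) (x : ℕ) : ‖MinB_c D α x‖ ≤ 1 := by
  unfold MinB_c
  rw [norm_div, RCLike.norm_conj, Complex.norm_real, norm_norm]
  exact div_self_le_one _

private theorem MinB_c_mul (D : ℕ) (α : ℝ) (x : ℕ) : MinB_c D α x * V D α x = (‖V D α x‖ : ℂ) := by
  unfold MinB_c
  by_cases h : ‖V D α x‖ = 0
  · have h0 : V D α x = 0 := by simpa using h
    rw [h0]; simp
  · have hc : ((‖V D α x‖ : ℝ) : ℂ) ≠ 0 := by exact_mod_cast h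
    rw [div_mul_eq_mul_div, div_eq_iff hc, mul_comm, Complex.mul_conj, Complex.normSq_eq_norm_sq]
    push_cast
    ring

private noncomputable def MinB_g (D : ℕ) (α : ℝ) (X n : ℕ) : ℂ :=
  ∑ x ∈ (Ico X (2 * X)).filter (fun x => x ≤ n ∧ n < x + D), MinB_c D α x

private theorem MinB_g_norm (D : ℕ) (α : ℝ) (X n : ℕ) : ‖MinB_g D α X n‖ ≤ D := by
  unfold MinB_g
  calc ‖∑ x ∈ (Ico X (2 * X)).filter (fun x => x ≤ n ∧ n < x + D), MinB_c D α x‖
      ≤ ∑ x ∈ (Ico X (2 * X)).filter (fun x => x ≤ n ∧ n < x + D), ‖MinB_c D α x‖ := norm_sum_le _ _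
    _ ≤ ∑ x ∈ (Ico X (2 * X)).filter (fun x => x ≤ n ∧ n < x + D), (1 : ℝ) :=
        sum_le_sum (fun x _ => MinB_c_norm D α x)
    _ = (((Ico X (2 * X)).filter (fun x => x ≤ n ∧ n < x + D)).card : ℝ) := by simp
    _ ≤ D := by
        have h1 : (Ico X (2 * X)).filter (fun x => x ≤ n ∧ n < x + D) ⊆ Ico (n + 1 - D) (n + 1) := by
          intro x hx
          rw [mem_filter] at hx
          rw [mem_Ico]
          omega
        have h2 := card_le_card h1
        rw [Nat.card_Ico] at h2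
        have h3 : ((Ico X (2 * X)).filter (fun x => x ≤ n ∧ n < x + D)).card ≤ D := by omega
        exact_mod_cast h3

private theorem MinB_g_diff (D : ℕ) (α : ℝ) (X n : ℕ) : ‖MinB_g D α X (n + 1) - MinB_g D α X n‖ ≤ 2 := by
  unfold MinB_g
  rw [← sum_sdiff_sub_sum_sdiff]
  have key : ∀ s : Finset ℕ, s.card ≤ 1 → ‖∑ x ∈ s, MinB_c D α x‖ ≤ 1 := by
    intro s hs
    calc ‖∑ x ∈ s, MinB_c D α x‖ ≤ ∑ x ∈ s, ‖MinB_c D α x‖ := norm_sum_le _ _
      _ ≤ ∑ x ∈ s, (1 : ℝ) := sum_le_sum (fun x _ => MinB_c_norm D α x)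
      _ = (s.card : ℝ) := by simp
      _ ≤ 1 := by exact_mod_cast hs
  refine (norm_sub_le _ _).trans ?_
  have h1 := key ((Ico X (2 * X)).filter (fun x => x ≤ n + 1 ∧ n + 1 < x + D) \
    (Ico X (2 * X)).filter (fun x => x ≤ n ∧ n < x + D)) (by
      refine (card_le_card (t := {n + 1}) ?_).trans (by simp)
      intro x hx
      rw [mem_sdiff, mem_filter, mem_filter] at hx
      rw [mem_singleton]
      obtain ⟨⟨hx1, hx2, hx3⟩, hx4⟩ := hx
      by_contra hne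
      exact hx4 ⟨hx1, by omega, by omega⟩)
  have h2 := key ((Ico X (2 * X)).filter (fun x => x ≤ n ∧ n < x + D) \
    (Ico X (2 * X)).filter (fun x => x ≤ n + 1 ∧ n + 1 < x + D)) (by
      refine (card_le_card (t := {n + 1 - D}) ?_).trans (by simp)
      intro x hx
      rw [mem_sdiff, mem_filter, mem_filter] at hx
      rw [mem_singleton]
      obtain ⟨⟨hx1, hx2, hx3⟩, hx4⟩ := hx
      by_contra hne
      exact hx4 ⟨hx1, by omega, by omega⟩)
  linarith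

theorem minB (U : Finset ℕ) (hU : ∀ p ∈ U, p.Prime) (hL : 0 < ∑ p ∈ U, 1 / (p : ℝ)) :
    ∃ C₀ : ℝ, 0 < C₀ ∧ ∀ D : ℕ, 1 ≤ D → ∃ X0 : ℕ, ∀ X : ℕ, X0 ≤ X → ∀ α : ℝ,
      (∀ p ∈ U, ∀ p' ∈ U, p ≠ p' → ∀ b : ℤ, C₀ / D ≤ |((p : ℝ) - p') * α - b|) →
      ∑ x ∈ Ico X (2 * X), ‖V D α x‖ ≤
        (3 / √(∑ p ∈ U, 1 / (p : ℝ)) + 10 / ∑ p ∈ U, 1 / (p : ℝ)) * D * X := by
  obtain ⟨C₀, hC, H⟩ := minA U hU hL
  refine ⟨C₀, hC, ?_⟩
  intro D hD
  obtain ⟨X0, hX0⟩ := H D hD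
  refine ⟨max X0 D, ?_⟩
  intro X hX α hα
  have hXX0 : X0 ≤ X := le_trans (le_max_left _ _) hX
  have hXD : D ≤ X := le_trans (le_max_right _ _) hX
  have h1 := hX0 X hXX0 α hα (MinB_g D α X) (MinB_g_norm D α X) (MinB_g_diff D α X) (by
    intro n hn
    unfold MinB_g
    apply sum_eq_zero
    intro x hx
    exfalso
    apply hn
    rw [mem_filter, mem_Ico] at hx
    rw [mem_Ico]
    omega)
  have h2 : (((∑ x ∈ Ico X (2 * X), ‖V D α x‖ : ℝ)) : ℂ) =
      ∑ n ∈ Ico X (3 * X), (lam n : ℂ) * e (n * α) * MinB_g D α X n := by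
    push_cast
    calc ∑ x ∈ Ico X (2 * X), (‖V D α x‖ : ℂ)
        = ∑ x ∈ Ico X (2 * X), MinB_c D α x * V D α x :=
          sum_congr rfl (fun x _ => (MinB_c_mul D α x).symm)
      _ = ∑ x ∈ Ico X (2 * X), ∑ n ∈ Ico X (3 * X),
            if x ≤ n ∧ n < x + D then (lam n : ℂ) * e (n * α) * MinB_c D α x else 0 := by
          apply sum_congr rfl
          intro x hx
          rw [← sum_filter]
          unfold V
          rw [mul_sum]
          have hs : (Ico X (3 * X)).filter (fun n => x ≤ n ∧ n < x + D) = Ico x (x + D) := by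
            ext n
            rw [mem_filter, mem_Ico, mem_Ico]
            rw [mem_Ico] at hx
            omega
          rw [hs]
          apply sum_congr rfl
          intro n _
          ring
      _ = ∑ n ∈ Ico X (3 * X), ∑ x ∈ Ico X (2 * X),
            if x ≤ n ∧ n < x + D then (lam n : ℂ) * e (n * α) * MinB_c D α x else 0 := sum_comm
      _ = ∑ n ∈ Ico X (3 * X), (lam n : ℂ) * e (n * α) * MinB_g D α X n := by
          apply sum_congr rfl
          intro n _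
          rw [← sum_filter]
          unfold MinB_g
          rw [mul_sum]
  have h3 : ∑ x ∈ Ico X (2 * X), ‖V D α x‖ =
      ‖∑ n ∈ Ico X (3 * X), (lam n : ℂ) * e (n * α) * MinB_g D α X n‖ := by
    rw [← h2, Complex.norm_real, Real.norm_eq_abs, abs_of_nonneg]
    exact sum_nonneg (fun x _ => norm_nonneg _)
  rw [h3]
  exact h1

end Pool.Agent.LLO
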