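import Pool.Agent.LLO.Pairs
import Pool.Agent.LLO.FAv

set_option autoImplicit false

/-! Module PairS: `(P, AP] ⊆ ⋃_{i<A} (2^i P, 2^(i+1) P]` and `pairs` for each block (`log(2^i P) ≥ log P`, `2^i P ≤ 2^A P`):
`rr A P d ≤ C A 2^A P/log² P · F d`.  Then `fAv` with `M = AP`. -/

open Finset

namespace Pool.Agent.LLO

private theorem PairS_dy {P p : ℕ} (h1 : P < p) : ∀ n : ℕ, p ≤ 2 ^ n * P →
    ∃ i < n, 2 ^ i * P < p ∧ p ≤ 2 * (2 ^ i * P) := by
  intro n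
  induction n with
  | zero =>
    intro h
    rw [pow_zero, one_mul] at h
    omega
  | succ n ih =>
    intro h
    rcases Nat.lt_or_ge (2 ^ n * P) p with h2 | h2
    · refine ⟨n, Nat.lt_succ_self n, h2, ?_⟩
      rw [← mul_assoc, ← pow_succ']
      exact h
    · obtain ⟨i, hi, h3⟩ := ih h2
      exact ⟨i, hi.trans (Nat.lt_succ_self n), h3⟩

theorem pairS (A : ℕ) (hA : 1 ≤ A) : ∃ C : ℝ, 0 < C ∧ ∃ P0 : ℕ, ∀ P : ℕ, P0 ≤ P →
    ∑ d ∈ Icc 1 (A * P), ((rr A P d : ℕ) : ℝ) ^ 2 ≤ C * (P : ℝ) ^ 3 / (Real.log P) ^ 4 := by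
  obtain ⟨C1, hC1, N0, h1⟩ := pairs
  obtain ⟨C2, hC2, h2⟩ := fAv
  have hA0 : (0 : ℝ) < A := by exact_mod_cast hA
  refine ⟨(A * (C1 * 2 ^ A)) ^ 2 * (C2 * A), by positivity, max N0 3, fun P hP => ?_⟩
  have hP3 : 3 ≤ P := (le_max_right _ _).trans hP
  have hP1 : (1 : ℝ) < P := by exact_mod_cast (by omega : 1 < P)
  have hlog : 0 < Real.log P := Real.log_pos hP1
  have hrr : ∀ d, 1 ≤ d → ((rr A P d : ℕ) : ℝ) ≤
      A * (C1 * 2 ^ A) * P / (Real.log P) ^ 2 * F d := by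
    intro d hd
    have hF : 0 ≤ F d := by
      have := F_one_le d
      linarith
    have h3 : rr A P d ≤ ∑ i ∈ range A, ((Ioc (2 ^ i * P) (2 * (2 ^ i * P))).filter
        (fun n => n.Prime ∧ (n + d).Prime)).card := by
      unfold rr
      refine (card_le_card ?_).trans card_biUnion_le
      intro p hp
      rw [mem_filter, mem_pr, mem_pr] at hp
      obtain ⟨⟨⟨hp1, hp2⟩, hp3⟩, -, hp4⟩ := hp
      have h4 : p ≤ 2 ^ A * P :=
        hp2.trans (Nat.mul_le_mul_right P (Nat.lt_two_pow_self (n := A)).le)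
      obtain ⟨i, hi, h5, h6⟩ := PairS_dy hp1 A h4
      rw [mem_biUnion]
      exact ⟨i, mem_range.2 hi, mem_filter.2 ⟨mem_Ioc.2 ⟨h5, h6⟩, hp3, hp4⟩⟩
    have h4 : ((rr A P d : ℕ) : ℝ) ≤ ∑ i ∈ range A, (((Ioc (2 ^ i * P) (2 * (2 ^ i * P))).filter
        (fun n => n.Prime ∧ (n + d).Prime)).card : ℝ) := by
      exact_mod_cast h3
    refine h4.trans ?_
    have h5 : ∀ i ∈ range A, (((Ioc (2 ^ i * P) (2 * (2 ^ i * P))).filter
        (fun n => n.Prime ∧ (n + d).Prime)).card : ℝ) ≤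
        (C1 * 2 ^ A) * P / (Real.log P) ^ 2 * F d := by
      intro i hi
      have h2i : 1 ≤ 2 ^ i := Nat.one_le_two_pow
      have h6 : P ≤ 2 ^ i * P := Nat.le_mul_of_pos_left P (by omega)
      refine (h1 (2 ^ i * P) (((le_max_left _ _).trans hP).trans h6) d hd).trans ?_
      refine mul_le_mul_of_nonneg_right ?_ hF
      have h7 : ((2 ^ i * P : ℕ) : ℝ) ≤ 2 ^ A * P := by
        have h8 : 2 ^ i * P ≤ 2 ^ A * P :=
          Nat.mul_le_mul_right P (Nat.pow_le_pow_right (by norm_num) (mem_range.1 hi).le)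
        exact_mod_cast h8
      have h9 : Real.log P ≤ Real.log ((2 ^ i * P : ℕ) : ℝ) :=
        Real.log_le_log (by linarith) (by exact_mod_cast h6)
      have h10 : (Real.log P) ^ 2 ≤ (Real.log ((2 ^ i * P : ℕ) : ℝ)) ^ 2 :=
        pow_le_pow_left₀ hlog.le h9 2
      refine div_le_div₀ (by positivity) ?_ (by positivity) h10
      calc C1 * ((2 ^ i * P : ℕ) : ℝ) ≤ C1 * (2 ^ A * P) :=
            mul_le_mul_of_nonneg_left h7 hC1.le
        _ = C1 * 2 ^ A * P := by ring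
    refine (Finset.sum_le_sum h5).trans ?_
    rw [Finset.sum_const, card_range, nsmul_eq_mul]
    apply le_of_eq
    ring
  calc ∑ d ∈ Icc 1 (A * P), ((rr A P d : ℕ) : ℝ) ^ 2
      ≤ ∑ d ∈ Icc 1 (A * P), (A * (C1 * 2 ^ A) * P / (Real.log P) ^ 2) ^ 2 * (F d) ^ 2 := by
        refine Finset.sum_le_sum fun d hd => ?_
        rw [← mul_pow]
        exact pow_le_pow_left₀ (by positivity) (hrr d (mem_Icc.1 hd).1) 2
    _ = (A * (C1 * 2 ^ A) * P / (Real.log P) ^ 2) ^ 2 * ∑ d ∈ Icc 1 (A * P), (F d) ^ 2 := by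
        rw [Finset.mul_sum]
    _ ≤ (A * (C1 * 2 ^ A) * P / (Real.log P) ^ 2) ^ 2 * (C2 * ((A * P : ℕ) : ℝ)) :=
        mul_le_mul_of_nonneg_left (h2 (A * P)) (by positivity)
    _ = _ := by
        push_cast
        field_simp

end Pool.Agent.LLO
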