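import Pool.Agent.LLO.Defs
import Pool.Agent.NTot.SL
import Pool.Agent.NTot.Mertens

set_option autoImplicit false

/-! Module Pairs: upper bound sieve for prime pairs.  Copy the proof of `Brc/Sv.lean` (`sieve3`, which treats triples) with two forbidden classes
`{0, -d mod l}`: `NTot.SL` with `k = 2`, `X = H = N`, `z = ⌊exp(log N/(2C₀))⌋`; the product is `≤ (∏(1-1/l))² ∏_{l ∣ d}(1 + 6/l)`
(local inequality: `l ∤ d`: `1 - 2/l ≤ (1-1/l)²`; `l ∣ d`: `1 - 1/l ≤ (1-1/l)²(1+6/l)` since `(1-1/l)(1+6/l) ≥ 1` for `l ≥ 2`),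
`NTot.mertens_prod`: `∏_{l≤z}(1-1/l) ≤ C/log z`. -/

open Finset

namespace Pool.Agent.LLO

private def Pairs_Om (d l : ℕ) : Finset ℕ := {0, (l - d % l) % l}

private theorem Pairs_mod {a l n : ℕ} (hl : 0 < l) (h : n % l = (l - a % l) % l) : l ∣ n + a := by
  have h1 : (n + a) % l = 0 := by
    rw [Nat.add_mod, h, Nat.mod_add_mod, Nat.sub_add_cancel (Nat.mod_lt _ hl).le, Nat.mod_self]
  exact Nat.dvd_of_mod_eq_zero h1

private theorem Pairs_sub {d l : ℕ} (hl : 0 < l) : Pairs_Om d l ⊆ range l := by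
  intro x hx
  unfold Pairs_Om at hx
  simp only [mem_insert, mem_singleton] at hx
  rw [mem_range]
  rcases hx with rfl | rfl
  · exact hl
  · exact Nat.mod_lt _ hl

private theorem Pairs_card_le (d l : ℕ) : (Pairs_Om d l).card ≤ 2 := card_le_two

private theorem Pairs_card_pos (d l : ℕ) : 1 ≤ (Pairs_Om d l).card :=
  card_pos.2 ⟨0, by unfold Pairs_Om; simp⟩

private theorem Pairs_card {d l : ℕ} (hl : 0 < l) (ha : ¬ l ∣ d) : (Pairs_Om d l).card = 2 := by
  unfold Pairs_Om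
  rw [card_eq_two]
  refine ⟨0, (l - d % l) % l, ?_, rfl⟩
  intro h
  have h1 := Pairs_mod (a := d) (n := 0) hl (by rw [Nat.zero_mod]; exact h)
  rw [zero_add] at h1
  exact ha h1

private noncomputable def Pairs_G (d l : ℕ) : ℝ := if l ∣ d then 1 + 6 / (l : ℝ) else 1

private theorem Pairs_G_one (d l : ℕ) : 1 ≤ Pairs_G d l := by
  unfold Pairs_G
  split_ifs
  · have : 0 ≤ 6 / (l : ℝ) := by positivity
    linarith
  · exact le_rfl

private theorem Pairs_term {d l : ℕ} (hl : l.Prime) :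
    1 - ((Pairs_Om d l).card : ℝ) / l ≤ (1 - 1 / (l : ℝ)) ^ 2 * Pairs_G d l := by
  have hl2 : (2 : ℝ) ≤ l := by exact_mod_cast hl.two_le
  have hl0 : (0 : ℝ) < l := by linarith
  have hx0 : 0 ≤ 1 / (l : ℝ) := by positivity
  have hx1 : 1 / (l : ℝ) ≤ 1 / 2 := one_div_le_one_div_of_le (by norm_num) hl2
  have h6 : (6 : ℝ) / l = 6 * (1 / l) := by ring
  unfold Pairs_G
  by_cases h : l ∣ d
  · rw [if_pos h, h6]
    have hc : (1 : ℝ) ≤ (Pairs_Om d l).card := by exact_mod_cast Pairs_card_pos d l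
    have h1 : 1 / (l : ℝ) ≤ ((Pairs_Om d l).card : ℝ) / l := div_le_div_of_nonneg_right hc hl0.le
    generalize 1 / (l : ℝ) = x at hx0 hx1 h1 ⊢
    have h2 : 1 - x ≤ (1 - x) ^ 2 * (1 + 6 * x) := by
      have h3 : (1 - x) ^ 2 * (1 + 6 * x) = (1 - x) + (1 - x) * (x * (5 - 6 * x)) := by ring
      rw [h3]
      have h4 : 0 ≤ (1 - x) * (x * (5 - 6 * x)) :=
        mul_nonneg (by linarith) (mul_nonneg hx0 (by linarith))
      linarith
    linarith
  · rw [if_neg h, Pairs_card hl.pos h]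
    have e : ((2 : ℕ) : ℝ) / l = 2 * (1 / l) := by
      push_cast
      ring
    rw [e]
    generalize 1 / (l : ℝ) = x at hx0 hx1 ⊢
    nlinarith [sq_nonneg x]

private theorem Pairs_one_prod (S : Finset ℕ) (f : ℕ → ℝ) (h : ∀ l, 1 ≤ f l) :
    1 ≤ ∏ l ∈ S, f l :=
  prod_induction f (fun x => 1 ≤ x) (fun _ _ => one_le_mul_of_one_le_of_one_le) le_rfl
    (fun l _ => h l)

private theorem Pairs_prodG {d z : ℕ} (hd : d ≠ 0) : ∏ l ∈ NTot.PZ z, Pairs_G d l ≤ F d := by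
  unfold F Pairs_G
  rw [← prod_filter]
  have hsub : (NTot.PZ z).filter (fun l => l ∣ d) ⊆ d.primeFactors := by
    intro l hl
    rw [mem_filter, NTot.mem_PZ] at hl
    exact Nat.mem_primeFactors.2 ⟨hl.1.1, hl.2, hd⟩
  rw [← prod_sdiff hsub]
  apply le_mul_of_one_le_left
  · apply prod_nonneg
    intro l _
    positivity
  · exact Pairs_one_prod _ _ (fun l => by
      have : 0 ≤ 6 / (l : ℝ) := by positivity
      linarith)

private theorem Pairs_F_one (d : ℕ) : 1 ≤ F d := by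
  unfold F
  exact Pairs_one_prod _ _ (fun l => by
    have : 0 ≤ 6 / (l : ℝ) := by positivity
    linarith)

private theorem Pairs_prod {d z : ℕ} (hd : 1 ≤ d) :
    ∏ l ∈ NTot.PZ z, (1 - ((Pairs_Om d l).card : ℝ) / l) ≤
      (∏ l ∈ NTot.PZ z, (1 - (1 : ℝ) / l)) ^ 2 * F d := by
  have hpos : ∀ l ∈ NTot.PZ z, 0 ≤ 1 - (1 : ℝ) / l := by
    intro l hl
    have h1 := (NTot.mem_PZ.1 hl).1.two_le
    have h2 : (2 : ℝ) ≤ l := by exact_mod_cast h1
    have : 1 / (l : ℝ) ≤ 1 / 2 := one_div_le_one_div_of_le (by norm_num) h2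
    linarith
  calc ∏ l ∈ NTot.PZ z, (1 - ((Pairs_Om d l).card : ℝ) / l)
      ≤ ∏ l ∈ NTot.PZ z, ((1 - 1 / (l : ℝ)) ^ 2 * Pairs_G d l) := by
        apply prod_le_prod
        · intro l hl
          have hp := (NTot.mem_PZ.1 hl).1
          have h1 : (Pairs_Om d l).card ≤ l := by
            have := card_le_card (Pairs_sub (d := d) hp.pos)
            rwa [card_range] at this
          have h2 : ((Pairs_Om d l).card : ℝ) / l ≤ 1 := by
            rw [div_le_one (by exact_mod_cast hp.pos)]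
            exact_mod_cast h1
          linarith
        · intro l hl
          exact Pairs_term (NTot.mem_PZ.1 hl).1
    _ = (∏ l ∈ NTot.PZ z, (1 - (1 : ℝ) / l)) ^ 2 * ∏ l ∈ NTot.PZ z, Pairs_G d l := by
        rw [prod_mul_distrib, prod_pow]
    _ ≤ _ := mul_le_mul_of_nonneg_left (Pairs_prodG (by omega)) (pow_nonneg (prod_nonneg hpos) 2)

theorem pairs : ∃ C : ℝ, 0 < C ∧ ∃ N0 : ℕ, ∀ N : ℕ, N0 ≤ N → ∀ d : ℕ, 1 ≤ d →
    (((Ioc N (2 * N)).filter (fun n => n.Prime ∧ (n + d).Prime)).card : ℝ) ≤ C * N / (Real.log N) ^ 2 * F d := by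
  obtain ⟨C₀, hC₀, hSL⟩ := NTot.SL
  obtain ⟨C, hC, hM⟩ := NTot.mertens_prod
  refine ⟨4 * C ^ 2 * (4 * C₀) ^ 2, by positivity, ⌈Real.exp (4 * C₀)⌉₊ + 3, ?_⟩
  intro N hN d hd
  have hN1 : 1 ≤ N := by omega
  have hNpos : (0 : ℝ) < N := by exact_mod_cast hN1
  have hNexp : Real.exp (4 * C₀) ≤ N := by
    have h1 : Real.exp (4 * C₀) ≤ (⌈Real.exp (4 * C₀)⌉₊ : ℝ) := Nat.le_ceil _
    have h2 : ((⌈Real.exp (4 * C₀)⌉₊ : ℕ) : ℝ) ≤ N := by
      exact_mod_cast (by omega : ⌈Real.exp (4 * C₀)⌉₊ ≤ N)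
    linarith
  have hlog : 4 * C₀ ≤ Real.log N := by
    rw [Real.le_log_iff_exp_le hNpos]
    exact hNexp
  have hlog0 : 0 < Real.log N := by linarith
  have hln2 : Real.log 2 ≤ 1 := by
    have := Real.log_two_lt_d9
    linarith
  set y : ℝ := Real.exp (Real.log N / (2 * C₀)) with hy
  set z : ℕ := ⌊y⌋₊ with hz
  have hexpo : 2 ≤ Real.log N / (2 * C₀) := by
    rw [le_div_iff₀ (by positivity)]
    linarith
  have hy2 : 2 ≤ y := by
    have h1 := Real.add_one_le_exp (Real.log N / (2 * C₀))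
    linarith
  have hz2 : 2 ≤ z := Nat.le_floor (by exact_mod_cast hy2)
  have hzy : (z : ℝ) ≤ y := Nat.floor_le (by linarith)
  have hzpos : (0 : ℝ) < z := by exact_mod_cast (by omega : 0 < z)
  have hyz : y / 2 ≤ z := by
    have h1 := Nat.lt_floor_add_one y
    rw [← hz] at h1
    linarith
  have hlogz_le : Real.log z ≤ Real.log N / (2 * C₀) := by
    have h1 := Real.log_le_log hzpos hzy
    rwa [hy, Real.log_exp] at h1
  have hlogz_ge : Real.log N / (4 * C₀) ≤ Real.log z := by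
    have h1 := Real.log_le_log (by linarith) hyz
    rw [Real.log_div (by linarith) (by norm_num), hy, Real.log_exp] at h1
    have h2 : Real.log N / (2 * C₀) = 2 * (Real.log N / (4 * C₀)) := by
      field_simp
      norm_num
    have h3 : 1 ≤ Real.log N / (4 * C₀) := by
      rw [le_div_iff₀ (by positivity)]
      linarith
    linarith
  have hlogz0 : 0 < Real.log z := lt_of_lt_of_le (by positivity) hlogz_ge
  have hcond : C₀ * ((2 : ℕ) : ℝ) * Real.log z ≤ Real.log N := by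
    rw [le_div_iff₀ (by positivity)] at hlogz_le
    push_cast
    linarith
  have hzN : z ≤ N := by
    have h1 : (z : ℝ) ≤ N := by
      rw [← Real.log_le_log_iff hzpos hNpos]
      refine hlogz_le.trans ?_
      rw [div_le_iff₀ (by positivity)]
      nlinarith
    exact_mod_cast h1
  have hS := hSL 2 N N z (Pairs_Om d) (by norm_num) hz2 hN1 hcond (fun l hl =>
    ⟨Pairs_sub (NTot.mem_PZ.1 hl).1.pos, Pairs_card_le d l⟩)
  have hsub : (Ioc N (2 * N)).filter (fun n => n.Prime ∧ (n + d).Prime) ⊆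
      (Ioc N (N + N)).filter (fun n => ∀ l ∈ NTot.PZ z, n % l ∉ Pairs_Om d l) := by
    intro n hn
    rw [mem_filter, mem_Ioc] at hn ⊢
    obtain ⟨⟨hn1, hn2⟩, p1, p2⟩ := hn
    refine ⟨⟨hn1, by omega⟩, ?_⟩
    intro l hl hmem
    obtain ⟨hlp, hlz⟩ := NTot.mem_PZ.1 hl
    unfold Pairs_Om at hmem
    simp only [mem_insert, mem_singleton] at hmem
    rcases hmem with h | h
    · have h1 := Nat.dvd_of_mod_eq_zero h
      have h2 := (Nat.prime_dvd_prime_iff_eq hlp p1).1 h1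
      omega
    · have h1 := Pairs_mod hlp.pos h
      have h2 := (Nat.prime_dvd_prime_iff_eq hlp p2).1 h1
      omega
  have hcard : (((Ioc N (2 * N)).filter
      (fun n => n.Prime ∧ (n + d).Prime)).card : ℝ) ≤
      (((Ioc N (N + N)).filter (fun n => ∀ l ∈ NTot.PZ z, n % l ∉ Pairs_Om d l)).card : ℝ) := by
    exact_mod_cast card_le_card hsub
  have hP := Pairs_prod (z := z) hd
  have hMz := hM z hz2
  have hPpos : 0 ≤ ∏ l ∈ NTot.PZ z, (1 - (1 : ℝ) / l) := by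
    apply prod_nonneg
    intro l hl
    have h1 := (NTot.mem_PZ.1 hl).1.two_le
    have h2 : (2 : ℝ) ≤ l := by exact_mod_cast h1
    have : 1 / (l : ℝ) ≤ 1 / 2 := one_div_le_one_div_of_le (by norm_num) h2
    linarith
  have hFF : 0 ≤ F d := by
    have f1 := Pairs_F_one d
    linarith
  have hMz2 : (∏ l ∈ NTot.PZ z, (1 - (1 : ℝ) / l)) ^ 2 ≤ (C * (4 * C₀) / Real.log N) ^ 2 := by
    apply pow_le_pow_left₀ hPpos
    refine hMz.trans ?_
    rw [div_le_div_iff₀ hlogz0 hlog0]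
    rw [div_le_iff₀ (by positivity)] at hlogz_ge
    nlinarith
  have hSS : (((Ioc N (N + N)).filter (fun n => ∀ l ∈ NTot.PZ z, n % l ∉ Pairs_Om d l)).card : ℝ) ≤
      4 * N * ∏ l ∈ NTot.PZ z, (1 - ((Pairs_Om d l).card : ℝ) / l) := by
    convert hS
  calc (((Ioc N (2 * N)).filter
      (fun n => n.Prime ∧ (n + d).Prime)).card : ℝ)
      ≤ 4 * N * ∏ l ∈ NTot.PZ z, (1 - ((Pairs_Om d l).card : ℝ) / l) := hcard.trans hSS
    _ ≤ 4 * N * ((∏ l ∈ NTot.PZ z, (1 - (1 : ℝ) / l)) ^ 2 * F d) :=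
        mul_le_mul_of_nonneg_left hP (by positivity)
    _ ≤ 4 * N * ((C * (4 * C₀) / Real.log N) ^ 2 * F d) :=
        mul_le_mul_of_nonneg_left (mul_le_mul_of_nonneg_right hMz2 hFF) (by positivity)
    _ = _ := by
        rw [div_pow, mul_pow]
        ring

end Pool.Agent.LLO
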