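import Pool.Agent.LLO.Defs

set_option autoImplicit false

/-! Module Sm: closure properties.  `‖a+b‖² ≤ 2‖a‖²+2‖b‖²`.  `Sm_congr`: for `X ≥ 1` all windows are in `n ≥ 1`. -/

open Finset

namespace Pool.Agent.LLO

theorem Sm_congr {f g : ℕ → ℂ} (h : ∀ n, 1 ≤ n → f n = g n) (hf : Sm f) : Sm g := by
  intro η hη
  obtain ⟨h0, H⟩ := hf η hη
  refine ⟨h0, fun l hl => ?_⟩
  obtain ⟨X0, H1⟩ := H l hl
  refine ⟨max X0 1, fun X hX => ?_⟩
  rw [← Finset.sum_congr rfl (fun x hx => ?_)]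
  · exact H1 X ((le_max_left _ _).trans hX)
  · have hx1 : 1 ≤ x := ((le_max_right _ _).trans hX).trans (mem_Ico.1 hx).1
    rw [Finset.sum_congr rfl fun n hn => h n (hx1.trans (mem_Ico.1 hn).1)]

theorem Sm_zero : Sm (fun _ => 0) := by
  intro η hη
  refine ⟨0, fun l _ => ⟨0, fun X _ => ?_⟩⟩
  simp only [Finset.sum_const_zero, norm_zero]
  rw [Finset.sum_eq_zero fun _ _ => by norm_num]
  positivity

theorem Sm_add {f g : ℕ → ℂ} (hf : Sm f) (hg : Sm g) : Sm (fun n => f n + g n) := by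
  intro η hη
  obtain ⟨a, ha⟩ := hf (η / 4) (by positivity)
  obtain ⟨b, hb⟩ := hg (η / 4) (by positivity)
  refine ⟨max a b, fun l hl => ?_⟩
  obtain ⟨A, hA⟩ := ha l ((le_max_left _ _).trans hl)
  obtain ⟨B, hB⟩ := hb l ((le_max_right _ _).trans hl)
  refine ⟨max A B, fun X hX => ?_⟩
  have h1 := hA X ((le_max_left _ _).trans hX)
  have h2 := hB X ((le_max_right _ _).trans hX)
  calc ∑ x ∈ Ico X (2 * X), ‖∑ n ∈ Ico x (x + l), (f n + g n)‖ ^ 2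
      ≤ ∑ x ∈ Ico X (2 * X), (2 * ‖∑ n ∈ Ico x (x + l), f n‖ ^ 2 +
        2 * ‖∑ n ∈ Ico x (x + l), g n‖ ^ 2) := by
        refine Finset.sum_le_sum fun x _ => ?_
        rw [Finset.sum_add_distrib]
        have h3 := norm_add_le (∑ n ∈ Ico x (x + l), f n) (∑ n ∈ Ico x (x + l), g n)
        have h4 := norm_nonneg (∑ n ∈ Ico x (x + l), f n + ∑ n ∈ Ico x (x + l), g n)
        nlinarith [sq_nonneg (‖∑ n ∈ Ico x (x + l), f n‖ - ‖∑ n ∈ Ico x (x + l), g n‖)]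
    _ = 2 * (∑ x ∈ Ico X (2 * X), ‖∑ n ∈ Ico x (x + l), f n‖ ^ 2) +
        2 * ∑ x ∈ Ico X (2 * X), ‖∑ n ∈ Ico x (x + l), g n‖ ^ 2 := by
        rw [Finset.sum_add_distrib, Finset.mul_sum, Finset.mul_sum]
    _ ≤ 2 * (η / 4 * (l : ℝ) ^ 2 * X) + 2 * (η / 4 * (l : ℝ) ^ 2 * X) := by linarith
    _ = η * (l : ℝ) ^ 2 * X := by ring

theorem Sm_smul {f : ℕ → ℂ} (c : ℂ) (hf : Sm f) : Sm (fun n => c * f n) := by
  intro η hη
  obtain ⟨a, ha⟩ := hf (η / (‖c‖ ^ 2 + 1)) (by positivity)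
  refine ⟨a, fun l hl => ?_⟩
  obtain ⟨A, hA⟩ := ha l hl
  refine ⟨A, fun X hX => ?_⟩
  have h1 := hA X hX
  calc ∑ x ∈ Ico X (2 * X), ‖∑ n ∈ Ico x (x + l), c * f n‖ ^ 2
      = ‖c‖ ^ 2 * ∑ x ∈ Ico X (2 * X), ‖∑ n ∈ Ico x (x + l), f n‖ ^ 2 := by
        rw [Finset.mul_sum]
        refine Finset.sum_congr rfl fun x _ => ?_
        rw [← Finset.mul_sum, norm_mul, mul_pow]
    _ ≤ ‖c‖ ^ 2 * (η / (‖c‖ ^ 2 + 1) * (l : ℝ) ^ 2 * X) :=
        mul_le_mul_of_nonneg_left h1 (by positivity)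
    _ = (‖c‖ ^ 2 / (‖c‖ ^ 2 + 1)) * (η * (l : ℝ) ^ 2 * X) := by
        field_simp
    _ ≤ 1 * (η * (l : ℝ) ^ 2 * X) := by
        refine mul_le_mul_of_nonneg_right ?_ (by positivity)
        rw [div_le_one (by positivity)]
        linarith
    _ = η * (l : ℝ) ^ 2 * X := one_mul _

theorem Sm_sum {ι : Type} (s : Finset ι) (f : ι → ℕ → ℂ) (h : ∀ i ∈ s, Sm (f i)) :
    Sm (fun n => ∑ i ∈ s, f i n) := by
  classical
  induction s using Finset.induction_on with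
  | empty =>
    simp only [Finset.sum_empty]
    exact Sm_zero
  | insert a s ha ih =>
    simp only [Finset.sum_insert ha]
    exact Sm_add (h a (mem_insert_self _ _)) (ih fun i hi => h i (mem_insert_of_mem hi))

end Pool.Agent.LLO
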