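import Pool.Agent.LLO.SmMr
import Pool.Agent.MR.ZFinal

set_option autoImplicit false

/-! Module SmChi: `lam n * χ n = (-1)^Ω(n) χ(n)`.  `MR.CM_zch (-1) _ χ`, `MR.pw_of_fb _ (MR.CM_zch ..) (MR.FB_zch q χ 2 _ (-1) ..)`
(see `gz_CM`, `gz_PW` in `MRE/Key.lean` for the exact form of the same argument), then `Sm_mr`. -/

open Finset

namespace Pool.Agent.LLO

theorem Sm_chi (q : ℕ) (hq : 1 ≤ q) (χ : DirichletCharacter ℂ q) : Sm (fun n => (lam n : ℂ) * χ n) := by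
  have : NeZero q := ⟨by omega⟩
  have hcm := MR.CM_zch (-1 : ℂ) (by simp) χ
  have hpw := MR.pw_of_fb _ hcm (MR.FB_zch q χ 2 le_rfl (-1 : ℂ) (by norm_num) (by norm_num))
  have h := Sm_mr _ hcm hpw
  have e : MR.zch (-1 : ℂ) χ = fun n => (lam n : ℂ) * χ n := by
    funext n
    unfold MR.zch lam
    push_cast
    rfl
  rwa [e] at h

end Pool.Agent.LLO
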