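import Pool.Agent.LLO.Defs

set_option autoImplicit false

/-! Module SmDil: dilation.  `f(n) = g(n/d)` if `d ∣ n`, else `0`.  `∑_{n ∈ [x,x+h)} f(n) = ∑_{m ∈ [⌈x/d⌉, ⌈(x+h)/d⌉)} g(m)`; with `y = ⌈x/d⌉`, `h' = h/d`
(natural division): `⌈(x+h)/d⌉ - y ∈ {h', h'+1}`, so the sum differs from `∑_{m∈[y,y+h')} g(m)` by at most `1`, `‖·‖² ≤ 2‖∑_{[y,y+h')} g‖² + 2`.
Each `y` comes from at most `d` values of `x`, `y ∈ [Y, 2Y]`, `Y = ⌈X/d⌉ ≤ X/d + 1`; the term `y = 2Y` contributes `≤ d·h'²`.  Total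
`≤ 2d (η' h'² Y + h'²) + 2X ≤ 2η'(h²/d)(X/d+1) + 2h² + 2X ≤ η h² X` for `η' = η/8`, `h² ≥ 8/η`, `h ≥ d·h0'`, `X` large. -/

open Finset

namespace Pool.Agent.LLO

private theorem SmDil_reidx (g : ℕ → ℂ) (d : ℕ) (hd : 1 ≤ d) (x h : ℕ) :
    ∑ n ∈ Ico x (x + h), (if d ∣ n then g (n / d) else 0) =
      ∑ m ∈ Ico ((x + (d - 1)) / d) ((x + h + (d - 1)) / d), g m := by
  rw [← sum_filter]
  symm
  refine sum_bij' (fun m _ => d * m) (fun n _ => n / d) ?_ ?_ ?_ ?_ ?_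
  · intro m hm
    rw [mem_Ico] at hm
    rw [mem_filter, mem_Ico]
    obtain ⟨h1, h2⟩ := hm
    have h1' : x + (d - 1) < d * (m + 1) := by
      have := Nat.lt_mul_div_succ (x + (d - 1)) (show 0 < d by omega)
      calc x + (d - 1) < d * ((x + (d - 1)) / d + 1) := this
        _ ≤ d * (m + 1) := Nat.mul_le_mul_left d (by omega)
    have h2' : d * (m + 1) ≤ x + h + (d - 1) := by
      calc d * (m + 1) ≤ d * ((x + h + (d - 1)) / d) := Nat.mul_le_mul_left d (by omega)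
        _ ≤ x + h + (d - 1) := Nat.mul_div_le _ _
    rw [Nat.mul_add, Nat.mul_one] at h1' h2'
    exact ⟨⟨by omega, by omega⟩, Dvd.intro _ rfl⟩
  · intro n hn
    rw [mem_filter, mem_Ico] at hn
    obtain ⟨⟨h1, h2⟩, k, rfl⟩ := hn
    rw [Nat.mul_div_cancel_left k (by omega : 0 < d), mem_Ico]
    constructor
    · rw [← Nat.lt_succ_iff, Nat.div_lt_iff_lt_mul (by omega : 0 < d)]
      have : (k + 1) * d = d * k + d := by ring
      rw [Nat.succ_eq_add_one, this]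
      omega
    · rw [← Nat.succ_le_iff, Nat.le_div_iff_mul_le (by omega : 0 < d)]
      have : (k + 1) * d = d * k + d := by ring
      rw [Nat.succ_eq_add_one, this]
      omega
  · intro m _
    exact Nat.mul_div_cancel_left m (by omega)
  · intro n hn
    rw [mem_filter] at hn
    exact Nat.mul_div_cancel' hn.2
  · intro m _
    rw [Nat.mul_div_cancel_left m (by omega : 0 < d)]

private theorem SmDil_len (d : ℕ) (hd : 1 ≤ d) (x h : ℕ) :
    (x + (d - 1)) / d + h / d ≤ (x + h + (d - 1)) / d ∧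
      (x + h + (d - 1)) / d ≤ (x + (d - 1)) / d + h / d + 1 := by
  have h0 : x + h + (d - 1) = (x + (d - 1)) + h := by omega
  rw [h0]
  generalize x + (d - 1) = u
  rw [Nat.add_div (by omega : 0 < d)]
  split_ifs
  · exact ⟨Nat.le_succ _, le_refl _⟩
  · exact ⟨le_refl _, Nat.le_succ _⟩

private theorem SmDil_pt (g : ℕ → ℂ) (hb : ∀ n, ‖g n‖ ≤ 1) (d : ℕ) (hd : 1 ≤ d) (x h : ℕ) :
    ‖∑ n ∈ Ico x (x + h), (if d ∣ n then g (n / d) else 0)‖ ^ 2 ≤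
      2 * ‖∑ m ∈ Ico ((x + (d - 1)) / d) ((x + (d - 1)) / d + h / d), g m‖ ^ 2 + 2 := by
  rw [SmDil_reidx g d hd x h]
  obtain ⟨h1, h2⟩ := SmDil_len d hd x h
  set y := (x + (d - 1)) / d with hy
  set z := (x + h + (d - 1)) / d with hz
  rw [← sum_Ico_consecutive g (Nat.le_add_right y (h / d)) h1]
  have h3 : ‖∑ m ∈ Ico (y + h / d) z, g m‖ ≤ 1 := by
    calc ‖∑ m ∈ Ico (y + h / d) z, g m‖ ≤ ∑ m ∈ Ico (y + h / d) z, ‖g m‖ := norm_sum_le _ _
      _ ≤ ∑ m ∈ Ico (y + h / d) z, (1 : ℝ) := sum_le_sum (fun m _ => hb m)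
      _ = ((z - (y + h / d) : ℕ) : ℝ) := by simp
      _ ≤ 1 := by
        have h2' : z - (y + h / d) ≤ 1 := by
          rw [Nat.sub_le_iff_le_add, Nat.add_comm]
          exact h2
        exact_mod_cast h2'
  have h4 := norm_add_le (∑ m ∈ Ico y (y + h / d), g m) (∑ m ∈ Ico (y + h / d) z, g m)
  have h5 := norm_nonneg (∑ m ∈ Ico y (y + h / d), g m)
  have h6 := norm_nonneg (∑ m ∈ Ico (y + h / d) z, g m)
  have h7 := norm_nonneg (∑ m ∈ Ico y (y + h / d), g m + ∑ m ∈ Ico (y + h / d) z, g m)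
  nlinarith [sq_nonneg (‖∑ m ∈ Ico y (y + h / d), g m‖ - ‖∑ m ∈ Ico (y + h / d) z, g m‖),
    mul_self_le_mul_self h7 h4, mul_self_le_mul_self h6 h3]

private theorem SmDil_fib (G : ℕ → ℝ) (hG : ∀ y, 0 ≤ G y) (d : ℕ) (hd : 1 ≤ d) (X : ℕ) :
    ∑ x ∈ Ico X (2 * X), G ((x + (d - 1)) / d) ≤
      d * ∑ y ∈ Icc ((X + (d - 1)) / d) (2 * ((X + (d - 1)) / d)), G y := by
  have hmaps : ∀ x ∈ Ico X (2 * X), (x + (d - 1)) / d ∈
      Icc ((X + (d - 1)) / d) (2 * ((X + (d - 1)) / d)) := by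
    intro x hx
    rw [mem_Ico] at hx
    rw [mem_Icc]
    constructor
    · exact Nat.div_le_div_right (by omega)
    · rw [← Nat.lt_succ_iff, Nat.div_lt_iff_lt_mul (by omega : 0 < d), Nat.succ_eq_add_one]
      have := Nat.lt_mul_div_succ (X + (d - 1)) (show 0 < d by omega)
      have h2 : X ≤ d * ((X + (d - 1)) / d) := by
        rw [Nat.mul_add, Nat.mul_one] at this
        omega
      have h3 : (2 * ((X + (d - 1)) / d) + 1) * d = 2 * (d * ((X + (d - 1)) / d)) + d := by ring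
      rw [h3]
      omega
  rw [← sum_fiberwise_of_maps_to hmaps, mul_sum]
  apply sum_le_sum
  intro y _
  have h1 : ∑ x ∈ (Ico X (2 * X)).filter (fun x => (x + (d - 1)) / d = y), G ((x + (d - 1)) / d) =
      ∑ x ∈ (Ico X (2 * X)).filter (fun x => (x + (d - 1)) / d = y), G y := by
    apply sum_congr rfl
    intro x hx
    rw [mem_filter] at hx
    rw [hx.2]
  rw [h1, sum_const, nsmul_eq_mul]
  apply mul_le_mul_of_nonneg_right _ (hG y)
  have h2 : (Ico X (2 * X)).filter (fun x => (x + (d - 1)) / d = y) ⊆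
      Ico (d * y + 1 - d) (d * y + 1) := by
    intro x hx
    rw [mem_filter] at hx
    obtain ⟨_, hx⟩ := hx
    rw [mem_Ico]
    have h3 := Nat.lt_mul_div_succ (x + (d - 1)) (show 0 < d by omega)
    have h4 := Nat.mul_div_le (x + (d - 1)) d
    rw [hx] at h3 h4
    rw [Nat.mul_add, Nat.mul_one] at h3
    omega
  have h5 := card_le_card h2
  rw [Nat.card_Ico] at h5
  have h6 : ((Ico X (2 * X)).filter (fun x => (x + (d - 1)) / d = y)).card ≤ d := by omega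
  exact_mod_cast h6

theorem Sm_dil {g : ℕ → ℂ} (hg : Sm g) (hb : ∀ n, ‖g n‖ ≤ 1) (d : ℕ) (hd : 1 ≤ d) :
    Sm (fun n => if d ∣ n then g (n / d) else 0) := by
  intro η hη
  obtain ⟨h0, H⟩ := hg (η / 8) (by positivity)
  obtain ⟨N, hN⟩ := exists_nat_ge (8 / η)
  have hd0 : (0 : ℝ) < d := by exact_mod_cast hd
  refine ⟨max (d * h0) (max N 1), ?_⟩
  intro h hh
  have hh1 : d * h0 ≤ h := le_trans (le_max_left _ _) hh
  have hh2 : N ≤ h := le_trans (le_trans (le_max_left _ _) (le_max_right _ _)) hh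
  have hh3 : 1 ≤ h := le_trans (le_trans (le_max_right _ _) (le_max_right _ _)) hh
  have hh' : h0 ≤ h / d := by
    rw [Nat.le_div_iff_mul_le (by omega : 0 < d)]
    linarith [Nat.mul_comm d h0]
  obtain ⟨X1, hX1⟩ := H (h / d) hh'
  obtain ⟨N2, hN2⟩ := exists_nat_ge (8 / η)
  refine ⟨max (d * X1) (max (d * N2) (max d 1)), ?_⟩
  intro X hX
  have hXa : d * X1 ≤ X := le_trans (le_max_left _ _) hX
  have hXb : d * N2 ≤ X := le_trans (le_trans (le_max_left _ _) (le_max_right _ _)) hX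
  have hXc : d ≤ X := le_trans (le_trans (le_trans (le_max_left _ _) (le_max_right _ _)) (le_max_right _ _)) hX
  set Y := (X + (d - 1)) / d with hY
  have hY1 : X1 ≤ Y := by
    rw [hY, Nat.le_div_iff_mul_le (by omega : 0 < d)]
    linarith [Nat.mul_comm d X1]
  have hYX : d * Y ≤ X + (d - 1) := by rw [hY]; exact Nat.mul_div_le _ _
  have hA := hX1 Y hY1
  have hlast : ‖∑ n ∈ Ico (2 * Y) (2 * Y + h / d), g n‖ ^ 2 ≤ ((h / d : ℕ) : ℝ) ^ 2 := by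
    have h1 : ‖∑ n ∈ Ico (2 * Y) (2 * Y + h / d), g n‖ ≤ ((h / d : ℕ) : ℝ) := by
      calc ‖∑ n ∈ Ico (2 * Y) (2 * Y + h / d), g n‖ ≤ ∑ n ∈ Ico (2 * Y) (2 * Y + h / d), ‖g n‖ := norm_sum_le _ _
        _ ≤ ∑ n ∈ Ico (2 * Y) (2 * Y + h / d), (1 : ℝ) := sum_le_sum (fun m _ => hb m)
        _ = ((h / d : ℕ) : ℝ) := by simp
    have h2 := norm_nonneg (∑ n ∈ Ico (2 * Y) (2 * Y + h / d), g n)
    exact pow_le_pow_left₀ h2 h1 2
  have hB : ∑ y ∈ Icc Y (2 * Y), ‖∑ m ∈ Ico y (y + h / d), g m‖ ^ 2 ≤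
      η / 8 * ((h / d : ℕ) : ℝ) ^ 2 * Y + ((h / d : ℕ) : ℝ) ^ 2 := by
    have : Icc Y (2 * Y) = insert (2 * Y) (Ico Y (2 * Y)) := by
      ext a
      rw [mem_insert, mem_Icc, mem_Ico]
      omega
    rw [this, sum_insert (by rw [mem_Ico]; omega)]
    linarith
  have hC := SmDil_fib (fun y => ‖∑ m ∈ Ico y (y + h / d), g m‖ ^ 2) (fun y => by positivity) d hd X
  have hD : ∑ x ∈ Ico X (2 * X), ‖∑ n ∈ Ico x (x + h), (if d ∣ n then g (n / d) else 0)‖ ^ 2 ≤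
      2 * ∑ x ∈ Ico X (2 * X), ‖∑ m ∈ Ico ((x + (d - 1)) / d) ((x + (d - 1)) / d + h / d), g m‖ ^ 2 + 2 * X := by
    calc ∑ x ∈ Ico X (2 * X), ‖∑ n ∈ Ico x (x + h), (if d ∣ n then g (n / d) else 0)‖ ^ 2
        ≤ ∑ x ∈ Ico X (2 * X), (2 * ‖∑ m ∈ Ico ((x + (d - 1)) / d) ((x + (d - 1)) / d + h / d), g m‖ ^ 2 + 2) :=
          sum_le_sum (fun x _ => SmDil_pt g hb d hd x h)
      _ = _ := by
          rw [sum_add_distrib, ← mul_sum, sum_const, Nat.card_Ico, nsmul_eq_mul]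
          have : 2 * X - X = X := by omega
          rw [this]
          ring
  -- numeric part
  have hq : ((h / d : ℕ) : ℝ) * d ≤ h := by
    exact_mod_cast Nat.div_mul_le_self h d
  have hq0 : (0 : ℝ) ≤ ((h / d : ℕ) : ℝ) := by positivity
  set q : ℝ := ((h / d : ℕ) : ℝ) with hqdef
  have hYX' : (d : ℝ) * Y ≤ 2 * X := by
    have : d * Y ≤ 2 * X := by omega
    exact_mod_cast this
  have hd1 : (1 : ℝ) ≤ d := by exact_mod_cast hd
  have hqh : q ≤ h := by nlinarith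
  have hq2 : q ^ 2 ≤ (h : ℝ) ^ 2 := pow_le_pow_left₀ hq0 hqh 2
  have hh8 : 8 ≤ η * (h : ℝ) ^ 2 := by
    have h1 : 8 / η ≤ (h : ℝ) := hN.trans (by exact_mod_cast hh2)
    rw [div_le_iff₀ hη] at h1
    have h3 : (1 : ℝ) ≤ h := by exact_mod_cast hh3
    nlinarith [mul_nonneg hη.le (show (0 : ℝ) ≤ h by linarith)]
  have hX8 : 8 * (d : ℝ) ≤ η * X := by
    have h1 : (d : ℝ) * N2 ≤ X := by exact_mod_cast hXb
    have h2 : (d : ℝ) * (8 / η) ≤ X := le_trans (mul_le_mul_of_nonneg_left hN2 hd0.le) h1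
    rw [mul_div_assoc', div_le_iff₀ hη] at h2
    linarith
  have hX0 : (0 : ℝ) ≤ X := by positivity
  have hfin : 2 * ((d : ℝ) * (η / 8 * q ^ 2 * Y + q ^ 2)) + 2 * X ≤ η * (h : ℝ) ^ 2 * X := by
    have e1 : (d : ℝ) * (η / 8 * q ^ 2 * Y) ≤ η / 4 * (h : ℝ) ^ 2 * X := by
      have : (d : ℝ) * (η / 8 * q ^ 2 * Y) = η / 8 * q ^ 2 * (d * Y) := by ring
      rw [this]
      calc η / 8 * q ^ 2 * (d * Y) ≤ η / 8 * q ^ 2 * (2 * X) := by
            apply mul_le_mul_of_nonneg_left hYX'; positivity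
        _ = η / 4 * X * q ^ 2 := by ring
        _ ≤ η / 4 * X * (h : ℝ) ^ 2 := by
            apply mul_le_mul_of_nonneg_left hq2; positivity
        _ = η / 4 * (h : ℝ) ^ 2 * X := by ring
    have e2 : (d : ℝ) * q ^ 2 ≤ η / 8 * (h : ℝ) ^ 2 * X := by
      calc (d : ℝ) * q ^ 2 ≤ (d : ℝ) * (h : ℝ) ^ 2 := mul_le_mul_of_nonneg_left hq2 hd0.le
        _ = (8 * (d : ℝ)) * (h : ℝ) ^ 2 / 8 := by ring
        _ ≤ (η * X) * (h : ℝ) ^ 2 / 8 := by
            have := mul_le_mul_of_nonneg_right hX8 (sq_nonneg (h : ℝ))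
            linarith
        _ = η / 8 * (h : ℝ) ^ 2 * X := by ring
    have e3 : 2 * (X : ℝ) ≤ η / 4 * (h : ℝ) ^ 2 * X := by
      nlinarith
    nlinarith
  calc ∑ x ∈ Ico X (2 * X), ‖∑ n ∈ Ico x (x + h), (if d ∣ n then g (n / d) else 0)‖ ^ 2
      ≤ 2 * ∑ x ∈ Ico X (2 * X), ‖∑ m ∈ Ico ((x + (d - 1)) / d) ((x + (d - 1)) / d + h / d), g m‖ ^ 2 + 2 * X := hD
    _ ≤ 2 * ((d : ℝ) * ∑ y ∈ Icc Y (2 * Y), ‖∑ m ∈ Ico y (y + h / d), g m‖ ^ 2) + 2 * X := by linarith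
    _ ≤ 2 * ((d : ℝ) * (η / 8 * q ^ 2 * Y + q ^ 2)) + 2 * X := by
        have := mul_le_mul_of_nonneg_left hB hd0.le
        linarith
    _ ≤ η * (h : ℝ) ^ 2 * X := hfin

end Pool.Agent.LLO
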