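import Pool.Agent.LLO.Defs
import Pool.Agent.MR.AShort

set_option autoImplicit false

/-! Module SmMr: from `MR.mr_short` (end of `MR/AShort.lean`): for natural `h` and `y ∈ [m, m+1)`: `⌊y⌋₊ = m`, `⌊y+h⌋₊ = m+h`, so
`∫_N^{2N} ‖∑_{n ∈ Ioc ⌊y⌋ ⌊y+h⌋} f n‖² dy = ∑_{m ∈ [N,2N)} ‖∑_{n ∈ [m+1, m+1+h)} f n‖²` for natural `N`.  Take `N = X - 1`: this covers
`x = m+1 ∈ [X, 2X-1)`; the term `x = 2X-1` is `≤ h²`.  So the sum is `≤ η/2 h² X + h² ≤ η h² X` for `X ≥ 2/η`. -/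

open Finset

namespace Pool.Agent.LLO

theorem Sm_mr (f : ℕ → ℂ) (hf : MR.CM f) (hpw : MR.PW f) : Sm f := by
  intro η hη
  obtain ⟨h0, hh0, H⟩ := MR.mr_short f hf hpw (η / 2) (by linarith)
  refine ⟨⌈h0⌉₊, fun h hh => ?_⟩
  have hhr : h0 ≤ (h : ℝ) := (Nat.le_ceil h0).trans (by exact_mod_cast hh)
  obtain ⟨N0, hN0, HN⟩ := H h hhr
  refine ⟨⌈N0⌉₊ + ⌈2 / η⌉₊ + 2, fun X hX => ?_⟩
  obtain ⟨N, rfl⟩ : ∃ N, X = N + 1 := ⟨X - 1, by omega⟩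
  have hNr : N0 ≤ (N : ℝ) := (Nat.le_ceil N0).trans (by exact_mod_cast (by omega : ⌈N0⌉₊ ≤ N))
  have h1 := HN N hNr
  set G : ℕ → ℝ := fun m => ‖∑ n ∈ Ico (m + 1) (m + 1 + h), f n‖ ^ 2 with hG
  have hg : ∀ k : ℕ, Set.EqOn (fun _ : ℝ => G k)
      (fun y : ℝ => ‖∑ n ∈ Ioc ⌊y⌋₊ ⌊y + h⌋₊, f n‖ ^ 2) (Set.uIoo (k : ℝ) ((k + 1 : ℕ) : ℝ)) := by
    intro k y hy
    rw [Set.uIoo_of_le (by push_cast; linarith)] at hy
    obtain ⟨hy1, hy2⟩ := hy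
    have hy0 : 0 ≤ y := (Nat.cast_nonneg k).trans hy1.le
    have hfl : ⌊y⌋₊ = k := (Nat.floor_eq_iff hy0).2 ⟨hy1.le, by push_cast at hy2; exact hy2⟩
    have hfl2 : ⌊y + h⌋₊ = k + h := by rw [Nat.floor_add_natCast hy0, hfl]
    have hset : Ioc ⌊y⌋₊ ⌊y + (h : ℝ)⌋₊ = Ico (k + 1) (k + 1 + h) := by
      rw [hfl, hfl2]
      ext n
      simp only [mem_Ioc, mem_Ico]
      omega
    simp only [hG]
    rw [hset]
  have hint : ∀ k ∈ Set.Ico N (2 * N), IntervalIntegrable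
      (fun y : ℝ => ‖∑ n ∈ Ioc ⌊y⌋₊ ⌊y + h⌋₊, f n‖ ^ 2) MeasureTheory.volume
      (k : ℝ) ((k + 1 : ℕ) : ℝ) := by
    intro k _
    exact (intervalIntegrable_const (c := G k)).congr_uIoo (hg k)
  have hval : ∀ k : ℕ, ∫ y in (k : ℝ)..((k + 1 : ℕ) : ℝ),
      ‖∑ n ∈ Ioc ⌊y⌋₊ ⌊y + h⌋₊, f n‖ ^ 2 = G k := by
    intro k
    rw [← intervalIntegral.integral_congr_uIoo (hg k), intervalIntegral.integral_const]
    push_cast
    rw [add_sub_cancel_left, one_smul]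
  have hsum := intervalIntegral.sum_integral_adjacent_intervals_Ico
    (a := fun k : ℕ => (k : ℝ)) (μ := MeasureTheory.volume)
    (f := fun y : ℝ => ‖∑ n ∈ Ioc ⌊y⌋₊ ⌊y + h⌋₊, f n‖ ^ 2) (m := N) (n := 2 * N) (by omega) hint
  simp only [hval] at hsum
  rw [intervalIntegral.integral_of_le (by push_cast; linarith [(Nat.cast_nonneg N : (0 : ℝ) ≤ N)]),
    ← MeasureTheory.integral_Icc_eq_integral_Ioc] at hsum
  push_cast at hsum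
  rw [← hsum] at h1
  have hlast : G (2 * N) ≤ (h : ℝ) ^ 2 := by
    simp only [hG]
    have h2 : ‖∑ n ∈ Ico (2 * N + 1) (2 * N + 1 + h), f n‖ ≤ h := by
      refine (norm_sum_le _ _).trans ((Finset.sum_le_sum fun n _ => hf.norm_le n).trans ?_)
      simp
    exact pow_le_pow_left₀ (norm_nonneg _) h2 2
  have hshift : ∑ x ∈ Ico (N + 1) (2 * (N + 1)), ‖∑ n ∈ Ico x (x + h), f n‖ ^ 2 =
      ∑ m ∈ Ico N (2 * N + 1), G m := by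
    have h3 := Finset.sum_Ico_add' (fun x => ‖∑ n ∈ Ico x (x + h), f n‖ ^ 2) N (2 * N + 1) 1
    rw [← show 2 * N + 1 + 1 = 2 * (N + 1) by ring, ← h3]
  rw [hshift, Finset.sum_Ico_succ_top (by omega)]
  have hη2 : 2 / η ≤ (N : ℝ) := (Nat.le_ceil _).trans (by exact_mod_cast (by omega : ⌈2 / η⌉₊ ≤ N))
  have hη3 : 1 ≤ η / 2 * N := by
    rw [div_le_iff₀ hη] at hη2
    linarith
  have hh2 : (0 : ℝ) ≤ (h : ℝ) ^ 2 := by positivity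
  push_cast
  nlinarith [mul_le_mul_of_nonneg_left hη3 hh2]

end Pool.Agent.LLO
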