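import Pool.Agent.LLO.SmRes

set_option autoImplicit false

/-! Module SmRat: `λ(n) e(n a/q) = ∑_{b<q} e(b a/q) 1_{n ≡ b (q)} λ(n)` (`e` depends on `n a/q` modulo `1` only). -/

open Finset

namespace Pool.Agent.LLO

theorem Sm_rat (q : ℕ) (a : ℤ) (hq : 1 ≤ q) : Sm (fun n => (lam n : ℂ) * e (n * (a / q))) := by
  have h := Sm_sum (range q) (fun b n => e ((b : ℝ) * ((a : ℝ) / q)) * (if n ≡ b [MOD q] then (lam n : ℂ) else 0))
    (fun b _ => Sm_smul _ (Sm_res q b hq))
  have hq0 : (q : ℝ) ≠ 0 := by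
    have : 0 < q := by omega
    exact_mod_cast this.ne'
  have e1 : (fun n => ∑ b ∈ range q, e ((b : ℝ) * ((a : ℝ) / q)) * (if n ≡ b [MOD q] then (lam n : ℂ) else 0)) =
      fun n => (lam n : ℂ) * e (n * (a / q)) := by
    funext n
    rw [Finset.sum_eq_single (n % q)]
    · rw [if_pos (Nat.mod_modEq n q).symm, mul_comm]
      congr 1
      have h1 : (n : ℝ) * ((a : ℝ) / q) = ((n % q : ℕ) : ℝ) * ((a : ℝ) / q) + (((n / q : ℕ) : ℤ) * a : ℤ) := by
        have h2 : (n : ℝ) = q * ((n / q : ℕ) : ℝ) + ((n % q : ℕ) : ℝ) := by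
          exact_mod_cast (Nat.div_add_mod n q).symm
        generalize n / q = k at h2 ⊢
        generalize n % q = r at h2 ⊢
        rw [h2]
        push_cast
        field_simp
        ring
      rw [h1, e_add, e_int, mul_one]
    · intro b hb hne
      rw [if_neg, mul_zero]
      intro hcon
      apply hne
      rw [mem_range] at hb
      have : n % q = b % q := hcon
      rw [Nat.mod_eq_of_lt hb] at this
      exact this.symm
    · intro hcon
      exact absurd (mem_range.2 (Nat.mod_lt n (by omega))) hcon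
  rwa [e1] at h

end Pool.Agent.LLO
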