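import Pool.Agent.LLO.Sm
import Pool.Agent.LLO.SmDil
import Pool.Agent.LLO.SmChi

set_option autoImplicit false

/-! Module SmRes: residue classes.  `d = gcd(b, q)`, `q = d q'`, `b = d b'`, `gcd(b',q') = 1` (if `b = 0`: `d = q`, `q' = 1`).  For `n ≥ 1`:
`n ≡ b (mod q)` iff `d ∣ n` and `n/d ≡ b' (mod q')`.  `g(m) = λ(d) 1_{m ≡ b' (q')} λ(m) = λ(d) (1/φ(q')) ∑_χ conj χ(b') χ(m) λ(m)`
(orthogonality: Mathlib `DirichletCharacter.sum_char_inv_mul_char_eq`), so `Sm g` by `Sm_chi`, `Sm_smul`, `Sm_sum`; `‖g‖ ≤ 1`; `Sm_dil` and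
`λ(dm) = λ(d)λ(m)` (`m ≥ 1`), `Sm_congr`. -/

open Finset

namespace Pool.Agent.LLO

theorem Sm_res (q b : ℕ) (hq : 1 ≤ q) : Sm (fun n => if n ≡ b [MOD q] then (lam n : ℂ) else 0) := by
  classical
  obtain ⟨d, q', b', hd, hq', hqd, hbd, hcop⟩ : ∃ d q' b' : ℕ, 1 ≤ d ∧ 1 ≤ q' ∧ q = d * q' ∧
      b = d * b' ∧ Nat.Coprime b' q' := by
    have hg : 0 < Nat.gcd b q := Nat.gcd_pos_of_pos_right b hq
    refine ⟨Nat.gcd b q, q / Nat.gcd b q, b / Nat.gcd b q, hg,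
      Nat.div_pos (Nat.gcd_le_right b hq) hg, (Nat.mul_div_cancel' (Nat.gcd_dvd_right b q)).symm,
      (Nat.mul_div_cancel' (Nat.gcd_dvd_left b q)).symm, Nat.coprime_div_gcd_div_gcd hg⟩
  have : NeZero q' := ⟨by omega⟩
  have ha : IsUnit (b' : ZMod q') := (ZMod.isUnit_iff_coprime b' q').2 hcop
  have hphi : (q'.totient : ℂ) ≠ 0 := by
    have := Nat.totient_pos.2 (show 0 < q' by omega)
    exact_mod_cast this.ne'
  -- the sum over characters
  have h1 : Sm (fun m => ((lam d : ℂ) / (q'.totient : ℂ)) *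
      ∑ χ : DirichletCharacter ℂ q', χ (b' : ZMod q')⁻¹ * ((lam m : ℂ) * χ m)) :=
    Sm_smul _ (Sm_sum Finset.univ (fun χ : DirichletCharacter ℂ q' =>
      fun m : ℕ => χ (b' : ZMod q')⁻¹ * ((lam m : ℂ) * χ m))
      (fun χ _ => Sm_smul _ (Sm_chi q' hq' χ)))
  have h2 : Sm (fun m => (lam d : ℂ) * (if m ≡ b' [MOD q'] then (lam m : ℂ) else 0)) := by
    refine Sm_congr ?_ h1
    intro m _
    have h3 := DirichletCharacter.sum_char_inv_mul_char_eq ℂ ha (m : ZMod q')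
    have h4 : ∑ χ : DirichletCharacter ℂ q', χ (b' : ZMod q')⁻¹ * ((lam m : ℂ) * χ m) =
        (lam m : ℂ) * ∑ χ : DirichletCharacter ℂ q', χ (b' : ZMod q')⁻¹ * χ m := by
      rw [Finset.mul_sum]
      refine Finset.sum_congr rfl (fun χ _ => ?_)
      ring
    rw [h4, h3]
    by_cases hm : m ≡ b' [MOD q']
    · have hm' : (b' : ZMod q') = (m : ZMod q') := ((ZMod.natCast_eq_natCast_iff _ _ _).2 hm).symm
      rw [if_pos hm', if_pos hm]
      field_simp
    · have hm' : ¬ (b' : ZMod q') = (m : ZMod q') := fun h =>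
        hm ((ZMod.natCast_eq_natCast_iff _ _ _).1 h.symm)
      rw [if_neg hm', if_neg hm]
      ring
  have hb : ∀ m, ‖(lam d : ℂ) * (if m ≡ b' [MOD q'] then (lam m : ℂ) else 0)‖ ≤ 1 := by
    intro m
    rw [norm_mul, lam_norm, one_mul]
    split_ifs
    · rw [lam_norm]
    · rw [norm_zero]; exact zero_le_one
  refine Sm_congr ?_ (Sm_dil h2 hb d hd)
  intro n hn
  by_cases hdn : d ∣ n
  · rw [if_pos hdn]
    obtain ⟨m, rfl⟩ := hdn
    have hm : 0 < m := by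
      rcases Nat.eq_zero_or_pos m with h | h
      · rw [h, mul_zero] at hn; omega
      · exact h
    rw [Nat.mul_div_cancel_left m (by omega), hqd, hbd]
    by_cases hmb : m ≡ b' [MOD q']
    · rw [if_pos hmb, if_pos (Nat.ModEq.mul_left' d hmb), lam_mul (by omega) hm]
      push_cast
      rfl
    · rw [if_neg hmb, if_neg, mul_zero]
      intro h
      exact hmb (Nat.ModEq.mul_left_cancel' (by omega) h)
  · rw [if_neg hdn, if_neg]
    intro h
    apply hdn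
    exact (h.dvd_iff (hqd ▸ Dvd.intro _ rfl)).2 (hbd ▸ Dvd.intro _ rfl)

end Pool.Agent.LLO
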