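import Pool.Agent.LLO.MinB
import Pool.Agent.LLO.SmRat
import Pool.Agent.LLO.Maj

set_option autoImplicit false

/-! Module SupA: all `α`.  Choose a finite set `U` of primes with `L = ∑ 1/p` so large that `3/√L + 10/L ≤ η` (`Nat.Primes.not_summable_one_div` or
`not_summable_one_div_on_primes`); `C₀` from `minB`; `W = ∑_{p∈U} p + 1`.  For `1 ≤ r ≤ W`, `0 ≤ a < r`: `maj` for `f(n) = λ(n)e(n a/r)` (`Sm_rat`),
`C = C₀`; take the maximum of the finitely many `D0`, and for each `D` of the `X0`.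
Given `α`: if the minor arc condition holds: `‖V‖² ≤ D‖V‖`, `minB`.  Otherwise there are `p ≠ p'` in `U`, `b` with `|(p-p')α - b| < C₀/D`;
put `r = |p-p'| ≤ W` (change the sign of `b` if `p < p'`), `b = r k + a`, `0 ≤ a < r` (`Int.emod`), `θ = α - k - a/r`: `|θ| ≤ C₀/(rD) ≤ C₀/D` and
`e(nα) = e(n a/r) e(nθ)` (`e(nk) = 1`). -/

open Finset

namespace Pool.Agent.LLO

theorem SupA_primes (B : ℝ) : ∃ U : Finset ℕ, (∀ p ∈ U, p.Prime) ∧ B < ∑ p ∈ U, 1 / (p : ℝ) := by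
  classical
  by_contra hcon
  push Not at hcon
  apply not_summable_one_div_on_primes
  refine summable_of_sum_le (c := B) (fun n => ?_) (fun s => ?_)
  · apply Set.indicator_nonneg
    intro m _
    positivity
  · have h := hcon (s.filter Nat.Prime) (fun p hp => (mem_filter.1 hp).2)
    refine le_trans (le_of_eq ?_) h
    rw [sum_filter]
    refine sum_congr rfl fun p _ => ?_
    rw [Set.indicator_apply]
    rfl

theorem V_le (D : ℕ) (α : ℝ) (x : ℕ) : ‖V D α x‖ ≤ D := by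
  unfold V
  refine (norm_sum_le _ _).trans ?_
  have h : ∀ n ∈ Ico x (x + D), ‖(lam n : ℂ) * e (n * α)‖ ≤ 1 := fun n _ => by
    rw [norm_mul, lam_norm, e_norm, one_mul]
  refine (sum_le_sum h).trans ?_
  rw [sum_const, Nat.card_Ico]
  simp

/-- splitting of the phase -/
theorem SupA_phase (α C : ℝ) (hC : 0 ≤ C) (r : ℕ) (hr : 1 ≤ r) (b : ℤ) (h : |(r : ℝ) * α - b| ≤ C) :
    ∃ a : ℕ, a < r ∧ ∃ θ : ℝ, |θ| ≤ C ∧ ∀ n : ℕ, e (n * α) = e (n * (((a : ℤ) : ℝ) / r)) * e (n * θ) := by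
  have hr0 : (0 : ℝ) < r := by exact_mod_cast (by omega : 0 < r)
  have hr1 : (1 : ℝ) ≤ r := by exact_mod_cast hr
  have hrz : (0 : ℤ) < r := by exact_mod_cast (by omega : 0 < r)
  have h1 := Int.emod_nonneg b hrz.ne'
  have h2 := Int.emod_lt_of_pos b hrz
  have h3 := Int.mul_ediv_add_emod b r
  set a : ℕ := (b % r).toNat with ha
  have ha' : (a : ℤ) = b % r := Int.toNat_of_nonneg h1
  refine ⟨a, by omega, α - (b / r : ℤ) - ((a : ℤ) : ℝ) / r, ?_, ?_⟩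
  · have e1 : α - (b / r : ℤ) - ((a : ℤ) : ℝ) / r = ((r : ℝ) * α - b) / r := by
      have h4 : (b : ℝ) = r * ((b / r : ℤ) : ℝ) + ((a : ℤ) : ℝ) := by
        rw [ha']
        exact_mod_cast h3.symm
      generalize ((b / r : ℤ) : ℝ) = k at h4 ⊢
      rw [h4]
      field_simp
      ring
    rw [e1, abs_div, abs_of_pos hr0, div_le_iff₀ hr0]
    nlinarith
  · intro n
    have e2 : (n : ℝ) * α = (n * (((a : ℤ) : ℝ) / r) + n * (α - (b / r : ℤ) - ((a : ℤ) : ℝ) / r)) + ((n * (b / r) : ℤ) : ℝ) := by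
      push_cast
      ring
    rw [e2, e_add, e_add, e_int, mul_one]

theorem supA (η : ℝ) (hη : 0 < η) : ∃ D0 : ℕ, ∀ D : ℕ, D0 ≤ D → ∃ X0 : ℕ, ∀ X : ℕ, X0 ≤ X → ∀ α : ℝ,
    ∑ x ∈ Ico X (2 * X), ‖V D α x‖ ^ 2 ≤ η * (D : ℝ) ^ 2 * X := by
  classical
  obtain ⟨U, hU, hL⟩ := SupA_primes (36 / η ^ 2 + 20 / η)
  set L : ℝ := ∑ p ∈ U, 1 / (p : ℝ) with hLdef
  have hq1 : 0 < 36 / η ^ 2 := by positivity
  have hq2 : 0 < 20 / η := by positivity
  have hL0 : 0 < L := by linarith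
  have hLη : 3 / √L + 10 / L ≤ η := by
    have h1 : 3 / √L ≤ η / 2 := by
      rw [div_le_iff₀ (Real.sqrt_pos.2 hL0)]
      have h2 : 6 / η ≤ √L := by
        apply Real.le_sqrt_of_sq_le
        rw [div_pow]
        norm_num
        linarith
      rw [div_le_iff₀ hη] at h2
      linarith
    have h3 : 10 / L ≤ η / 2 := by
      rw [div_le_iff₀ hL0]
      have h4 : 20 / η ≤ L := by linarith
      rw [div_le_iff₀ hη] at h4
      linarith
    linarith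
  obtain ⟨C₀, hC₀, hmin⟩ := minB U hU hL0
  set W : ℕ := ∑ p ∈ U, p + 1 with hW
  have hpW : ∀ p ∈ U, p < W := by
    intro p hp
    have := single_le_sum (f := fun p : ℕ => p) (fun _ _ => Nat.zero_le _) hp
    omega
  have hmaj : ∀ i : ℕ × ℕ, ∃ D0 : ℕ, ∀ D : ℕ, D0 ≤ D → ∃ X0 : ℕ, ∀ X : ℕ, X0 ≤ X → ∀ θ : ℝ, |θ| ≤ C₀ / D →
      ∑ x ∈ Ico X (2 * X), ‖∑ n ∈ Ico x (x + D), ((lam n : ℂ) * e (n * (((i.2 : ℤ) : ℝ) / ((i.1 + 1 : ℕ) : ℝ)))) * e (n * θ)‖ ^ 2 ≤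
        η * (D : ℝ) ^ 2 * X := by
    intro i
    exact maj _ (Sm_rat (i.1 + 1) (i.2 : ℤ) (by omega)) (fun n => by rw [norm_mul, lam_norm, e_norm, one_mul]) C₀ η hC₀.le hη
  choose DD hDD using hmaj
  set I : Finset (ℕ × ℕ) := range W ×ˢ range W with hI
  refine ⟨max 1 (I.sup DD), fun D hD => ?_⟩
  have hD1 : 1 ≤ D := (le_max_left _ _).trans hD
  have hDr : (1 : ℝ) ≤ D := by exact_mod_cast hD1
  have hDI : ∀ i ∈ I, DD i ≤ D := fun i hi => (Finset.le_sup hi).trans ((le_max_right _ _).trans hD)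
  obtain ⟨X1, hX1⟩ := hmin D hD1
  have hXX : ∀ i : ℕ × ℕ, ∃ X0 : ℕ, i ∈ I → ∀ X : ℕ, X0 ≤ X → ∀ θ : ℝ, |θ| ≤ C₀ / D →
      ∑ x ∈ Ico X (2 * X), ‖∑ n ∈ Ico x (x + D), ((lam n : ℂ) * e (n * (((i.2 : ℤ) : ℝ) / ((i.1 + 1 : ℕ) : ℝ)))) * e (n * θ)‖ ^ 2 ≤
        η * (D : ℝ) ^ 2 * X := by
    intro i
    by_cases hi : i ∈ I
    · obtain ⟨X0, h⟩ := hDD i D (hDI i hi)
      exact ⟨X0, fun _ => h⟩
    · exact ⟨0, fun h => absurd h hi⟩
  choose XX hXX using hXX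
  refine ⟨max X1 (I.sup XX), fun X hX α => ?_⟩
  have hXa : X1 ≤ X := (le_max_left _ _).trans hX
  have hXI : ∀ i ∈ I, XX i ≤ X := fun i hi => (Finset.le_sup hi).trans ((le_max_right _ _).trans hX)
  by_cases hm : ∀ p ∈ U, ∀ p' ∈ U, p ≠ p' → ∀ b : ℤ, C₀ / D ≤ |((p : ℝ) - p') * α - b|
  · have h1 := hX1 X hXa α hm
    have h2 : ∑ x ∈ Ico X (2 * X), ‖V D α x‖ ^ 2 ≤ ∑ x ∈ Ico X (2 * X), (D : ℝ) * ‖V D α x‖ := by
      refine sum_le_sum fun x _ => ?_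
      rw [sq]
      exact mul_le_mul_of_nonneg_right (V_le D α x) (norm_nonneg _)
    refine h2.trans ?_
    rw [← mul_sum]
    calc (D : ℝ) * ∑ x ∈ Ico X (2 * X), ‖V D α x‖ ≤ D * ((3 / √L + 10 / L) * D * X) :=
          mul_le_mul_of_nonneg_left h1 (by linarith)
      _ ≤ D * (η * D * X) := by gcongr
      _ = η * (D : ℝ) ^ 2 * X := by ring
  · push Not at hm
    -- the denominator
    have hex : ∃ r : ℕ, 1 ≤ r ∧ r ≤ W ∧ ∃ b : ℤ, |(r : ℝ) * α - b| ≤ C₀ / D := by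
      obtain ⟨p, hp, p', hp', hne, b, hb⟩ := hm
      have h1 := hpW p hp
      have h2 := hpW p' hp'
      rcases lt_or_gt_of_ne hne with hlt | hgt
      · refine ⟨p' - p, by omega, by omega, -b, ?_⟩
        rw [Nat.cast_sub hlt.le]
        have e1 : ((p' : ℝ) - p) * α - ((-b : ℤ) : ℝ) = -(((p : ℝ) - p') * α - b) := by
          push_cast; ring
        rw [e1, abs_neg]
        exact hb.le
      · refine ⟨p - p', by omega, by omega, b, ?_⟩
        rw [Nat.cast_sub hgt.le]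
        exact hb.le
    obtain ⟨r, hr1, hrW, b, hb⟩ := hex
    obtain ⟨a, har, θ, hθ, hph⟩ := SupA_phase α (C₀ / D) (by positivity) r hr1 b hb
    have hi : ((r - 1, a) : ℕ × ℕ) ∈ I := by
      rw [hI, mem_product, mem_range, mem_range]
      constructor
      · simp only; omega
      · simp only; omega
    have h3 := hXX (r - 1, a) hi X (hXI _ hi) θ hθ
    refine le_trans (le_of_eq ?_) h3
    refine sum_congr rfl fun x _ => ?_
    congr 2
    unfold V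
    refine sum_congr rfl fun n _ => ?_
    rw [hph n, mul_assoc]
    have e3 : r - 1 + 1 = r := by omega
    simp only [e3]

end Pool.Agent.LLO
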