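import Pool.Agent.LLO.Defs
import Pool.Agent.FCH.Decr

set_option autoImplicit false

/-! Definitions: the dynamical system of one scale `X`: the points `a < X` stand for the integers `X + a`. -/

open Finset

namespace Pool.Agent.LLO

open Pool.Agent.FCH (ent rst wrd)

/-- cyclic shift of `range X` -/
def sh (X a : ℕ) : ℕ := if a + 1 < X then a + 1 else 0

/-- the letter at `a`: parity of `Ω(X+a)`, and a mark for the last point -/
def sy (X a : ℕ) : Bool × Bool := (decide (Even (ArithmeticFunction.cardFactors (X + a))), decide (a + 1 = X))

/-- residues -/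
def yo (X a p : ℕ) : ℕ := (X + a) % p

/-- entropy deficiency of the residues modulo the primes in `pr A P`, given the word of length `H` -/
noncomputable def dfc (X A P H : ℕ) : ℝ :=
  ∑ p ∈ pr A P, Real.log p - (ent (range X) (fun a => (wrd (sh X) (sy X) H a, rst (pr A P) (yo X a))) -
    ent (range X) (wrd (sh X) (sy X) H))

/-- `λ` from the letter -/
def lb (b : Bool × Bool) : ℝ := if b.1 then 1 else -1

theorem lb_sy (X a : ℕ) : lb (sy X a) = lam (X + a) := by
  unfold lb sy lam
  by_cases h : Even (ArithmeticFunction.cardFactors (X + a))
  · simp [h]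
  · simp [h, (Nat.not_even_iff_odd.1 h).neg_one_pow]

theorem sh_iter {X a i : ℕ} (h : a + i < X) : (sh X)^[i] a = a + i := by
  induction i with
  | zero => rfl
  | succ i ih =>
    rw [Function.iterate_succ_apply', ih (by omega)]
    unfold sh
    rw [if_pos (by omega)]
    omega

end Pool.Agent.LLO
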