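import Pool.Agent.LLO.Defs

set_option autoImplicit false

/-! Module Tk: Turán-Kubilius for a fixed finite set of primes.  `I = [X, 3X)`, `|I| = 2X`, `L = ∑_{p ∈ U} 1/p`, `ω(n) = #{p ∈ U : p ∣ n}`.
`∑_I ω = ∑_p #{n ∈ I : p ∣ n} = 2X L + O(|U|)`; `∑_I ω² = ∑_{p,p'} #{n ∈ I : p ∣ n, p' ∣ n} ≤ ∑_{p≠p'} (2X/(pp') + 1) + ∑_p (2X/p + 1)
≤ 2X L² + 2X L + |U|²`.  So `∑ (ω-L)² ≤ 2XL + |U|² + 2L|U|`, and this is `≤ 3LX` for `X ≥ (|U|² + 2L|U|)/L` (if `U = ∅` both sides are `0`). -/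

open Finset

namespace Pool.Agent.LLO

private lemma tk_count (d X : ℕ) (hd : 0 < d) (hX : 0 < X) :
    2 * (X : ℝ) / d - 1 ≤ (((Ico X (3 * X)).filter (fun n => d ∣ n)).card : ℝ) ∧
      (((Ico X (3 * X)).filter (fun n => d ∣ n)).card : ℝ) ≤ 2 * (X : ℝ) / d + 1 := by
  have h1 : ((Ico X (3 * X)).filter (fun n => d ∣ n)).card + (X - 1) / d = (3 * X - 1) / d := by
    rw [← Nat.Ioc_filter_dvd_card_eq_div (X - 1) d, ← Nat.Ioc_filter_dvd_card_eq_div (3 * X - 1) d,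
      ← Finset.card_union_of_disjoint]
    · congr 1
      ext n
      simp only [mem_union, mem_filter, mem_Ico, mem_Ioc]
      constructor
      · rintro (⟨h1, h2⟩ | ⟨h1, h2⟩)
        · exact ⟨by omega, h2⟩
        · exact ⟨by omega, h2⟩
      · rintro ⟨h1, h2⟩
        by_cases h : X ≤ n
        · left; exact ⟨by omega, h2⟩
        · right; exact ⟨by omega, h2⟩
    · rw [Finset.disjoint_left]
      intro n hn hn'
      simp only [mem_filter, mem_Ico, mem_Ioc] at hn hn'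
      omega
  have hdR : (0 : ℝ) < d := by exact_mod_cast hd
  have h2 := Nat.div_add_mod (X - 1) d
  have h3 := Nat.div_add_mod (3 * X - 1) d
  have h4 := Nat.mod_lt (X - 1) hd
  have h5 := Nat.mod_lt (3 * X - 1) hd
  set c := ((Ico X (3 * X)).filter (fun n => d ∣ n)).card with hc
  have h6 : d * c + d * ((X - 1) / d) = d * ((3 * X - 1) / d) := by rw [← mul_add, h1]
  have h7 : d * c + (3 * X - 1) % d + X = 3 * X + (X - 1) % d := by omega
  have h8 : (d : ℝ) * c + ((3 * X - 1) % d : ℕ) + X = 3 * X + ((X - 1) % d : ℕ) := by exact_mod_cast h7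
  have h9 : (((3 * X - 1) % d : ℕ) : ℝ) ≤ d := by exact_mod_cast h5.le
  have h10 : (((X - 1) % d : ℕ) : ℝ) ≤ d := by exact_mod_cast h4.le
  have h11 : (0 : ℝ) ≤ (((3 * X - 1) % d : ℕ) : ℝ) := Nat.cast_nonneg _
  have h12 : (0 : ℝ) ≤ (((X - 1) % d : ℕ) : ℝ) := Nat.cast_nonneg _
  constructor
  · rw [sub_le_iff_le_add, div_le_iff₀ hdR]
    nlinarith
  · rw [← sub_le_iff_le_add, le_div_iff₀ hdR]
    nlinarith

private lemma tk_pair (p q X : ℕ) (hp : p.Prime) (hq : q.Prime) (hX : 0 < X) :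
    (((Ico X (3 * X)).filter (fun n => p ∣ n ∧ q ∣ n)).card : ℝ) ≤
      2 * (X : ℝ) * (1 / (p : ℝ)) * (1 / (q : ℝ)) + 1 + if p = q then 2 * (X : ℝ) * (1 / (p : ℝ)) else 0 := by
  have hpR : (0 : ℝ) < p := by exact_mod_cast hp.pos
  have hqR : (0 : ℝ) < q := by exact_mod_cast hq.pos
  by_cases h : p = q
  · subst h
    rw [if_pos rfl]
    have h1 := (tk_count p X hp.pos hX).2
    have h2 : ((Ico X (3 * X)).filter (fun n => p ∣ n ∧ p ∣ n)) = (Ico X (3 * X)).filter (fun n => p ∣ n) := by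
      congr 1
      ext n
      simp
    rw [h2]
    have h3 : (0 : ℝ) ≤ 2 * (X : ℝ) * (1 / (p : ℝ)) * (1 / (p : ℝ)) := by positivity
    have h4 : 2 * (X : ℝ) * (1 / (p : ℝ)) = 2 * (X : ℝ) / p := by ring
    rw [h4] at h3 ⊢
    linarith
  · rw [if_neg h, add_zero]
    have h1 := (tk_count (p * q) X (Nat.mul_pos hp.pos hq.pos) hX).2
    have h2 : ((Ico X (3 * X)).filter (fun n => p ∣ n ∧ q ∣ n)) =
        (Ico X (3 * X)).filter (fun n => p * q ∣ n) := by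
      refine Finset.filter_congr fun n _ => ?_
      constructor
      · rintro ⟨h3, h4⟩
        exact Nat.Coprime.mul_dvd_of_dvd_of_dvd ((Nat.coprime_primes hp hq).mpr h) h3 h4
      · intro h3
        exact ⟨(Dvd.intro _ rfl).trans h3, (Dvd.intro_left _ rfl).trans h3⟩
    rw [h2]
    have h3 : 2 * (X : ℝ) * (1 / (p : ℝ)) * (1 / (q : ℝ)) = 2 * (X : ℝ) / ((p * q : ℕ) : ℝ) := by
      push_cast
      field_simp
    rw [h3]
    exact h1

theorem tk (U : Finset ℕ) (hU : ∀ p ∈ U, p.Prime) : ∃ X0 : ℕ, ∀ X : ℕ, X0 ≤ X →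
    ∑ n ∈ Ico X (3 * X), (((U.filter (fun p => p ∣ n)).card : ℝ) - ∑ p ∈ U, 1 / (p : ℝ)) ^ 2 ≤
      3 * (∑ p ∈ U, 1 / (p : ℝ)) * X := by
  rcases U.eq_empty_or_nonempty with hE | hE
  · subst hE
    exact ⟨0, fun X _ => by simp⟩
  set L : ℝ := ∑ p ∈ U, 1 / (p : ℝ) with hL
  have hLpos : 0 < L := by
    rw [hL]
    refine Finset.sum_pos (fun p hp => ?_) hE
    have : (0 : ℝ) < p := by exact_mod_cast (hU p hp).pos
    positivity
  set m : ℝ := (U.card : ℝ) with hm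
  refine ⟨⌈(m ^ 2 + 2 * L * m) / L⌉₊ + 1, fun X hX => ?_⟩
  have hXpos : 0 < X := by omega
  have hXR : (m ^ 2 + 2 * L * m) / L ≤ X := by
    refine (Nat.le_ceil _).trans ?_
    exact_mod_cast (by omega : ⌈(m ^ 2 + 2 * L * m) / L⌉₊ ≤ X)
  rw [div_le_iff₀ hLpos] at hXR
  have hw : ∀ n, ((U.filter (fun p => p ∣ n)).card : ℝ) = ∑ p ∈ U, (if p ∣ n then (1 : ℝ) else 0) := by
    intro n
    rw [Finset.sum_ite, Finset.sum_const_zero, add_zero, Finset.sum_const, nsmul_eq_mul, mul_one]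
  have hS1 : 2 * X * L - m ≤ ∑ n ∈ Ico X (3 * X), ((U.filter (fun p => p ∣ n)).card : ℝ) := by
    rw [Finset.sum_congr rfl fun n _ => hw n, Finset.sum_comm]
    have : ∀ p ∈ U, 2 * (X : ℝ) * (1 / (p : ℝ)) - 1 ≤ ∑ n ∈ Ico X (3 * X), (if p ∣ n then (1 : ℝ) else 0) := by
      intro p hp
      have h1 := (tk_count p X (hU p hp).pos hXpos).1
      rw [Finset.sum_ite, Finset.sum_const_zero, add_zero, Finset.sum_const, nsmul_eq_mul, mul_one]
      have h4 : 2 * (X : ℝ) * (1 / (p : ℝ)) = 2 * (X : ℝ) / p := by ring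
      rw [h4]
      exact h1
    refine le_trans (le_of_eq ?_) (Finset.sum_le_sum this)
    rw [Finset.sum_sub_distrib, ← Finset.mul_sum, Finset.sum_const, nsmul_eq_mul, mul_one]
  have hS2 : ∑ n ∈ Ico X (3 * X), ((U.filter (fun p => p ∣ n)).card : ℝ) ^ 2 ≤
      2 * X * L ^ 2 + m ^ 2 + 2 * X * L := by
    have h1 : ∀ n, ((U.filter (fun p => p ∣ n)).card : ℝ) ^ 2 =
        ∑ p ∈ U, ∑ q ∈ U, (if p ∣ n ∧ q ∣ n then (1 : ℝ) else 0) := by
      intro n
      rw [hw n, sq, Finset.sum_mul_sum]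
      refine Finset.sum_congr rfl fun p _ => Finset.sum_congr rfl fun q _ => ?_
      by_cases h2 : p ∣ n <;> by_cases h3 : q ∣ n <;> simp [h2, h3]
    rw [Finset.sum_congr rfl fun n _ => h1 n, Finset.sum_comm]
    have h2 : ∀ p ∈ U, ∑ n ∈ Ico X (3 * X), ∑ q ∈ U, (if p ∣ n ∧ q ∣ n then (1 : ℝ) else 0) ≤
        ∑ q ∈ U, (2 * (X : ℝ) * (1 / (p : ℝ)) * (1 / (q : ℝ)) + 1 +
          if p = q then 2 * (X : ℝ) * (1 / (p : ℝ)) else 0) := by
      intro p hp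
      rw [Finset.sum_comm]
      refine Finset.sum_le_sum fun q hq => ?_
      rw [Finset.sum_ite, Finset.sum_const_zero, add_zero, Finset.sum_const, nsmul_eq_mul, mul_one]
      exact tk_pair p q X (hU p hp) (hU q hq) hXpos
    refine (Finset.sum_le_sum h2).trans (le_of_eq ?_)
    have h3 : ∀ p ∈ U, ∑ q ∈ U, (2 * (X : ℝ) * (1 / (p : ℝ)) * (1 / (q : ℝ)) + 1 +
          if p = q then 2 * (X : ℝ) * (1 / (p : ℝ)) else 0) =
        2 * (X : ℝ) * (1 / (p : ℝ)) * L + m + 2 * (X : ℝ) * (1 / (p : ℝ)) := by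
      intro p hp
      rw [Finset.sum_add_distrib, Finset.sum_add_distrib, ← Finset.mul_sum, Finset.sum_const,
        nsmul_eq_mul, mul_one, Finset.sum_ite_eq, if_pos hp]
    rw [Finset.sum_congr rfl h3, Finset.sum_add_distrib, Finset.sum_add_distrib, ← Finset.sum_mul,
      ← Finset.mul_sum, Finset.sum_const, nsmul_eq_mul]
    ring
  have hcard : ((Ico X (3 * X)).card : ℝ) = 2 * X := by
    rw [Nat.card_Ico]
    have : 3 * X - X = 2 * X := by omega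
    rw [this]
    push_cast
    ring
  have hexp : ∑ n ∈ Ico X (3 * X), (((U.filter (fun p => p ∣ n)).card : ℝ) - L) ^ 2 =
      ∑ n ∈ Ico X (3 * X), ((U.filter (fun p => p ∣ n)).card : ℝ) ^ 2 -
        2 * L * ∑ n ∈ Ico X (3 * X), ((U.filter (fun p => p ∣ n)).card : ℝ) + 2 * X * L ^ 2 := by
    rw [Finset.mul_sum, ← Finset.sum_sub_distrib, ← hcard, ← nsmul_eq_mul, ← Finset.sum_const,
      ← Finset.sum_add_distrib]
    refine Finset.sum_congr rfl fun n _ => ?_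
    ring
  rw [hexp]
  nlinarith [mul_le_mul_of_nonneg_left hS1 hLpos.le]

end Pool.Agent.LLO
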